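import Pool.Agent.Lib_helper98.CO.BoundedGen

/-!
# Random translates of subspaces of `K³` fill up `K³`
-/

set_option autoImplicit false

namespace H98CO

open Finset Matrix Matrix.SpecialLinearGroup Pool.Agent.Lib_helper64.Cut Module

section trans

variable {K : Type*} [Field K]

lemma val_mul_inv (g : SL3 K) : g.1 * (g⁻¹ : SL3 K).1 = 1 :=
  congrArg Subtype.val (mul_inv_cancel g)

lemma vecMul_ne_zero (ψ : Fin 3 → K) (hψ : ψ ≠ 0) (g : SL3 K) : ψ ᵥ* g.1 ≠ 0 := by
  intro h
  apply hψ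
  have h1 : (ψ ᵥ* g.1) ᵥ* (g⁻¹ : SL3 K).1 = ψ := by
    rw [Matrix.vecMul_vecMul]
    have := val_mul_inv g
    rw [this, Matrix.vecMul_one]
  rw [h, Matrix.zero_vecMul] at h1
  exact h1.symm

/-- every nonzero row vector is the last row of a matrix of determinant one -/
lemma exists_row (ψ : Fin 3 → K) (hψ : ψ ≠ 0) :
    ∃ g : SL3 K, (Pi.single 2 1 : Fin 3 → K) ᵥ* g.1 = ψ := by
  have key : ∀ M : Matrix (Fin 3) (Fin 3) K, M.det = 1 → M 2 = ψ →
      ∃ g : SL3 K, (Pi.single 2 1 : Fin 3 → K) ᵥ* g.1 = ψ := by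
    intro M hM h2
    refine ⟨⟨M, hM⟩, ?_⟩
    simp only [Matrix.single_one_vecMul]
    exact h2
  by_cases h2 : ψ 2 = 0
  · by_cases h1 : ψ 1 = 0
    · have h0 : ψ 0 ≠ 0 := by
        intro h0
        apply hψ
        ext i
        fin_cases i
        · exact h0
        · exact h1
        · exact h2
      refine key !![0, 1, 0; 0, 0, (ψ 0)⁻¹; ψ 0, ψ 1, ψ 2] ?_ ?_
      · rw [Matrix.det_fin_three]
        simp [h0]
      · ext i
        fin_cases i <;> rfl
    · refine key !![0, 0, 1; (ψ 1)⁻¹, 0, 0; ψ 0, ψ 1, ψ 2] ?_ ?_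
      · rw [Matrix.det_fin_three]
        simp [h1]
      · ext i
        fin_cases i <;> rfl
  · refine key !![1, 0, 0; 0, (ψ 2)⁻¹, 0; ψ 0, ψ 1, ψ 2] ?_ ?_
    · rw [Matrix.det_fin_three]
      simp [h2]
    · ext i
      fin_cases i <;> rfl

lemma exists_trans (ψ φ : Fin 3 → K) (hψ : ψ ≠ 0) (hφ : φ ≠ 0) :
    ∃ g : SL3 K, ψ ᵥ* g.1 = φ := by
  obtain ⟨a, ha⟩ := exists_row ψ hψ
  obtain ⟨b, hb⟩ := exists_row φ hφ
  refine ⟨a⁻¹ * b, ?_⟩
  have h1 : ψ ᵥ* (a⁻¹ : SL3 K).1 = Pi.single 2 1 := by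
    rw [← ha, Matrix.vecMul_vecMul]
    have := val_mul_inv a
    rw [this, Matrix.vecMul_one]
  have h2 : (a⁻¹ * b : SL3 K).1 = (a⁻¹ : SL3 K).1 * b.1 := rfl
  rw [h2, ← Matrix.vecMul_vecMul, h1, hb]

variable [Fintype K] [DecidableEq K]

/-- each nonzero row vector is hit equally often -/
lemma card_hit (ψ φ : Fin 3 → K) (hψ : ψ ≠ 0) (hφ : φ ≠ 0) :
    (univ.filter fun g : SL3 K => ψ ᵥ* g.1 = φ).card * (Fintype.card (Fin 3 → K) - 1) =
      Fintype.card (SL3 K) := by
  classical
  have h1 : ∀ φ' : Fin 3 → K, φ' ≠ 0 → (univ.filter fun g : SL3 K => ψ ᵥ* g.1 = φ').card =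
      (univ.filter fun g : SL3 K => ψ ᵥ* g.1 = φ).card := by
    intro φ' hφ'
    obtain ⟨h, hh⟩ := exists_trans φ' φ hφ' hφ
    refine Finset.card_bij' (fun g _ => g * h) (fun g _ => g * h⁻¹) ?_ ?_ ?_ ?_
    · intro g hg
      simp only [Finset.mem_filter, Finset.mem_univ, true_and] at hg ⊢
      have : (g * h : SL3 K).1 = g.1 * h.1 := rfl
      rw [this, ← Matrix.vecMul_vecMul, hg, hh]
    · intro g hg
      simp only [Finset.mem_filter, Finset.mem_univ, true_and] at hg ⊢
      have : (g * h⁻¹ : SL3 K).1 = g.1 * (h⁻¹ : SL3 K).1 := rfl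
      rw [this, ← Matrix.vecMul_vecMul, hg, ← hh, Matrix.vecMul_vecMul]
      have := val_mul_inv h
      rw [this, Matrix.vecMul_one]
    · intro g _
      simp
    · intro g _
      simp
  have h2 : Fintype.card (SL3 K) =
      ∑ φ' ∈ (univ.erase (0 : Fin 3 → K)), (univ.filter fun g : SL3 K => ψ ᵥ* g.1 = φ').card := by
    rw [← Finset.card_univ]
    exact Finset.card_eq_sum_card_fiberwise (f := fun g : SL3 K => ψ ᵥ* g.1)
      (fun g _ => Finset.mem_coe.mpr (Finset.mem_erase.mpr ⟨vecMul_ne_zero ψ hψ g,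
        Finset.mem_univ _⟩))
  rw [h2, Finset.sum_congr rfl fun φ' hφ' => h1 φ' (Finset.ne_of_mem_erase hφ'),
    Finset.sum_const, smul_eq_mul, Finset.card_erase_of_mem (Finset.mem_univ _),
    Finset.card_univ, mul_comm]

end trans

section functional

variable {k K : Type*} [Field k] [Field K] [Algebra k K]

/-- there is a nonzero functional -/
lemma exists_functional (k K : Type*) [Field k] [Field K] [Algebra k K] :
    ∃ l : K →ₗ[k] k, l 1 = 1 :=
  Module.Projective.exists_dual_eq_one k (one_ne_zero (α := K))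

/-- the functional `v ↦ l (ψ ⬝ᵥ v)` -/
def fn (l : K →ₗ[k] k) : (Fin 3 → K) →ₗ[k] Dual k (Fin 3 → K) where
  toFun ψ :=
    { toFun := fun v => l (ψ ⬝ᵥ v)
      map_add' := fun v w => by rw [dotProduct_add, map_add]
      map_smul' := fun c v => by
        rw [dotProduct_smul, map_smul]; rfl }
  map_add' ψ φ := by
    apply LinearMap.ext
    intro v
    simp [add_dotProduct]
  map_smul' c ψ := by
    apply LinearMap.ext
    intro v
    simp [smul_dotProduct]

lemma fn_apply (l : K →ₗ[k] k) (ψ v : Fin 3 → K) : fn l ψ v = l (ψ ⬝ᵥ v) := rfl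

lemma fn_injective (l : K →ₗ[k] k) (hl : l 1 = 1) : Function.Injective (fn l) := by
  rw [injective_iff_map_eq_zero]
  intro ψ hψ
  ext i
  by_contra hi
  have h1 : fn l ψ (Pi.single i (ψ i)⁻¹) = 0 := by rw [hψ]; rfl
  rw [fn_apply, dotProduct_single, mul_inv_cancel₀ hi, hl] at h1
  exact one_ne_zero h1

/-- the action of `SL₃(K)` on `K³` as `k`-linear maps -/
def actL (k : Type*) {K : Type*} [Field k] [Field K] [Algebra k K] (g : SL3 K) :
    (Fin 3 → K) →ₗ[k] (Fin 3 → K) where
  toFun v := g • v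
  map_add' v w := smul_add _ _ _
  map_smul' c v := by
    change g.1 *ᵥ (c • v) = c • (g.1 *ᵥ v)
    exact Matrix.mulVec_smul _ _ _

lemma actL_apply (g : SL3 K) (v : Fin 3 → K) : actL k g v = g • v := rfl

lemma fn_act (l : K →ₗ[k] k) (ψ v : Fin 3 → K) (g : SL3 K) :
    fn l ψ (g • v) = fn l (ψ ᵥ* g.1) v := by
  rw [fn_apply, fn_apply]
  change l (ψ ⬝ᵥ g.1 *ᵥ v) = _
  rw [Matrix.dotProduct_mulVec]

variable [Fintype k] [Fintype K]

/-- number of row vectors killing a subspace -/
lemma card_ann (l : K →ₗ[k] k) (hl : l 1 = 1) (F : Submodule k (Fin 3 → K)) :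
    Nat.card {ψ : Fin 3 → K // ∀ v ∈ F, fn l ψ v = 0} * Fintype.card k ^ finrank k F =
      Fintype.card (Fin 3 → K) := by
  classical
  have hfin : FiniteDimensional k (Fin 3 → K) := inferInstance
  have hdim : finrank k (Fin 3 → K) = finrank k (Dual k (Fin 3 → K)) :=
    (Subspace.dual_finrank_eq).symm
  set e : (Fin 3 → K) ≃ₗ[k] Dual k (Fin 3 → K) :=
    LinearEquiv.ofInjectiveOfFinrankEq (fn l) (fn_injective l hl) hdim with he
  have hev : ∀ ψ, e ψ = fn l ψ := fun ψ => rfl
  have h1 : Nat.card {ψ : Fin 3 → K // ∀ v ∈ F, fn l ψ v = 0} =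
      Nat.card F.dualAnnihilator := by
    refine Nat.card_congr (e.toEquiv.subtypeEquiv fun ψ => ?_)
    change _ ↔ e ψ ∈ F.dualAnnihilator
    rw [Submodule.mem_dualAnnihilator, hev]
  rw [h1, Module.natCard_eq_pow_finrank (K := k), Nat.card_eq_fintype_card, ← pow_add,
    Module.card_eq_pow_finrank (K := k) (V := Fin 3 → K)]
  congr 1
  rw [add_comm]
  exact Subspace.finrank_add_finrank_dualAnnihilator_eq F

variable [DecidableEq K]

/-- few group elements move a given subspace into the kernel of a nonzero functional -/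
lemma card_kill (l : K →ₗ[k] k) (hl : l 1 = 1) (F : Submodule k (Fin 3 → K))
    (ψ : Fin 3 → K) (hψ : ψ ≠ 0) :
    Nat.card {g : SL3 K // ∀ v ∈ F, fn l ψ (g • v) = 0} * Fintype.card k ^ finrank k F ≤
      Fintype.card (SL3 K) := by
  classical
  set Z : Finset (Fin 3 → K) := univ.filter (fun φ => ∀ v ∈ F, fn l φ v = 0) with hZ
  have hZcard : Z.card * Fintype.card k ^ finrank k F = Fintype.card (Fin 3 → K) := by
    rw [← card_ann l hl F, Nat.card_eq_fintype_card, Fintype.card_subtype]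
  have h0 : (0 : Fin 3 → K) ∈ Z := by simp [hZ]
  set N := Nat.card {g : SL3 K // ∀ v ∈ F, fn l ψ (g • v) = 0} with hN
  have h1 : N = ∑ φ ∈ Z.erase 0, (univ.filter fun g : SL3 K => ψ ᵥ* g.1 = φ).card := by
    rw [hN, Nat.card_eq_fintype_card, Fintype.card_subtype]
    have : (univ.filter fun g : SL3 K => ∀ v ∈ F, fn l ψ (g • v) = 0) =
        univ.filter fun g : SL3 K => ψ ᵥ* g.1 ∈ Z.erase 0 := by
      ext g
      simp only [Finset.mem_filter, Finset.mem_univ, true_and, Finset.mem_erase, hZ, fn_act]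
      constructor
      · intro h
        exact ⟨vecMul_ne_zero ψ hψ g, h⟩
      · rintro ⟨-, h⟩
        exact h
    rw [this, Finset.card_eq_sum_card_fiberwise (f := fun g : SL3 K => ψ ᵥ* g.1)
      (t := Z.erase 0) (by
        intro g hg
        have := (Finset.mem_filter.mp (Finset.mem_coe.mp hg)).2
        exact Finset.mem_coe.mpr this)]
    refine Finset.sum_congr rfl fun φ hφ => ?_
    congr 1
    ext g
    simp only [Finset.mem_filter, Finset.mem_univ, true_and]
    constructor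
    · rintro ⟨-, h⟩; exact h
    · intro h; exact ⟨by rw [h]; exact hφ, h⟩
  have h2 : N * (Fintype.card (Fin 3 → K) - 1) = (Z.card - 1) * Fintype.card (SL3 K) := by
    rw [h1, Finset.sum_mul, Finset.sum_congr rfl fun φ hφ =>
      card_hit ψ φ hψ (Finset.ne_of_mem_erase hφ), Finset.sum_const, smul_eq_mul,
      Finset.card_erase_of_mem h0]
  set V := Fintype.card (Fin 3 → K) with hV
  set q := Fintype.card k ^ finrank k F with hq
  have hq1 : 1 ≤ q := Nat.one_le_pow _ _ Fintype.card_pos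
  have hV1 : 1 < V := by
    have : Nontrivial (Fin 3 → K) := inferInstance
    exact Fintype.one_lt_card
  have hZ1 : 1 ≤ Z.card := Finset.card_pos.mpr ⟨0, h0⟩
  refine Nat.le_of_mul_le_mul_right (c := V - 1) ?_ (by omega)
  calc N * q * (V - 1) = (N * (V - 1)) * q := by ring
    _ = (Z.card - 1) * Fintype.card (SL3 K) * q := by rw [h2]
    _ = ((Z.card - 1) * q) * Fintype.card (SL3 K) := by ring
    _ = (Z.card * q - q) * Fintype.card (SL3 K) := by rw [Nat.sub_mul, one_mul]
    _ ≤ (V - 1) * Fintype.card (SL3 K) := by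
        rw [hZcard]
        gcongr
    _ = Fintype.card (SL3 K) * (V - 1) := by ring

/-- **Filling.** For subspaces `F i` of `K³` and random `G i ∈ SL₃(K)`, the sum of the
`G i • F i` is all of `K³` with probability at least `1 - |K³| / ∏ |F i|`. -/
theorem fill {ι : Type*} [Fintype ι] [DecidableEq ι] (F : ι → Submodule k (Fin 3 → K)) :
    Nat.card {G : ι → SL3 K // (⨆ i, (F i).map (actL k (G i))) ≠ ⊤} *
      Fintype.card k ^ (∑ i, finrank k (F i)) ≤
      Fintype.card (Fin 3 → K) * Fintype.card (SL3 K) ^ Fintype.card ι := by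
  classical
  obtain ⟨l, hl⟩ := exists_functional k K
  have hdim : finrank k (Fin 3 → K) = finrank k (Dual k (Fin 3 → K)) :=
    (Subspace.dual_finrank_eq).symm
  set e : (Fin 3 → K) ≃ₗ[k] Dual k (Fin 3 → K) :=
    LinearEquiv.ofInjectiveOfFinrankEq (fn l) (fn_injective l hl) hdim with he
  have hev : ∀ ψ, e ψ = fn l ψ := fun ψ => rfl
  have h1 : (univ.filter fun G : ι → SL3 K => (⨆ i, (F i).map (actL k (G i))) ≠ ⊤) ⊆
      (univ.erase (0 : Fin 3 → K)).biUnion fun ψ =>
        Fintype.piFinset fun i => univ.filter fun g : SL3 K => ∀ v ∈ F i, fn l ψ (g • v) = 0 := by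
    intro G hG
    simp only [Finset.mem_filter, Finset.mem_univ, true_and] at hG
    obtain ⟨f, hf0, hf⟩ := Submodule.exists_dual_map_eq_bot_of_lt_top
      (lt_top_iff_ne_top.mpr hG) inferInstance
    obtain ⟨ψ, rfl⟩ := e.surjective f
    rw [hev] at hf hf0
    rw [Finset.mem_biUnion]
    refine ⟨ψ, Finset.mem_erase.mpr ⟨?_, Finset.mem_univ _⟩, ?_⟩
    · rintro rfl
      exact hf0 (map_zero _)
    · rw [Fintype.mem_piFinset]
      intro i
      simp only [Finset.mem_filter, Finset.mem_univ, true_and]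
      intro v hv
      have hmem : (G i) • v ∈ ⨆ i, (F i).map (actL k (G i)) :=
        (le_iSup (fun i => (F i).map (actL k (G i))) i) ⟨v, hv, rfl⟩
      have : fn l ψ ((G i) • v) ∈ Submodule.map (fn l ψ)
          (⨆ i, (F i).map (actL k (G i))) := ⟨_, hmem, rfl⟩
      rw [hf] at this
      exact (Submodule.mem_bot k).mp this
  have h2 : ∀ ψ ∈ (univ.erase (0 : Fin 3 → K)),
      (Fintype.piFinset fun i => univ.filter fun g : SL3 K =>
        ∀ v ∈ F i, fn l ψ (g • v) = 0).card * Fintype.card k ^ (∑ i, finrank k (F i)) ≤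
      Fintype.card (SL3 K) ^ Fintype.card ι := by
    intro ψ hψ
    rw [Fintype.card_piFinset, ← Finset.prod_pow_eq_pow_sum, ← Finset.prod_mul_distrib]
    calc _ ≤ ∏ _i : ι, Fintype.card (SL3 K) := by
          refine Finset.prod_le_prod' fun i _ => ?_
          have := card_kill l hl (F i) ψ (Finset.ne_of_mem_erase hψ)
          rwa [Nat.card_eq_fintype_card, Fintype.card_subtype] at this
      _ = _ := by rw [Finset.prod_const, Finset.card_univ]
  rw [Nat.card_eq_fintype_card, Fintype.card_subtype]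
  calc _ ≤ (∑ ψ ∈ (univ.erase (0 : Fin 3 → K)), (Fintype.piFinset fun i =>
        univ.filter fun g : SL3 K => ∀ v ∈ F i, fn l ψ (g • v) = 0).card) *
        Fintype.card k ^ (∑ i, finrank k (F i)) := by
          gcongr
          exact (Finset.card_le_card h1).trans Finset.card_biUnion_le
    _ = ∑ ψ ∈ (univ.erase (0 : Fin 3 → K)), (Fintype.piFinset fun i =>
        univ.filter fun g : SL3 K => ∀ v ∈ F i, fn l ψ (g • v) = 0).card *
        Fintype.card k ^ (∑ i, finrank k (F i)) := by rw [Finset.sum_mul]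
    _ ≤ ∑ _ψ ∈ (univ.erase (0 : Fin 3 → K)), Fintype.card (SL3 K) ^ Fintype.card ι :=
        Finset.sum_le_sum h2
    _ ≤ _ := by
        rw [Finset.sum_const, smul_eq_mul]
        gcongr
        exact Finset.card_le_univ _

end functional

end H98CO
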