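import Pool.Agent.Lib_helper64.Cut.State
import Pool.Agent.Lib_helper98.CO.Fill

/-!
# Filling of `K³` along random words
-/

set_option autoImplicit false
set_option linter.unusedSectionVars false

namespace H98CO

open Finset Matrix Matrix.SpecialLinearGroup Pool.Agent.Lib_helper64.Cut Module

section

variable {k K : Type*} [Field k] [Field K] [Algebra k K]

/-- the functional of `ψ` kills `F` -/
def Kl (l : K →ₗ[k] k) (ψ : Fin 3 → K) (F : Submodule k (Fin 3 → K)) : Prop :=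
  ∀ v ∈ F, fn l ψ v = 0

lemma Kl_bot (l : K →ₗ[k] k) (ψ : Fin 3 → K) : Kl l ψ ⊥ := by
  intro v hv
  rw [(Submodule.mem_bot k).mp hv, map_zero]

lemma Kl_sup (l : K →ₗ[k] k) (ψ : Fin 3 → K) (F F' : Submodule k (Fin 3 → K)) :
    Kl l ψ (F ⊔ F') ↔ Kl l ψ F ∧ Kl l ψ F' := by
  constructor
  · intro h
    exact ⟨fun v hv => h v (Submodule.mem_sup_left hv), fun v hv => h v (Submodule.mem_sup_right hv)⟩
  · rintro ⟨h1, h2⟩ v hv
    obtain ⟨a, ha, b, hb, rfl⟩ := Submodule.mem_sup.mp hv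
    rw [map_add, h1 a ha, h2 b hb, add_zero]

lemma Kl_smulS (l : K →ₗ[k] k) (ψ : Fin 3 → K) (a : SL3 K) (F : Submodule k (Fin 3 → K)) :
    Kl l ψ (smulS a F) ↔ Kl l (ψ ᵥ* a.1) F := by
  constructor
  · intro h v hv
    rw [← fn_act]
    exact h _ (mem_smulS.mpr (by rw [inv_smul_smul]; exact hv))
  · intro h v hv
    have := h _ (mem_smulS.mp hv)
    rw [← fn_act, smul_inv_smul] at this
    exact this

variable [Fintype k] [Fintype K]

lemma exists_Kl (l : K →ₗ[k] k) (hl : l 1 = 1) (F : Submodule k (Fin 3 → K)) (hF : F ≠ ⊤) :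
    ∃ ψ : Fin 3 → K, ψ ≠ 0 ∧ Kl l ψ F := by
  classical
  have hdim : finrank k (Fin 3 → K) = finrank k (Dual k (Fin 3 → K)) :=
    (Subspace.dual_finrank_eq).symm
  set e : (Fin 3 → K) ≃ₗ[k] Dual k (Fin 3 → K) :=
    LinearEquiv.ofInjectiveOfFinrankEq (fn l) (fn_injective l hl) hdim with he
  have hev : ∀ ψ, e ψ = fn l ψ := fun ψ => rfl
  obtain ⟨f, hf0, hf⟩ := Submodule.exists_dual_map_eq_bot_of_lt_top
    (lt_top_iff_ne_top.mpr hF) inferInstance
  obtain ⟨ψ, rfl⟩ := e.surjective f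
  rw [hev] at hf hf0
  refine ⟨ψ, ?_, ?_⟩
  · rintro rfl
    exact hf0 (map_zero _)
  · intro v hv
    have : fn l ψ v ∈ Submodule.map (fn l ψ) F := ⟨v, hv, rfl⟩
    rw [hf] at this
    exact (Submodule.mem_bot k).mp this

variable [DecidableEq K]

/-- averages over the group of a function of `ψ g` -/
lemma avg_hit (f : (Fin 3 → K) → ℝ) (ψ : Fin 3 → K) (hψ : ψ ≠ 0) (a : SL3 K) :
    ∑ g : SL3 K, (Fintype.card (SL3 K) : ℝ)⁻¹ * f (ψ ᵥ* (a * g).1) =
      ((Fintype.card (Fin 3 → K) : ℝ) - 1)⁻¹ * ∑ φ ∈ univ.erase (0 : Fin 3 → K), f φ := by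
  classical
  have hP : (0 : ℝ) < Fintype.card (SL3 K) := by exact_mod_cast Fintype.card_pos
  have hV1 : 1 < Fintype.card (Fin 3 → K) := Fintype.one_lt_card
  have hV : (0 : ℝ) < (Fintype.card (Fin 3 → K) : ℝ) - 1 := by
    have : (1 : ℝ) < Fintype.card (Fin 3 → K) := by exact_mod_cast hV1
    linarith
  have h1 : ∑ g : SL3 K, f (ψ ᵥ* (a * g).1) = ∑ g : SL3 K, f (ψ ᵥ* g.1) :=
    Fintype.sum_equiv (Equiv.mulLeft a) _ _ fun _ => rfl
  have h2 : ∑ g : SL3 K, f (ψ ᵥ* g.1) = ∑ φ ∈ univ.erase (0 : Fin 3 → K),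
      ((univ.filter fun g : SL3 K => ψ ᵥ* g.1 = φ).card : ℝ) * f φ := by
    rw [← Finset.sum_fiberwise_of_maps_to (t := univ.erase (0 : Fin 3 → K))
      (g := fun g : SL3 K => ψ ᵥ* g.1)
      (fun g _ => Finset.mem_erase.mpr ⟨vecMul_ne_zero ψ hψ g, Finset.mem_univ _⟩)]
    refine Finset.sum_congr rfl fun φ _ => ?_
    rw [Finset.sum_congr rfl (g := fun _ => f φ) (fun g hg => by
      rw [(Finset.mem_filter.mp hg).2]), Finset.sum_const, nsmul_eq_mul]
  rw [← Finset.mul_sum, h1, h2, Finset.mul_sum, Finset.mul_sum]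
  refine Finset.sum_congr rfl fun φ hφ => ?_
  have h3 := card_hit ψ φ hψ (Finset.ne_of_mem_erase hφ)
  have h4 : ((univ.filter fun g : SL3 K => ψ ᵥ* g.1 = φ).card : ℝ) *
      ((Fintype.card (Fin 3 → K) : ℝ) - 1) = Fintype.card (SL3 K) := by
    rw [← h3]
    push_cast [Nat.cast_sub hV1.le]
    ring
  rw [← mul_assoc]
  congr 1
  rw [inv_mul_eq_div, inv_eq_one_div, div_eq_div_iff hP.ne' hV.ne', h4, one_mul]

open Classical in
/-- average number of nonzero functionals killing `F` -/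
lemma avg_kill (l : K →ₗ[k] k) (hl : l 1 = 1) (F : Submodule k (Fin 3 → K)) :
    ((Fintype.card (Fin 3 → K) : ℝ) - 1)⁻¹ *
      ∑ φ ∈ univ.erase (0 : Fin 3 → K), (if Kl l φ F then (1 : ℝ) else 0) ≤
      (Nat.card F : ℝ)⁻¹ := by
  have hV1 : 1 < Fintype.card (Fin 3 → K) := Fintype.one_lt_card
  have hV : (0 : ℝ) < (Fintype.card (Fin 3 → K) : ℝ) - 1 := by
    have : (1 : ℝ) < Fintype.card (Fin 3 → K) := by exact_mod_cast hV1
    linarith
  set N := (univ.filter fun φ : Fin 3 → K => Kl l φ F).card with hN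
  have h1 : N * Nat.card F = Fintype.card (Fin 3 → K) := by
    have hF' : Nat.card F = Fintype.card k ^ finrank k F := by
      rw [Module.natCard_eq_pow_finrank (K := k), Nat.card_eq_fintype_card]
    rw [hF', ← card_ann l hl F]
    congr 1
    rw [Nat.card_eq_fintype_card, Fintype.card_subtype, hN]
    refine congrArg Finset.card (Finset.ext fun φ => ?_)
    rw [Finset.mem_filter, Finset.mem_filter]
    exact Iff.rfl
  have h2 : ∑ φ ∈ univ.erase (0 : Fin 3 → K), (if Kl l φ F then (1 : ℝ) else 0) = N - 1 := by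
    have h3 : ∑ φ : Fin 3 → K, (if Kl l φ F then (1 : ℝ) else 0) = N := by
      rw [Finset.sum_boole]
    rw [← Finset.add_sum_erase _ _ (Finset.mem_univ (0 : Fin 3 → K))] at h3
    have h4 : Kl l (0 : Fin 3 → K) F := by
      intro v _
      rw [map_zero]
      rfl
    rw [if_pos h4] at h3
    linarith
  have hF : 0 < Nat.card F := Nat.card_pos
  have hFR : (1 : ℝ) ≤ Nat.card F := by exact_mod_cast hF
  rw [h2, inv_mul_le_iff₀ hV, ← div_eq_mul_inv, le_div_iff₀ (by linarith)]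
  have h5 : (N : ℝ) * Nat.card F = Fintype.card (Fin 3 → K) := by exact_mod_cast h1
  nlinarith

variable {ι : Type*} [Fintype ι]

open Classical in
/-- probability that `ψ` kills the filled subspace -/
noncomputable def zL (l : K →ₗ[k] k) (V0 : Submodule k (Fin 3 → K)) (c : ι → ℝ) (b : ι → SL3 K)
    (ψ : Fin 3 → K) (L : List ℕ) : ℝ :=
  AV (SL3 K) L.length (fun gs => EW c L (fun ws =>
    if Kl l ψ (FF V0 b ws gs) then (1 : ℝ) else 0))

open Classical in
lemma zL_cons (l : K →ₗ[k] k) (V0 : Submodule k (Fin 3 → K)) (c : ι → ℝ) (b : ι → SL3 K)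
    (ψ : Fin 3 → K) (hψ : ψ ≠ 0) (n : ℕ) (L : List ℕ) :
    zL l V0 c b ψ (n :: L) = Ew c n (fun w => (if Kl l ψ (Fw V0 b w) then (1 : ℝ) else 0)) *
      (((Fintype.card (Fin 3 → K) : ℝ) - 1)⁻¹ *
        ∑ φ ∈ univ.erase (0 : Fin 3 → K), zL l V0 c b φ L) := by
  rw [← Ew_mul_right]
  have h1 : ∀ w : List ι, ((Fintype.card (Fin 3 → K) : ℝ) - 1)⁻¹ *
        ∑ φ ∈ univ.erase (0 : Fin 3 → K), zL l V0 c b φ L =
      ∑ g : SL3 K, (Fintype.card (SL3 K) : ℝ)⁻¹ * zL l V0 c b (ψ ᵥ* (Xw b w * g).1) L :=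
    fun w => (avg_hit (fun φ => zL l V0 c b φ L) ψ hψ (Xw b w)).symm
  have h2 : (fun w => (if Kl l ψ (Fw V0 b w) then (1 : ℝ) else 0) *
      (((Fintype.card (Fin 3 → K) : ℝ) - 1)⁻¹ *
        ∑ φ ∈ univ.erase (0 : Fin 3 → K), zL l V0 c b φ L)) =
      fun w => ∑ g : SL3 K, (Fintype.card (SL3 K) : ℝ)⁻¹ *
        ((if Kl l ψ (Fw V0 b w) then (1 : ℝ) else 0) * zL l V0 c b (ψ ᵥ* (Xw b w * g).1) L) := by
    funext w
    rw [h1 w, Finset.mul_sum]
    exact Finset.sum_congr rfl fun g _ => by ring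
  rw [h2, Ew_finset_sum]
  rw [zL, List.length_cons, AV, Ew_succ]
  refine Finset.sum_congr rfl fun g _ => ?_
  rw [Ew_mul_left]
  congr 1
  simp only [EW_cons]
  rw [← Ew_comm]
  congr 1
  funext w
  rw [zL, AV, ← Ew_mul_left]
  congr 1
  funext gs
  rw [← EW_mul_left]
  congr 1
  funext ws
  have h3 : Kl l ψ (FF V0 b (w :: ws) (g :: gs)) ↔
      Kl l ψ (Fw V0 b w) ∧ Kl l (ψ ᵥ* (Xw b w * g).1) (FF V0 b ws gs) := by
    rw [FF, Kl_sup, Kl_smulS]
  by_cases h4 : Kl l ψ (Fw V0 b w)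
  · by_cases h5 : Kl l (ψ ᵥ* (Xw b w * g).1) (FF V0 b ws gs)
    · rw [if_pos h4, if_pos h5, if_pos (h3.mpr ⟨h4, h5⟩)]; ring
    · rw [if_pos h4, if_neg h5, if_neg (fun h => h5 (h3.mp h).2)]; ring
  · rw [if_neg h4, if_neg (fun h => h4 (h3.mp h).1)]; ring

lemma avg_zL_le (l : K →ₗ[k] k) (hl : l 1 = 1) (V0 : Submodule k (Fin 3 → K)) (c : ι → ℝ)
    (hc : ∀ i, 0 ≤ c i) (b : ι → SL3 K) (L : List ℕ) :
    ((Fintype.card (Fin 3 → K) : ℝ) - 1)⁻¹ *
      ∑ φ ∈ univ.erase (0 : Fin 3 → K), zL l V0 c b φ L ≤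
      (L.map fun n => Ew c n (fun w => (Nat.card (Fw V0 b w) : ℝ)⁻¹)).prod := by
  classical
  have hV1 : 1 < Fintype.card (Fin 3 → K) := Fintype.one_lt_card
  have hV : (0 : ℝ) < (Fintype.card (Fin 3 → K) : ℝ) - 1 := by
    have : (1 : ℝ) < Fintype.card (Fin 3 → K) := by exact_mod_cast hV1
    linarith
  induction L with
  | nil =>
    have h1 : ∀ φ ∈ univ.erase (0 : Fin 3 → K), zL l V0 c b φ [] = 1 := by
      intro φ _
      rw [zL, AV, List.length_nil, Ew_zero, EW_nil, FF, if_pos (Kl_bot l φ)]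
      intro _ _ _ _ h _
      cases h
    rw [Finset.sum_congr rfl h1, Finset.sum_const, Finset.card_erase_of_mem (Finset.mem_univ _),
      Finset.card_univ, nsmul_eq_mul, mul_one, Nat.cast_sub hV1.le, Nat.cast_one,
      inv_mul_cancel₀ hV.ne']
    simp
  | cons n L ih =>
    rw [List.map_cons, List.prod_cons]
    rw [Finset.sum_congr rfl fun φ hφ => zL_cons l V0 c b φ (Finset.ne_of_mem_erase hφ) n L,
      ← Finset.sum_mul, ← mul_assoc]
    have h0 : 0 ≤ ((Fintype.card (Fin 3 → K) : ℝ) - 1)⁻¹ *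
        ∑ φ ∈ univ.erase (0 : Fin 3 → K), zL l V0 c b φ L := by
      refine mul_nonneg (inv_nonneg.mpr hV.le) (Finset.sum_nonneg fun φ _ => ?_)
      rw [zL, AV]
      refine Ew_nonneg (fun _ => by positivity) fun gs _ => ?_
      have := EW_mono hc (L := L) (f := fun _ => (0 : ℝ))
        (g := fun ws => if Kl l φ (FF V0 b ws gs) then (1 : ℝ) else 0)
        (fun ws => by split_ifs <;> norm_num)
      have h0 : EW c L (fun _ => (0 : ℝ)) = 0 := by
        have := EW_mul_left (c := c) L 0 (fun _ => (0 : ℝ))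
        simpa using this
      rwa [h0] at this
    refine mul_le_mul ?_ ih h0 ?_
    · rw [← Ew_finset_sum, ← Ew_mul_left]
      exact Ew_mono hc fun w _ => avg_kill l hl _
    · exact Ew_nonneg hc fun w _ => by positivity

open Classical in
/-- **V-filling.** -/
theorem filling (V0 : Submodule k (Fin 3 → K)) (c : ι → ℝ) (hc : ∀ i, 0 ≤ c i)
    (_hc1 : ∑ i, c i = 1) (b : ι → SL3 K) (L : List ℕ) :
    AV (SL3 K) L.length (fun gs => EW c L (fun ws =>
      if FF V0 b ws gs = ⊤ then (0 : ℝ) else 1)) ≤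
      (Fintype.card K : ℝ) ^ 3 *
        (L.map fun n => Ew c n (fun w => (Nat.card (Fw V0 b w) : ℝ)⁻¹)).prod := by
  obtain ⟨l, hl⟩ := exists_functional k K
  have hV1 : 1 < Fintype.card (Fin 3 → K) := Fintype.one_lt_card
  have hV : (0 : ℝ) < (Fintype.card (Fin 3 → K) : ℝ) - 1 := by
    have : (1 : ℝ) < Fintype.card (Fin 3 → K) := by exact_mod_cast hV1
    linarith
  have hprod : 0 ≤ (L.map fun n => Ew c n (fun w => (Nat.card (Fw V0 b w) : ℝ)⁻¹)).prod := by
    refine List.prod_nonneg fun y hy => ?_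
    obtain ⟨n, -, rfl⟩ := List.mem_map.mp hy
    exact Ew_nonneg hc fun w _ => by positivity
  calc AV (SL3 K) L.length (fun gs => EW c L (fun ws =>
        if FF V0 b ws gs = ⊤ then (0 : ℝ) else 1))
      ≤ AV (SL3 K) L.length (fun gs => EW c L (fun ws =>
        ∑ φ ∈ univ.erase (0 : Fin 3 → K), if Kl l φ (FF V0 b ws gs) then (1 : ℝ) else 0)) := by
        refine Ew_mono (fun _ => by positivity) fun gs _ => EW_mono hc fun ws => ?_
        have hnn : ∀ φ ∈ univ.erase (0 : Fin 3 → K),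
            (0 : ℝ) ≤ (if Kl l φ (FF V0 b ws gs) then (1 : ℝ) else 0) :=
          fun φ _ => by split_ifs <;> norm_num
        by_cases h : FF V0 b ws gs = ⊤
        · rw [if_pos h]
          exact Finset.sum_nonneg hnn
        · rw [if_neg h]
          obtain ⟨ψ, hψ, hk⟩ := exists_Kl l hl _ h
          refine le_trans (le_of_eq ?_) (Finset.single_le_sum hnn
            (Finset.mem_erase.mpr ⟨hψ, Finset.mem_univ ψ⟩))
          rw [if_pos hk]
    _ = ∑ φ ∈ univ.erase (0 : Fin 3 → K), zL l V0 c b φ L := by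
        simp only [EW_finset_sum, AV, Ew_finset_sum]
        rfl
    _ = ((Fintype.card (Fin 3 → K) : ℝ) - 1) * (((Fintype.card (Fin 3 → K) : ℝ) - 1)⁻¹ *
        ∑ φ ∈ univ.erase (0 : Fin 3 → K), zL l V0 c b φ L) := by
        rw [← mul_assoc, mul_inv_cancel₀ hV.ne', one_mul]
    _ ≤ ((Fintype.card (Fin 3 → K) : ℝ) - 1) *
        (L.map fun n => Ew c n (fun w => (Nat.card (Fw V0 b w) : ℝ)⁻¹)).prod :=
        mul_le_mul_of_nonneg_left (avg_zL_le l hl V0 c hc b L) hV.le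
    _ ≤ _ := by
        refine mul_le_mul_of_nonneg_right ?_ hprod
        rw [Fintype.card_fun, Fintype.card_fin]
        push_cast
        linarith

end

end H98CO
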