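import Mathlib

/-!
# The left regular representation of a finite group
-/

namespace H98CO

open Finset

/-- The left regular representation. -/
noncomputable def regRep (G : Type*) [Group G] [Fintype G] :
    G →* (EuclideanSpace ℂ G ≃ₗᵢ[ℂ] EuclideanSpace ℂ G) where
  toFun g := LinearIsometryEquiv.piLpCongrLeft 2 ℂ ℂ (Equiv.mulLeft g)
  map_one' := by
    ext f x
    simp
    rfl
  map_mul' g h := by
    ext f x
    simp
    rfl

variable {G : Type*} [Group G] [Fintype G]

lemma regRep_apply (g : G) (f : EuclideanSpace ℂ G) (x : G) : regRep G g f x = f (g⁻¹ * x) := by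
  simp [regRep]

end H98CO
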