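import Pool.Agent.Lib_helper98.CO.ClassOp
import Pool.Agent.Lib_helper98.CO.RegRep

/-!
# Contraction of class averaging on mean zero functions
-/

namespace H98CO

open Finset ComplexConjugate Matrix Matrix.SpecialLinearGroup Pool.Agent.Lib_helper64.Cut
open scoped InnerProductSpace

lemma rho_sq_le (K : Type*) [Fintype K] [Nonempty K] :
    (rho K) ^ 2 ≤ 140 / √(Fintype.card K) := by
  have hQ : (1 : ℝ) ≤ Fintype.card K := by
    exact_mod_cast Fintype.card_pos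
  set Q : ℝ := (Fintype.card K : ℝ) with hQdef
  have hsq : 1 ≤ √Q := by
    rw [Real.one_le_sqrt]
    exact hQ
  have hs2 : √Q * √Q = Q := Real.mul_self_sqrt (by linarith)
  have h2 : √2 ≤ 2 := by
    rw [Real.sqrt_le_left (by norm_num)]
    norm_num
  have h1 : (1 + √(2 * Q)) / Q ≤ 3 / √Q := by
    rw [Real.sqrt_mul (by norm_num), div_le_div_iff₀ (by linarith) (by linarith)]
    nlinarith [Real.sqrt_nonneg 2]
  have h3 : (8 / Q) ^ 2 ≤ 64 / √Q := by
    rw [div_pow, div_le_div_iff₀ (by positivity) (by linarith)]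
    nlinarith
  have h4 : (rho K) ^ 2 ≤ 2 * ((1 + √(2 * Q)) / Q) + 2 * (8 / Q) ^ 2 := by
    unfold rho
    rw [← hQdef]
    have := Real.sq_sqrt (show 0 ≤ (1 + √(2 * Q)) / Q by positivity)
    nlinarith [sq_nonneg (√((1 + √(2 * Q)) / Q) - 8 / Q)]
  calc (rho K) ^ 2 ≤ _ := h4
    _ ≤ 2 * (3 / √Q) + 2 * (64 / √Q) := by gcongr
    _ = 134 / √Q := by ring
    _ ≤ _ := by gcongr; norm_num

theorem class_contraction : ∃ C : ℝ, 0 < C ∧ ∀ (K : Type) [Field K] [Fintype K] [DecidableEq K]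
    (D : SL3 K), D ∉ Subgroup.center (SL3 K) → ∀ f : SL3 K → ℝ, ∑ x, f x = 0 →
    ∑ x, ((∑ u, f (u * D * u⁻¹ * x)) / Fintype.card (SL3 K)) ^ 2 ≤
      C / √(Fintype.card K) * ∑ x, f x ^ 2 := by
  refine ⟨400 * 140, by norm_num, ?_⟩
  intro K _ _ _ D hD f hf
  have hDinv : D⁻¹ ∉ Subgroup.center (SL3 K) := fun h => hD (by simpa using inv_mem h)
  set F : EuclideanSpace ℂ (SL3 K) := WithLp.toLp 2 (fun x => (f x : ℂ)) with hF
  have hFx : ∀ x, F x = (f x : ℂ) := fun x => rfl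
  have hsum : ∑ g : SL3 K, regRep (SL3 K) g F = 0 := by
    ext x
    rw [WithLp.ofLp_sum, Finset.sum_apply]
    simp only [regRep_apply, hFx]
    have : ∑ g : SL3 K, ((f (g⁻¹ * x) : ℝ) : ℂ) = ((∑ g : SL3 K, f g : ℝ) : ℂ) := by
      push_cast
      exact Fintype.sum_equiv ((Equiv.inv _).trans (Equiv.mulRight x)) _ _ (fun g => rfl)
    rw [this, hf]
    simp
  have hT := T_norm_le (regRep (SL3 K)) D⁻¹ hDinv F hsum
  have hTx : ∀ x, (T (regRep (SL3 K)) D⁻¹ F) x =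
      (((∑ u, f (u * D * u⁻¹ * x)) / Fintype.card (SL3 K) : ℝ) : ℂ) := by
    intro x
    rw [T_apply, PiLp.smul_apply, WithLp.ofLp_sum, Finset.sum_apply]
    simp only [regRep_apply, hFx, smul_eq_mul]
    push_cast
    rw [div_eq_inv_mul]
    congr 1
    refine Finset.sum_congr rfl fun u _ => ?_
    congr 3
    group
  have h1 : ∑ x, ((∑ u, f (u * D * u⁻¹ * x)) / Fintype.card (SL3 K)) ^ 2 =
      ‖T (regRep (SL3 K)) D⁻¹ F‖ ^ 2 := by
    rw [EuclideanSpace.norm_sq_eq]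
    refine Finset.sum_congr rfl fun x _ => ?_
    rw [hTx, Complex.norm_real, Real.norm_eq_abs, sq_abs]
  have h2 : ∑ x, f x ^ 2 = ‖F‖ ^ 2 := by
    rw [EuclideanSpace.norm_sq_eq]
    refine Finset.sum_congr rfl fun x _ => ?_
    rw [hFx, Complex.norm_real, Real.norm_eq_abs, sq_abs]
  rw [h1, h2]
  calc ‖T (regRep (SL3 K)) D⁻¹ F‖ ^ 2 ≤ (20 * rho K * ‖F‖) ^ 2 := by gcongr
    _ = 400 * rho K ^ 2 * ‖F‖ ^ 2 := by ring
    _ ≤ 400 * (140 / √(Fintype.card K)) * ‖F‖ ^ 2 := by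
        gcongr
        exact rho_sq_le K
    _ = _ := by ring

end H98CO
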