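import Pool.Agent.Lib_helper98.CO.BoundedGen

/-!
# Class averaging operators of noncentral elements contract
-/

namespace H98CO

open Finset ComplexConjugate Matrix Matrix.SpecialLinearGroup Pool.Agent.Lib_helper64.Cut
open scoped InnerProductSpace

section

variable {K : Type*} [Field K] [Fintype K]
variable {H : Type*} [NormedAddCommGroup H] [InnerProductSpace ℂ H]
variable (π : SL3 K →* (H ≃ₗᵢ[ℂ] H))

/-- Matrix coefficients of big-cell elements between eigenvectors of the root group. -/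
lemma coeff_le (ψ ψ' : AddChar K ℂ) (hψ : ψ' ≠ 1) (v v' : H)
    (hv : ∀ t, π (E13 t) v = ψ t • v) (hv' : ∀ t, π (E13 t) v' = ψ' t • v')
    (c : SL3 K) (h1 : c 2 0 ≠ 0) (h2 : c⁻¹ 2 0 ≠ 0) :
    ‖inner ℂ (π c v) v'‖ ^ 2 ≤
      (1 + √(2 * Fintype.card K)) / Fintype.card K * (‖v'‖ ^ 2 * ‖v‖ ^ 2) := by
  obtain ⟨m, a, b, ha, hb, hma, hmb⟩ := exists_conj c h1 h2
  have e1 : ∀ s, π (E13 s) (π m⁻¹ v') = (ψ'.mulShift a⁻¹) s • (π m⁻¹ v') := by
    intro s
    have h3 := hma (a⁻¹ * s)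
    rw [mul_inv_cancel_left₀ ha] at h3
    have h4 : E13 s * m⁻¹ = m⁻¹ * E13 (a⁻¹ * s) := by
      rw [mul_inv_eq_iff_eq_mul, mul_assoc, ← h3]
      group
    rw [← pi_mul_apply, h4, pi_mul_apply, hv', map_smul, AddChar.mulShift_apply]
  have e2 : ∀ s, π (E31 s) (π m⁻¹ (π c v)) = (ψ.mulShift b⁻¹) s • (π m⁻¹ (π c v)) := by
    intro s
    have h3 := hmb (b⁻¹ * s)
    rw [mul_inv_cancel_left₀ hb] at h3
    have h4 : E31 s * (m⁻¹ * c) = m⁻¹ * (c * E13 (b⁻¹ * s)) := by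
      have h5 : E31 s = m⁻¹ * (c * E13 (b⁻¹ * s) * c⁻¹ * m) := by
        rw [← h3]
        group
      rw [h5]
      group
    rw [← pi_mul_apply π m⁻¹ c, ← pi_mul_apply, h4, pi_mul_apply, pi_mul_apply, hv, map_smul,
      map_smul, AddChar.mulShift_apply, pi_mul_apply]
  have hne : ψ'.mulShift a⁻¹ ≠ 1 := by
    intro hcon
    apply hψ
    ext t
    have := DFunLike.congr_fun hcon (a * t)
    rw [AddChar.mulShift_apply, inv_mul_cancel_left₀ ha] at this
    rw [this]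
    simp
  have := opposite_root π (ψ'.mulShift a⁻¹) (ψ.mulShift b⁻¹) hne (π m⁻¹ v') (π m⁻¹ (π c v)) e1 e2
  rw [inner_pi_pi, norm_pi, norm_pi, norm_pi] at this
  exact this

/-- The class averaging operator. -/
noncomputable def T [DecidableEq K] (D : SL3 K) : H →ₗ[ℂ] H :=
  (Fintype.card (SL3 K) : ℂ)⁻¹ • ∑ h : SL3 K, ((π (h * D * h⁻¹)).toLinearEquiv : H →ₗ[ℂ] H)

variable [DecidableEq K]

lemma T_apply (D : SL3 K) (v : H) :
    T π D v = (Fintype.card (SL3 K) : ℂ)⁻¹ • ∑ h : SL3 K, π (h * D * h⁻¹) v := by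
  simp [T]

lemma T_comm (D : SL3 K) (g : SL3 K) (v : H) : T π D (π g v) = π g (T π D v) := by
  rw [T_apply, T_apply, map_smul, map_sum]
  congr 1
  refine Fintype.sum_equiv (Equiv.mulLeft g⁻¹) _ _ fun h => ?_
  rw [Equiv.coe_mulLeft, ← pi_mul_apply, ← pi_mul_apply]
  congr 2
  group

/-- The contraction constant. -/
noncomputable def rho (K : Type*) [Fintype K] : ℝ :=
  √((1 + √(2 * Fintype.card K)) / Fintype.card K) + 8 / Fintype.card K

omit [DecidableEq K] in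
lemma rho_nonneg : 0 ≤ rho K := by unfold rho; positivity

lemma T_eig_le (D : SL3 K) (hD : D ∉ Subgroup.center (SL3 K)) (ψ : AddChar K ℂ) (hψ : ψ ≠ 1)
    (v : H) (hv : ∀ t, π (E13 t) v = ψ t • v) : ‖T π D v‖ ≤ rho K * ‖v‖ := by
  set w := T π D v with hw
  have hw' : ∀ t, π (E13 t) w = ψ t • w := by
    intro t
    rw [hw, ← T_comm, hv, map_smul]
  have hP : (0 : ℝ) < Fintype.card (SL3 K) := by exact_mod_cast Fintype.card_pos
  have hQ : (0 : ℝ) < Fintype.card K := by exact_mod_cast Fintype.card_pos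
  have h1 : ‖w‖ ^ 2 ≤ (Fintype.card (SL3 K) : ℝ)⁻¹ *
      ∑ h : SL3 K, ‖inner ℂ (π (h * D * h⁻¹) v) w‖ := by
    have e1 : (‖w‖ ^ 2 : ℝ) = ‖inner ℂ w w‖ := by
      rw [inner_self_eq_norm_sq_to_K]
      simp
    have e2 : w = (Fintype.card (SL3 K) : ℂ)⁻¹ • ∑ h : SL3 K, π (h * D * h⁻¹) v := by
      rw [hw, T_apply]
    have e3 : inner ℂ w w =
        inner ℂ ((Fintype.card (SL3 K) : ℂ)⁻¹ • ∑ h : SL3 K, π (h * D * h⁻¹) v) w := by
      rw [← e2]
    rw [e1, e3, inner_smul_left, norm_mul, sum_inner]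
    simp only [map_inv₀, Complex.conj_natCast, norm_inv, Complex.norm_natCast]
    gcongr
    exact norm_sum_le _ _
  set bad : SL3 K → Prop := fun h => (h * D * h⁻¹) 2 0 = 0 ∨ (h * D * h⁻¹)⁻¹ 2 0 = 0 with hbad
  set R := √((1 + √(2 * Fintype.card K)) / Fintype.card K) with hR
  have h2 : ∀ h : SL3 K, ‖inner ℂ (π (h * D * h⁻¹) v) w‖ ≤
      R * (‖v‖ * ‖w‖) + (if (h * D * h⁻¹) 2 0 = 0 then 1 else 0) * (‖v‖ * ‖w‖) +
        (if (h * D⁻¹ * h⁻¹) 2 0 = 0 then 1 else 0) * (‖v‖ * ‖w‖) := by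
    intro h
    have hn : ‖inner ℂ (π (h * D * h⁻¹) v) w‖ ≤ ‖v‖ * ‖w‖ := by
      refine (norm_inner_le_norm _ _).trans ?_
      rw [norm_pi]
    have hvw : 0 ≤ ‖v‖ * ‖w‖ := by positivity
    have hRn : 0 ≤ R := Real.sqrt_nonneg _
    have hinv : (h * D * h⁻¹)⁻¹ = h * D⁻¹ * h⁻¹ := by group
    by_cases c1 : (h * D * h⁻¹) 2 0 = 0
    · rw [if_pos c1]
      have : 0 ≤ (if (h * D⁻¹ * h⁻¹) 2 0 = 0 then (1 : ℝ) else 0) := by split_ifs <;> norm_num
      nlinarith [mul_nonneg hRn hvw, mul_nonneg this hvw]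
    · by_cases c2 : (h * D⁻¹ * h⁻¹) 2 0 = 0
      · rw [if_pos c2, if_neg c1]
        nlinarith [mul_nonneg hRn hvw]
      · rw [if_neg c1, if_neg c2, zero_mul, add_zero, add_zero]
        have h3 := coeff_le π ψ ψ hψ v w hv hw' (h * D * h⁻¹) c1 (by rw [hinv]; exact c2)
        have h4 : ‖inner ℂ (π (h * D * h⁻¹) v) w‖ ^ 2 ≤ (R * (‖v‖ * ‖w‖)) ^ 2 := by
          rw [mul_pow, hR, Real.sq_sqrt (by positivity)]
          calc _ ≤ _ := h3
            _ = _ := by ring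
        exact (pow_le_pow_iff_left₀ (by positivity) (by positivity) two_ne_zero).mp h4
  have hDinv : D⁻¹ ∉ Subgroup.center (SL3 K) := fun h => hD (by simpa using inv_mem h)
  have b1 := card_bad_conj_le D hD
  have b2 := card_bad_conj_le D⁻¹ hDinv
  have h5 : ∑ h : SL3 K, ‖inner ℂ (π (h * D * h⁻¹) v) w‖ ≤
      Fintype.card (SL3 K) * (rho K * (‖v‖ * ‖w‖)) := by
    refine (Finset.sum_le_sum fun h _ => h2 h).trans ?_
    rw [Finset.sum_add_distrib, Finset.sum_add_distrib, ← Finset.sum_mul, ← Finset.sum_mul,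
      ← Finset.sum_mul, Finset.sum_boole, Finset.sum_boole, Finset.sum_const, Finset.card_univ,
      nsmul_eq_mul]
    have b1' : ((univ.filter fun h : SL3 K => (h * D * h⁻¹) 2 0 = 0).card : ℝ) ≤
        4 / Fintype.card K * Fintype.card (SL3 K) := by
      rw [div_mul_eq_mul_div, le_div_iff₀ hQ]
      exact_mod_cast b1
    have b2' : ((univ.filter fun h : SL3 K => (h * D⁻¹ * h⁻¹) 2 0 = 0).card : ℝ) ≤
        4 / Fintype.card K * Fintype.card (SL3 K) := by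
      rw [div_mul_eq_mul_div, le_div_iff₀ hQ]
      exact_mod_cast b2
    have hvw : 0 ≤ ‖v‖ * ‖w‖ := by positivity
    unfold rho
    rw [← hR]
    calc _ ≤ Fintype.card (SL3 K) * (R * (‖v‖ * ‖w‖)) +
          4 / Fintype.card K * Fintype.card (SL3 K) * (‖v‖ * ‖w‖) +
          4 / Fintype.card K * Fintype.card (SL3 K) * (‖v‖ * ‖w‖) := by
            rw [mul_assoc]
            gcongr
      _ = _ := by ring
  have h6 : ‖w‖ ^ 2 ≤ rho K * (‖v‖ * ‖w‖) := by
    refine h1.trans ?_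
    rw [inv_mul_le_iff₀ hP]
    exact h5
  by_cases hw0 : ‖w‖ = 0
  · rw [hw0]
    exact mul_nonneg rho_nonneg (norm_nonneg _)
  · have : 0 < ‖w‖ := lt_of_le_of_ne (norm_nonneg _) (Ne.symm hw0)
    nlinarith

lemma E13_T_le (D : SL3 K) (hD : D ∉ Subgroup.center (SL3 K)) (v : H) (s : K) :
    ‖π (E13 s) (T π D v) - T π D v‖ ≤ 2 * rho K * ‖v‖ := by
  classical
  have hu : ∀ a b : K, (E13 (a + b) : SL3 K) = E13 a * E13 b := E13_add
  set x := T π D v with hx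
  set p := Pr π (E13 : K → SL3 K) 1 x with hp
  have h1 : x - p = ∑ ψ ∈ Finset.univ.erase (1 : AddChar K ℂ), Pr π E13 ψ x := by
    have e0 := sum_Pr π (u := (E13 : K → SL3 K)) E13_zero x
    rw [← Finset.add_sum_erase _ _ (Finset.mem_univ (1 : AddChar K ℂ)), ← hp] at e0
    exact sub_eq_of_eq_add' e0.symm
  have h2 : ‖x - p‖ ^ 2 ≤ (rho K * ‖v‖) ^ 2 := by
    rw [h1, norm_sq_sum_of_orthogonal]
    · rw [mul_pow, norm_sq_eq_sum_Pr π (u := (E13 : K → SL3 K)) hu E13_zero v, Finset.mul_sum]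
      refine le_trans (Finset.sum_le_sum fun ψ hψ => ?_)
        (Finset.sum_le_sum_of_subset_of_nonneg (Finset.erase_subset _ _)
          fun ψ _ _ => by positivity)
      rw [← mul_pow, hx, ← Pr_comm π ψ (T π D) (fun a v => T_comm π D _ v)]
      exact pow_le_pow_left₀ (norm_nonneg _) (T_eig_le π D hD ψ (Finset.ne_of_mem_erase hψ) _
        (fun t => pi_Pr π hu ψ t v)) 2
    · intro i _ j _ hij
      exact inner_Pr_Pr π hu hij x x
  have h3 : ‖x - p‖ ≤ rho K * ‖v‖ :=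
    (pow_le_pow_iff_left₀ (norm_nonneg _) (mul_nonneg rho_nonneg (norm_nonneg _))
      two_ne_zero).mp h2
  have h4 : π (E13 s) p = p := by
    rw [hp, pi_Pr π hu]
    simp
  calc ‖π (E13 s) x - x‖ = ‖π (E13 s) (x - p) - (x - p)‖ := by
        rw [map_sub, h4]
        congr 1
        abel
    _ ≤ ‖π (E13 s) (x - p)‖ + ‖x - p‖ := norm_sub_le _ _
    _ = 2 * ‖x - p‖ := by rw [norm_pi]; ring
    _ ≤ _ := by linarith

lemma El_T_le (D : SL3 K) (hD : D ∉ Subgroup.center (SL3 K)) (v : H) {i j : Fin 3} (h : i ≠ j)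
    (s : K) : ‖π (El h s) (T π D v) - T π D v‖ ≤ 2 * rho K * ‖v‖ := by
  obtain ⟨g, hg⟩ := exists_conj_E13 (K := K) h
  have h1 : El h s = g * E13 s * g⁻¹ := by rw [hg]; group
  have h2 : π (El h s) (T π D v) - T π D v =
      π g (π (E13 s) (T π D (π g⁻¹ v)) - T π D (π g⁻¹ v)) := by
    rw [h1, pi_mul_apply, pi_mul_apply, ← T_comm, map_sub, ← T_comm π D g (π g⁻¹ v),
      pi_apply_inv_self]
  rw [h2, norm_pi]
  refine (E13_T_le π D hD _ s).trans ?_
  rw [norm_pi]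

lemma move_prod_le {G : Type*} [Group G] (σ : G →* (H ≃ₗᵢ[ℂ] H)) (x : H) (M : ℝ)
    (l : List G) (hl : ∀ g ∈ l, ‖σ g x - x‖ ≤ M) : ‖σ l.prod x - x‖ ≤ l.length * M := by
  induction l with
  | nil => simp
  | cons g l ih =>
    rw [List.prod_cons, pi_mul_apply, List.length_cons]
    have h1 := ih fun g' hg' => hl g' (by simp [hg'])
    have h2 := hl g (by simp)
    calc ‖σ g (σ l.prod x) - x‖ = ‖σ g (σ l.prod x - x) + (σ g x - x)‖ := by
          rw [map_sub]; congr 1; abel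
      _ ≤ ‖σ g (σ l.prod x - x)‖ + ‖σ g x - x‖ := norm_add_le _ _
      _ = ‖σ l.prod x - x‖ + ‖σ g x - x‖ := by rw [norm_pi]
      _ ≤ _ := by push_cast; linarith

lemma T_move_le (D : SL3 K) (hD : D ∉ Subgroup.center (SL3 K)) (v : H) (g : SL3 K) :
    ‖π g (T π D v) - T π D v‖ ≤ 20 * rho K * ‖v‖ := by
  obtain ⟨l, h1, h2, h3⟩ := elProd_ten g
  have h4 := move_prod_le π (T π D v) (2 * rho K * ‖v‖) l (by
    intro x hx
    obtain ⟨i, j, h, t, rfl⟩ := h3 x hx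
    exact El_T_le π D hD v h t)
  rw [h2] at h4
  refine h4.trans ?_
  have : (l.length : ℝ) ≤ 10 := by exact_mod_cast h1
  have h5 : 0 ≤ 2 * rho K * ‖v‖ :=
    mul_nonneg (mul_nonneg (by norm_num) rho_nonneg) (norm_nonneg _)
  nlinarith

/-- Main estimate: on vectors without invariant part the class operator of a noncentral element
contracts. -/
theorem T_norm_le (D : SL3 K) (hD : D ∉ Subgroup.center (SL3 K)) (v : H)
    (hv : ∑ g : SL3 K, π g v = 0) : ‖T π D v‖ ≤ 20 * rho K * ‖v‖ := by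
  have hP : (0 : ℝ) < Fintype.card (SL3 K) := by exact_mod_cast Fintype.card_pos
  set x := T π D v with hx
  have h1 : ∑ g : SL3 K, π g x = 0 := by
    rw [hx]
    simp only [← T_comm]
    rw [← map_sum, hv, map_zero]
  have h2 : (Fintype.card (SL3 K) : ℂ) • x = - ∑ g : SL3 K, (π g x - x) := by
    rw [Finset.sum_sub_distrib, h1, Finset.sum_const, Finset.card_univ,
      ← Nat.cast_smul_eq_nsmul ℂ]
    simp
  have h3 : (Fintype.card (SL3 K) : ℝ) * ‖x‖ ≤ Fintype.card (SL3 K) * (20 * rho K * ‖v‖) := by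
    calc (Fintype.card (SL3 K) : ℝ) * ‖x‖ = ‖(Fintype.card (SL3 K) : ℂ) • x‖ := by
          rw [norm_smul]; simp
      _ = ‖∑ g : SL3 K, (π g x - x)‖ := by rw [h2, norm_neg]
      _ ≤ ∑ g : SL3 K, ‖π g x - x‖ := norm_sum_le _ _
      _ ≤ ∑ _g : SL3 K, (20 * rho K * ‖v‖) :=
          Finset.sum_le_sum fun g _ => T_move_le π D hD v g
      _ = _ := by rw [Finset.sum_const, Finset.card_univ, nsmul_eq_mul]
  exact le_of_mul_le_mul_left h3 hP

end

end H98CO
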