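import Pool.Agent.Lib_helper64.Cut.Fourier

/-!
# From a Kazhdan-type inequality in the regular representation to edge/vertex expansion
-/

namespace H98CO

open Finset ComplexConjugate Pool.Agent.Lib_helper64.Cut
open scoped Pointwise

/-- The right regular representation. -/
noncomputable def regR (G : Type*) [Group G] [Fintype G] :
    G →* (EuclideanSpace ℂ G ≃ₗᵢ[ℂ] EuclideanSpace ℂ G) where
  toFun g := LinearIsometryEquiv.piLpCongrLeft 2 ℂ ℂ (Equiv.mulRight g).symm
  map_one' := by
    ext f x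
    simp
  map_mul' g h := by
    ext f x
    simp [mul_assoc]

variable {G : Type*} [Group G] [Fintype G]

lemma regR_apply (g : G) (f : EuclideanSpace ℂ G) (x : G) : regR G g f x = f (x * g) := by
  simp [regR]

/-- A vector all of whose translates stay close cannot have mean zero. -/
lemma norm_le_of_move (f : EuclideanSpace ℂ G) (hf : ∑ x, f x = 0) (M : ℝ)
    (hM : ∀ g, ‖regR G g f - f‖ ≤ M) : ‖f‖ ≤ M := by
  have hG : (0 : ℝ) < Fintype.card G := by exact_mod_cast Fintype.card_pos
  have h1 : ∑ g : G, regR G g f = 0 := by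
    ext x
    rw [WithLp.ofLp_sum, Finset.sum_apply]
    simp only [regR_apply]
    have : ∑ g : G, f (x * g) = ∑ g : G, f g :=
      Fintype.sum_equiv (Equiv.mulLeft x) _ _ (fun g => rfl)
    rw [this, hf]
    simp
  have h2 : (Fintype.card G : ℂ) • f = - ∑ g : G, (regR G g f - f) := by
    rw [Finset.sum_sub_distrib, h1, Finset.sum_const, Finset.card_univ,
      ← Nat.cast_smul_eq_nsmul ℂ]
    simp
  have h3 : (Fintype.card G : ℝ) * ‖f‖ ≤ Fintype.card G * M := by
    calc (Fintype.card G : ℝ) * ‖f‖ = ‖(Fintype.card G : ℂ) • f‖ := by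
          rw [norm_smul]; simp
      _ = ‖∑ g : G, (regR G g f - f)‖ := by rw [h2, norm_neg]
      _ ≤ ∑ g : G, ‖regR G g f - f‖ := norm_sum_le _ _
      _ ≤ ∑ _g : G, M := Finset.sum_le_sum fun g _ => hM g
      _ = _ := by rw [Finset.sum_const, Finset.card_univ, nsmul_eq_mul]
  exact le_of_mul_le_mul_left h3 hG

variable [DecidableEq G]

/-- Kazhdan inequality implies vertex expansion. -/
theorem expansion_of_kazhdan (S : Finset G) (hS : ∀ s ∈ S, s⁻¹ ∈ S) (κ : ℝ) (hκ : 0 ≤ κ)
    (hkaz : ∀ f : EuclideanSpace ℂ G, ∑ x, f x = 0 → ∃ s ∈ S, κ * ‖f‖ ≤ ‖regR G s f - f‖)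
    (A : Finset G) (hA : 2 * A.card ≤ Fintype.card G) :
    κ ^ 2 / 4 * (A.card : ℝ) ≤ (((A * S) \ A).card : ℝ) := by
  have hG : (0 : ℝ) < Fintype.card G := by exact_mod_cast Fintype.card_pos
  set α : ℝ := (A.card : ℝ) / Fintype.card G with hα
  have hαG : α * Fintype.card G = A.card := by rw [hα]; field_simp
  set r : G → ℝ := fun x => (if x ∈ A then 1 else 0) - α with hr
  set f : EuclideanSpace ℂ G := WithLp.toLp 2 (fun x => (r x : ℂ)) with hf
  have hfx : ∀ x, f x = (r x : ℂ) := fun x => rfl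
  have hsum : ∑ x, f x = 0 := by
    simp only [hfx]
    rw [← Complex.ofReal_sum]
    have : ∑ x, r x = 0 := by
      rw [hr, Finset.sum_sub_distrib, Finset.sum_boole, Finset.sum_const, Finset.card_univ,
        nsmul_eq_mul]
      have : (Finset.univ.filter fun x => x ∈ A) = A := by ext; simp
      rw [this]
      linarith
    rw [this]
    simp
  obtain ⟨s, hs, hks⟩ := hkaz f hsum
  have hnorm : (A.card : ℝ) / 2 ≤ ‖f‖ ^ 2 := by
    rw [EuclideanSpace.norm_sq_eq]
    have e1 : ∀ x, ‖f x‖ ^ 2 = (1 - 2 * α) * (if x ∈ A then 1 else 0) + α ^ 2 := by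
      intro x
      rw [hfx, Complex.norm_real, Real.norm_eq_abs, sq_abs, hr]
      simp only
      split_ifs <;> ring
    simp only [e1]
    rw [Finset.sum_add_distrib, ← Finset.mul_sum, Finset.sum_boole, Finset.sum_const,
      Finset.card_univ, nsmul_eq_mul]
    have : (Finset.univ.filter fun x => x ∈ A) = A := by ext; simp
    rw [this]
    have h2 : (2 : ℝ) * A.card ≤ Fintype.card G := by exact_mod_cast hA
    have hα2 : α ≤ 1 / 2 := by
      rw [hα, div_le_iff₀ hG]
      linarith
    have h3 : (Fintype.card G : ℝ) * α ^ 2 = A.card * α := by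
      rw [← hαG]; ring
    rw [h3]
    have : (0 : ℝ) ≤ A.card := by positivity
    nlinarith
  have hdiff : ‖regR G s f - f‖ ^ 2 ≤ 2 * (((A * S) \ A).card : ℝ) := by
    rw [EuclideanSpace.norm_sq_eq]
    have e1 : ∀ x, ‖(regR G s f - f) x‖ ^ 2 ≤
        (if x * s ∈ A ∧ x ∉ A then (1 : ℝ) else 0) + (if x ∈ A ∧ x * s ∉ A then 1 else 0) := by
      intro x
      rw [PiLp.sub_apply, regR_apply, hfx, hfx, ← Complex.ofReal_sub, Complex.norm_real,
        Real.norm_eq_abs, sq_abs, hr]
      simp only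
      by_cases h1 : x * s ∈ A <;> by_cases h2 : x ∈ A <;>
        simp only [h1, h2, if_true, if_false, not_true_eq_false, not_false_eq_true, and_true,
          and_false, false_and, true_and] <;> ring_nf <;> norm_num
    refine (Finset.sum_le_sum fun x _ => e1 x).trans ?_
    rw [Finset.sum_add_distrib, Finset.sum_boole, Finset.sum_boole, two_mul]
    refine add_le_add ?_ ?_
    · norm_cast
      refine Finset.card_le_card ?_
      intro x hx
      simp only [Finset.mem_filter, Finset.mem_univ, true_and] at hx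
      rw [Finset.mem_sdiff]
      refine ⟨?_, hx.2⟩
      rw [Finset.mem_mul]
      exact ⟨x * s, hx.1, s⁻¹, hS s hs, by group⟩
    · norm_cast
      refine Finset.card_le_card_of_injOn (fun x => x * s) ?_ ?_
      · intro x hx
        simp only [Finset.coe_filter, Finset.mem_univ, true_and, Set.mem_ofPred_eq] at hx
        rw [Finset.mem_coe, Finset.mem_sdiff]
        exact ⟨Finset.mul_mem_mul hx.1 hs, hx.2⟩
      · intro x _ y _ h
        exact mul_right_cancel h
  have h1 : κ ^ 2 * ((A.card : ℝ) / 2) ≤ 2 * (((A * S) \ A).card : ℝ) := by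
    calc κ ^ 2 * ((A.card : ℝ) / 2) ≤ κ ^ 2 * ‖f‖ ^ 2 := by gcongr
      _ = (κ * ‖f‖) ^ 2 := by ring
      _ ≤ ‖regR G s f - f‖ ^ 2 := by gcongr
      _ ≤ _ := hdiff
  linarith

end H98CO
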