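import Pool.Agent.Lib_helper98.CO.RelT2

/-!
# Relative property (T) for `K ⊕ K`, main estimate
-/

namespace H98CO

open Finset ComplexConjugate Pool.Agent.Lib_helper64.Cut

section main

variable {H : Type*} [NormedAddCommGroup H] [InnerProductSpace ℂ H]
variable {G : Type*} [Group G] (π : G →* (H ≃ₗᵢ[ℂ] H))
variable {K : Type*} [CommRing K] [Fintype K]

lemma mu_union_le (u : K × K → G) (v : H) (X Y : Finset (AddChar (K × K) ℂ))
    [DecidableEq (AddChar (K × K) ℂ)] : mu π u v (X ∪ Y) ≤ mu π u v X + mu π u v Y := by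
  unfold mu
  rw [← Finset.sum_union_inter]
  have : 0 ≤ ∑ χ ∈ X ∩ Y, ‖Pr π u χ v‖ ^ 2 := Finset.sum_nonneg fun _ _ => by positivity
  linarith

omit [Fintype K] in
lemma root_of_char (q : ℕ) (hq : (q : K) = 0) (χ : AddChar (K × K) ℂ) (z : K × K) :
    χ z ^ q = 1 := by
  have h1 : q • z = 0 := by
    ext
    · simp [hq]
    · simp [hq]
  rw [← AddChar.map_nsmul_eq_pow, h1, AddChar.map_zero_eq_one]

/-- A vector without `K ⊕ K`-invariant part which is moved by at most `δ` by each of the six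
elements has norm at most `20 q δ`. -/
theorem relT_core (q : ℕ) [Fact q.Prime] [Algebra (ZMod q) K] (x : K)
    (hx : Algebra.adjoin (ZMod q) {x} = ⊤) (u : K × K → G)
    (hu : ∀ a b, u (a + b) = u a * u b) (hu0 : u 0 = 1) (g1 gx h1 hx' : G)
    (hg1 : ∀ a, g1 * u a = u (shA 1 a) * g1) (hgx : ∀ a, gx * u a = u (shA x a) * gx)
    (hh1 : ∀ a, h1 * u a = u (shB 1 a) * h1) (hhx : ∀ a, hx' * u a = u (shB x a) * hx')
    (v : H) (δ : ℝ) (d1 : ‖π g1 v - v‖ ≤ δ) (d2 : ‖π gx v - v‖ ≤ δ) (d3 : ‖π h1 v - v‖ ≤ δ)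
    (d4 : ‖π hx' v - v‖ ≤ δ) (d5 : ‖π (u (1, 0)) v - v‖ ≤ δ) (d6 : ‖π (u (0, 1)) v - v‖ ≤ δ)
    (hv : Pr π u 1 v = 0) : ‖v‖ ≤ 20 * q * δ := by
  classical
  have hδ0 : 0 ≤ δ := (norm_nonneg _).trans d1
  have hq2 : (2 : ℝ) ≤ q := by exact_mod_cast (Fact.out : q.Prime).two_le
  have hqK : (q : K) = 0 := by
    have := congrArg (algebraMap (ZMod q) K) (ZMod.natCast_self q)
    rwa [map_natCast, map_zero] at this
  set XA : Finset (AddChar (K × K) ℂ) := univ.filter (fun χ => tyA x χ) with hXA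
  set XB : Finset (AddChar (K × K) ℂ) := univ.filter (fun χ => tyB x χ) with hXB
  set XC : Finset (AddChar (K × K) ℂ) := univ.filter (fun χ => tyC x χ) with hXC
  set E : Finset (AddChar (K × K) ℂ) := univ.filter (fun χ => χ (1, 0) ≠ 1) with hE
  set E' : Finset (AddChar (K × K) ℂ) := univ.filter (fun χ => χ (0, 1) ≠ 1) with hE'
  set m : Finset (AddChar (K × K) ℂ) → ℝ := mu π u v with hm
  set e : ℝ := 2 * δ * ‖v‖ + δ ^ 2 with he
  -- total mass
  have htot : ‖v‖ ^ 2 ≤ m XA + m XB + m XC := by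
    have h1 : (univ.erase (1 : AddChar (K × K) ℂ)) ⊆ (XA ∪ XB) ∪ XC := by
      intro χ hχ
      have := exhaust x χ q hx (Finset.ne_of_mem_erase hχ)
      simp only [hXA, hXB, hXC, Finset.mem_union, Finset.mem_filter, Finset.mem_univ, true_and]
      tauto
    have h2 : ‖v‖ ^ 2 = m (univ.erase (1 : AddChar (K × K) ℂ)) := by
      rw [← mu_univ (π := π) hu hu0 v, hm]
      unfold mu
      rw [← Finset.add_sum_erase _ _ (Finset.mem_univ (1 : AddChar (K × K) ℂ)), hv]
      simp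
    calc ‖v‖ ^ 2 = m (univ.erase (1 : AddChar (K × K) ℂ)) := h2
      _ ≤ m ((XA ∪ XB) ∪ XC) := mu_mono _ h1
      _ ≤ m (XA ∪ XB) + m XC := mu_union_le π u v _ _
      _ ≤ m XA + m XB + m XC := by
          have := mu_union_le π u v XA XB
          linarith
  -- the four transports
  have t1 : m XA ≤ m XC + e := by
    refine mu_transport hu hu0 g1 (shA 1) hg1 XA XC ?_ v δ d1
    intro χ hχ
    simp only [hXA, hXC, Finset.mem_filter, Finset.mem_univ, true_and] at hχ ⊢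
    exact tyA_to_tyC x χ hχ
  have t2 : m XB ≤ m XC + e := by
    refine mu_transport hu hu0 h1 (shB 1) hh1 XB XC ?_ v δ d3
    intro χ hχ
    simp only [hXB, hXC, Finset.mem_filter, Finset.mem_univ, true_and] at hχ ⊢
    exact tyB_to_tyC x χ hχ
  have t3 : m ((XA ∪ XC) \ E) ≤ m XB + e := by
    refine mu_transport hu hu0 gx (shA x) hgx ((XA ∪ XC) \ E) XB ?_ v δ d2
    intro χ hχ
    simp only [hXA, hXB, hXC, hE, Finset.mem_sdiff, Finset.mem_union, Finset.mem_filter,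
      Finset.mem_univ, true_and, not_not] at hχ ⊢
    exact tyAC_to_tyB x χ hχ.1 hχ.2
  have t4 : m ((XB ∪ XC) \ E') ≤ m XA + e := by
    refine mu_transport hu hu0 hx' (shB x) hhx ((XB ∪ XC) \ E') XA ?_ v δ d4
    intro χ hχ
    simp only [hXA, hXB, hXC, hE', Finset.mem_sdiff, Finset.mem_union, Finset.mem_filter,
      Finset.mem_univ, true_and, not_not] at hχ ⊢
    exact tyBC_to_tyA x χ hχ.1 hχ.2
  have t5 : m E ≤ (q : ℝ) ^ 2 * δ ^ 2 := by
    have := mu_at hu hu0 (1, 0) v δ (1 / q) (by positivity) E (fun χ hχ => ?_) d5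
    · rw [div_pow, one_pow, div_mul_eq_mul_div, one_mul, div_le_iff₀ (by positivity)] at this
      rw [hm]
      linarith
    · simp only [hE, Finset.mem_filter, Finset.mem_univ, true_and] at hχ
      exact root_far q (Fact.out : q.Prime).pos _ (root_of_char q hqK χ _) hχ
  have t6 : m E' ≤ (q : ℝ) ^ 2 * δ ^ 2 := by
    have := mu_at hu hu0 (0, 1) v δ (1 / q) (by positivity) E' (fun χ hχ => ?_) d6
    · rw [div_pow, one_pow, div_mul_eq_mul_div, one_mul, div_le_iff₀ (by positivity)] at this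
      rw [hm]
      linarith
    · simp only [hE', Finset.mem_filter, Finset.mem_univ, true_and] at hχ
      exact root_far q (Fact.out : q.Prime).pos _ (root_of_char q hqK χ _) hχ
  have s1 : m XA + m XC ≤ m ((XA ∪ XC) \ E) + m E := by
    have hdis : Disjoint XA XC := by
      rw [Finset.disjoint_left]
      intro χ h1 h2
      simp only [hXA, hXC, Finset.mem_filter, Finset.mem_univ, true_and] at h1 h2
      exact not_tyA_tyC x χ h1 h2
    have e1 : m XA + m XC = m (XA ∪ XC) := by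
      rw [hm]; unfold mu; rw [Finset.sum_union hdis]
    rw [e1]
    refine le_trans (mu_mono _ ?_) (mu_union_le π u v _ _)
    intro χ hχ
    by_cases h : χ ∈ E
    · exact Finset.mem_union_right _ h
    · exact Finset.mem_union_left _ (Finset.mem_sdiff.mpr ⟨hχ, h⟩)
  have s2 : m XB + m XC ≤ m ((XB ∪ XC) \ E') + m E' := by
    have hdis : Disjoint XB XC := by
      rw [Finset.disjoint_left]
      intro χ h1 h2
      simp only [hXB, hXC, Finset.mem_filter, Finset.mem_univ, true_and] at h1 h2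
      exact not_tyB_tyC x χ h1 h2
    have e1 : m XB + m XC = m (XB ∪ XC) := by
      rw [hm]; unfold mu; rw [Finset.sum_union hdis]
    rw [e1]
    refine le_trans (mu_mono _ ?_) (mu_union_le π u v _ _)
    intro χ hχ
    by_cases h : χ ∈ E'
    · exact Finset.mem_union_right _ h
    · exact Finset.mem_union_left _ (Finset.mem_sdiff.mpr ⟨hχ, h⟩)
  have hfin : ‖v‖ ^ 2 ≤ 3 * (q : ℝ) ^ 2 * δ ^ 2 + 10 * δ * ‖v‖ + 5 * δ ^ 2 := by
    have : e = 2 * δ * ‖v‖ + δ ^ 2 := he
    nlinarith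
  by_contra hcon
  push Not at hcon
  have hN : 0 < ‖v‖ := lt_of_le_of_lt (by positivity) hcon
  have hqδ : q * δ < ‖v‖ / 20 := by linarith
  have hδv : δ < ‖v‖ / 40 := by
    nlinarith
  have a1 : (q : ℝ) ^ 2 * δ ^ 2 ≤ (‖v‖ / 20) ^ 2 := by
    rw [← mul_pow]
    exact pow_le_pow_left₀ (by positivity) hqδ.le 2
  have a2 : δ ^ 2 ≤ (‖v‖ / 40) ^ 2 := pow_le_pow_left₀ hδ0 hδv.le 2
  nlinarith

/-- General form: a vector moved by at most `δ` by the six elements is moved by at most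
`40 q δ` by all of `K ⊕ K`. -/
theorem relT (q : ℕ) [Fact q.Prime] [Algebra (ZMod q) K] (x : K)
    (hx : Algebra.adjoin (ZMod q) {x} = ⊤) (u : K × K → G)
    (hu : ∀ a b, u (a + b) = u a * u b) (hu0 : u 0 = 1) (g1 gx h1 hx' : G)
    (hg1 : ∀ a, g1 * u a = u (shA 1 a) * g1) (hgx : ∀ a, gx * u a = u (shA x a) * gx)
    (hh1 : ∀ a, h1 * u a = u (shB 1 a) * h1) (hhx : ∀ a, hx' * u a = u (shB x a) * hx')
    (v : H) (δ : ℝ) (d1 : ‖π g1 v - v‖ ≤ δ) (d2 : ‖π gx v - v‖ ≤ δ) (d3 : ‖π h1 v - v‖ ≤ δ)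
    (d4 : ‖π hx' v - v‖ ≤ δ) (d5 : ‖π (u (1, 0)) v - v‖ ≤ δ) (d6 : ‖π (u (0, 1)) v - v‖ ≤ δ)
    (a : K × K) : ‖π (u a) v - v‖ ≤ 40 * q * δ := by
  classical
  set P : H →ₗ[ℂ] H := Pr π u 1 with hP
  set w := v - P v with hw
  -- invariants are fixed
  have hfix : ∀ a, π (u a) (P v) = P v := by
    intro a
    rw [hP, pi_Pr π hu]
    simp
  have hPP : P (P v) = P v := by
    rw [hP]
    exact Pr_of_eigen π 1 (fun b => by rw [← hP, hfix]; simp)
  have hPw : P w = 0 := by rw [hw, map_sub, hPP, sub_self]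
  -- the projection is a contraction on the complement
  have hcontr : ∀ y : H, ‖y - P y‖ ≤ ‖y‖ := by
    intro y
    have e1 : y - P y = ∑ ψ ∈ Finset.univ.erase (1 : AddChar (K × K) ℂ), Pr π u ψ y := by
      have e0 := sum_Pr π (u := u) hu0 y
      rw [← Finset.add_sum_erase _ _ (Finset.mem_univ (1 : AddChar (K × K) ℂ))] at e0
      exact sub_eq_of_eq_add' e0.symm
    refine (pow_le_pow_iff_left₀ (norm_nonneg _) (norm_nonneg _) two_ne_zero).mp ?_
    rw [e1, norm_sq_sum_of_orthogonal _ _ (fun i _ j _ hij => inner_Pr_Pr π hu hij y y),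
      norm_sq_eq_sum_Pr π hu hu0 y]
    exact Finset.sum_le_sum_of_subset_of_nonneg (Finset.erase_subset _ _)
      fun ψ _ _ => by positivity
  -- normalising elements commute with the projection
  have hnorm : ∀ (g : G) (τ : K × K ≃+ K × K), (∀ a, g * u a = u (τ a) * g) →
      ‖π g v - v‖ ≤ δ → ‖π g w - w‖ ≤ δ := by
    intro g τ hτ hd
    have h1 : π g (P v) = P (π g v) := by
      rw [hP, pi_Pr_conj π 1 g τ hτ v]
      congr 1
    have h2 : π g w - w = (π g v - v) - P (π g v - v) := by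
      rw [hw, map_sub, h1, map_sub]
      abel
    rw [h2]
    exact (hcontr _).trans hd
  have hab : ∀ b : K × K, ‖π (u b) v - v‖ ≤ δ → ‖π (u b) w - w‖ ≤ δ := by
    intro b hd
    refine hnorm (u b) (AddEquiv.refl _) (fun a => ?_) hd
    rw [AddEquiv.refl_apply, ← hu, ← hu, add_comm]
  have hwn := relT_core π q x hx u hu hu0 g1 gx h1 hx' hg1 hgx hh1 hhx w δ
    (hnorm g1 _ hg1 d1) (hnorm gx _ hgx d2) (hnorm h1 _ hh1 d3) (hnorm hx' _ hhx d4)
    (hab _ d5) (hab _ d6) hPw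
  have h3 : π (u a) v - v = π (u a) w - w := by
    rw [hw, map_sub, hfix]
    abel
  rw [h3]
  calc ‖π (u a) w - w‖ ≤ ‖π (u a) w‖ + ‖w‖ := norm_sub_le _ _
    _ = 2 * ‖w‖ := by rw [norm_pi]; ring
    _ ≤ 40 * q * δ := by linarith

end main

end H98CO
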