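import Pool.Agent.Lib_helper64.Cut.Defs
import Pool.Agent.Lib_helper98.CO.Kazhdan
import Pool.Agent.Lib_helper98.CO.RelT3
import Pool.Agent.Lib_helper98.CO.ClassOp

/-!
# The groups `(K³)^J ⋊ SL₃(K)`, `K = 𝔽_q[x]` a finite field, are uniform expanders
-/

namespace H98CO

open Finset ComplexConjugate Matrix Matrix.SpecialLinearGroup Pool.Agent.Lib_helper64.Cut
open scoped Pointwise

section relations

variable {K : Type*} [Field K]

/-- third index -/
lemma exists_third (i j : Fin 3) (h : i ≠ j) : ∃ k : Fin 3, i ≠ k ∧ k ≠ i ∧ k ≠ j ∧ j ≠ k := by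
  revert i j
  decide

lemma ring_rel {R : Type*} [Ring R] (X Y Z W : R) (hXY : X * Y = 0) (hYZ : Y * Z = 0)
    (hXZ : X * Z = W) (hWZ : W * Z = 0) (hYX : Y * X = 0) (hWX : W * X = 0) (hZX : Z * X = 0) :
    (1 + X) * ((1 + Y) * (1 + Z)) = (1 + (Y + W)) * (1 + Z) * (1 + X) := by
  have e1 : (1 + X) * ((1 + Y) * (1 + Z)) =
      1 + X + Y + Z + X * Y + X * Z + Y * Z + X * Y * Z := by noncomm_ring
  have e2 : (1 + (Y + W)) * (1 + Z) * (1 + X) =
      1 + Y + W + Z + X + Y * Z + W * Z + Y * X + W * X + Z * X + Y * Z * X + W * Z * X := by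
    noncomm_ring
  rw [e1, e2, hXY, hYZ, hXZ, hWZ, hYX, hWX, hZX]
  simp only [zero_mul, add_zero]
  abel

lemma el_rel1 {i j k : Fin 3} (hij : i ≠ j) (hik : i ≠ k) (hkj : k ≠ j) (r a b : K) :
    El hik r * (El hij a * El hkj b) = El hij (a + r * b) * El hkj b * El hik r := by
  apply sl3_ext
  simp only [Matrix.SpecialLinearGroup.coe_mul, transvection_coe, Matrix.single_add]
  refine ring_rel _ _ _ _ ?_ ?_ ?_ ?_ ?_ ?_ ?_
  · exact Matrix.single_mul_single_of_ne _ _ _ _ hik.symm _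
  · exact Matrix.single_mul_single_of_ne _ _ _ _ hkj.symm _
  · exact Matrix.single_mul_single_same _ _ _ _ _
  · exact Matrix.single_mul_single_of_ne _ _ _ _ hkj.symm _
  · exact Matrix.single_mul_single_of_ne _ _ _ _ hij.symm _
  · exact Matrix.single_mul_single_of_ne _ _ _ _ hij.symm _
  · exact Matrix.single_mul_single_of_ne _ _ _ _ hij.symm _

lemma el_add {i j : Fin 3} (h : i ≠ j) (a b : K) : El h (a + b) = El h a * El h b :=
  transvection_add h a b

lemma el_comm {i j k : Fin 3} (hij : i ≠ j) (hkj : k ≠ j) (a b : K) :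
    El hij a * El hkj b = El hkj b * El hij a := by
  apply sl3_ext
  simp only [Matrix.SpecialLinearGroup.coe_mul, transvection_coe]
  have h1 : (Matrix.single i j a : Matrix (Fin 3) (Fin 3) K) * Matrix.single k j b = 0 :=
    Matrix.single_mul_single_of_ne _ _ _ _ hkj.symm _
  have h2 : (Matrix.single k j b : Matrix (Fin 3) (Fin 3) K) * Matrix.single i j a = 0 :=
    Matrix.single_mul_single_of_ne _ _ _ _ hij.symm _
  rw [add_mul, mul_add, mul_add, add_mul, mul_add, mul_add, h1, h2]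
  simp only [one_mul, mul_one, add_zero]
  abel

lemma el_rel2 {i j k : Fin 3} (hij : i ≠ j) (hki : k ≠ i) (hkj : k ≠ j) (r a b : K) :
    El hki r * (El hij a * El hkj b) = El hij a * El hkj (b + r * a) * El hki r := by
  rw [el_comm hij hkj a b, el_rel1 hkj hki hij, el_comm hij hkj]

end relations

section group

variable {K : Type} [Field K] (J : ℕ)

/-- vector element -/
def vecG (w : Fin J → Fin 3 → K) : Sdp (SL3 K) (Fin J → Fin 3 → K) := ⟨w, 1⟩

/-- matrix element -/
def matG (a : SL3 K) : Sdp (SL3 K) (Fin J → Fin 3 → K) := ⟨0, a⟩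

variable {J}

lemma vecG_add (w w' : Fin J → Fin 3 → K) : vecG J (w + w') = vecG J w * vecG J w' := by
  ext1 <;> simp [vecG]

lemma matG_mul (a b : SL3 K) : matG J (a * b) = matG J a * matG J b := by
  ext1 <;> simp [matG]

lemma vecG_zero : vecG J (0 : Fin J → Fin 3 → K) = 1 := rfl
lemma matG_one : matG J (1 : SL3 K) = 1 := rfl

lemma eq_vec_mul_mat (g : Sdp (SL3 K) (Fin J → Fin 3 → K)) : g = vecG J g.v * matG J g.a := by
  ext1 <;> simp [vecG, matG]

lemma matG_mul_vecG (a : SL3 K) (w : Fin J → Fin 3 → K) :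
    matG J a * vecG J w = vecG J (a • w) * matG J a := by
  ext1 <;> simp [vecG, matG]

lemma smul_pi_single (a : SL3 K) (l : Fin J) (w : Fin 3 → K) :
    a • (Pi.single l w : Fin J → Fin 3 → K) = Pi.single l (a • w) := by
  ext1 m
  by_cases h : m = l
  · subst h; simp
  · simp [h]

lemma el_smul {i k : Fin 3} (hik : i ≠ k) (r : K) (w : Fin 3 → K) :
    (El hik r : SL3 K) • w = w + Pi.single i (r * w k) := by
  rw [Matrix.SpecialLinearGroup.smul_def, transvection_coe, Matrix.smul_eq_mulVec,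
    Matrix.add_mulVec, Matrix.one_mulVec, Matrix.single_mulVec_eq]
  congr 1
  ext m
  simp [Pi.single_apply]

lemma el_smul_pair {i k : Fin 3} (hik : i ≠ k) (r a b : K) :
    (El hik r : SL3 K) • (Pi.single i a + Pi.single k b : Fin 3 → K) =
      Pi.single i (a + r * b) + Pi.single k b := by
  rw [el_smul]
  ext m
  by_cases h1 : m = i
  · subst h1
    simp [Pi.single_apply, hik, Ne.symm hik]
  · simp [Pi.single_apply, h1]

lemma el_smul_pair' {i k : Fin 3} (hki : k ≠ i) (r a b : K) :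
    (El hki r : SL3 K) • (Pi.single i a + Pi.single k b : Fin 3 → K) =
      Pi.single i a + Pi.single k (b + r * a) := by
  rw [add_comm, el_smul_pair, add_comm]

variable [DecidableEq K]

lemma mat_mem_genG {i j : Fin 3} (h : i ≠ j) (x t : K) (ht : t = 1 ∨ t = -1 ∨ t = x ∨ t = -x) :
    matG J (El h t) ∈ genG J x := by
  unfold genG
  refine Finset.mem_insert_of_mem (Finset.mem_union_left _ ?_)
  refine Finset.mem_image.mpr ⟨El h t, ?_, rfl⟩
  unfold genP
  refine Finset.mem_biUnion.mpr ⟨⟨(i, j), h⟩, Finset.mem_univ _, ?_⟩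
  refine Finset.mem_image.mpr ⟨t, ?_, rfl⟩
  simpa using ht

lemma vec_mem_genG (l : Fin J) (i : Fin 3) (x : K) :
    vecG J (Pi.single l (Pi.single i 1)) ∈ genG J x := by
  unfold genG
  refine Finset.mem_insert_of_mem (Finset.mem_union_right _ ?_)
  refine Finset.mem_biUnion.mpr ⟨(l, i), Finset.mem_univ _, ?_⟩
  exact Finset.mem_insert_self _ _

lemma genG_symm (x : K) (s : Sdp (SL3 K) (Fin J → Fin 3 → K)) (hs : s ∈ genG J x) :
    s⁻¹ ∈ genG J x := by
  unfold genG at hs
  rcases Finset.mem_insert.mp hs with rfl | hs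
  · rw [inv_one]; unfold genG; exact Finset.mem_insert_self _ _
  rcases Finset.mem_union.mp hs with hs | hs
  · obtain ⟨a, ha, rfl⟩ := Finset.mem_image.mp hs
    unfold genP at ha
    obtain ⟨⟨⟨i, j⟩, h⟩, -, ha⟩ := Finset.mem_biUnion.mp ha
    obtain ⟨t, ht, rfl⟩ := Finset.mem_image.mp ha
    have e1 : (⟨0, El h t⟩ : Sdp (SL3 K) (Fin J → Fin 3 → K))⁻¹ = matG J (El h (-t)) := by
      ext1
      · simp [matG]
      · simp only [Sdp.inv_a, matG]
        exact transvection_inv _ _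
    simp only at e1 ⊢
    rw [e1]
    refine mat_mem_genG h x (-t) ?_
    simp only [Finset.mem_insert, Finset.mem_singleton] at ht
    rcases ht with rfl | rfl | rfl | rfl <;> simp
  · obtain ⟨⟨l, i⟩, -, hs⟩ := Finset.mem_biUnion.mp hs
    simp only [Finset.mem_insert, Finset.mem_singleton] at hs
    unfold genG
    refine Finset.mem_insert_of_mem (Finset.mem_union_right _ ?_)
    refine Finset.mem_biUnion.mpr ⟨(l, i), Finset.mem_univ _, ?_⟩
    simp only [Finset.mem_insert, Finset.mem_singleton]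
    rcases hs with rfl | rfl
    · right
      ext1 <;> simp
    · left
      ext1 <;> simp

end group

section moves

variable {K : Type} [Field K] [Fintype K] [DecidableEq K] {J : ℕ}
variable {H : Type*} [NormedAddCommGroup H] [InnerProductSpace ℂ H]
variable (π : Sdp (SL3 K) (Fin J → Fin 3 → K) →* (H ≃ₗᵢ[ℂ] H))

lemma mat_move (q : ℕ) [Fact q.Prime] [Algebra (ZMod q) K] (x : K)
    (hx : Algebra.adjoin (ZMod q) {x} = ⊤) (v : H) (δ : ℝ)
    (hδ : ∀ s ∈ genG J x, ‖π s v - v‖ ≤ δ) {i j : Fin 3} (hij : i ≠ j) (t : K) :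
    ‖π (matG J (El hij t)) v - v‖ ≤ 40 * q * δ := by
  obtain ⟨k, hik, hki, hkj, hjk⟩ := exists_third i j hij
  have h := relT π q x hx (fun z : K × K => matG J (El hij z.1 * El hkj z.2)) ?_ ?_
    (matG J (El hik 1)) (matG J (El hik x)) (matG J (El hki 1)) (matG J (El hki x)) ?_ ?_ ?_ ?_
    v δ (hδ _ (mat_mem_genG _ _ _ (by simp))) (hδ _ (mat_mem_genG _ _ _ (by simp)))
    (hδ _ (mat_mem_genG _ _ _ (by simp))) (hδ _ (mat_mem_genG _ _ _ (by simp))) ?_ ?_ (t, 0)
  · simpa using h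
  · intro a b
    simp only [Prod.fst_add, Prod.snd_add]
    rw [← matG_mul, el_add, el_add]
    congr 1
    have := el_comm hij hkj b.1 a.2
    calc El hij a.1 * El hij b.1 * (El hkj a.2 * El hkj b.2)
        = El hij a.1 * (El hij b.1 * El hkj a.2) * El hkj b.2 := by group
      _ = El hij a.1 * (El hkj a.2 * El hij b.1) * El hkj b.2 := by rw [this]
      _ = _ := by group
  · simp [matG_one]
  · intro a
    simp only [shA_apply]
    rw [← matG_mul, ← matG_mul, el_rel1]
  · intro a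
    simp only [shA_apply]
    rw [← matG_mul, ← matG_mul, el_rel1]
  · intro a
    simp only [shB_apply]
    rw [← matG_mul, ← matG_mul, el_rel2]
  · intro a
    simp only [shB_apply]
    rw [← matG_mul, ← matG_mul, el_rel2]
  · simp only [transvection_coeff_zero, mul_one]
    exact hδ _ (mat_mem_genG _ _ _ (by simp))
  · simp only [transvection_coeff_zero, one_mul]
    exact hδ _ (mat_mem_genG _ _ _ (by simp))

lemma vec_move (q : ℕ) [Fact q.Prime] [Algebra (ZMod q) K] (x : K)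
    (hx : Algebra.adjoin (ZMod q) {x} = ⊤) (v : H) (δ : ℝ)
    (hδ : ∀ s ∈ genG J x, ‖π s v - v‖ ≤ δ) (l : Fin J) (i : Fin 3) (t : K) :
    ‖π (vecG J (Pi.single l (Pi.single i t))) v - v‖ ≤ 40 * q * δ := by
  obtain ⟨k, hik⟩ : ∃ k : Fin 3, i ≠ k := by
    revert i; decide
  have hki := hik.symm
  have h := relT π q x hx
    (fun z : K × K => vecG J (Pi.single l (Pi.single i z.1 + Pi.single k z.2))) ?_ ?_
    (matG J (El hik 1)) (matG J (El hik x)) (matG J (El hki 1)) (matG J (El hki x)) ?_ ?_ ?_ ?_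
    v δ (hδ _ (mat_mem_genG _ _ _ (by simp))) (hδ _ (mat_mem_genG _ _ _ (by simp)))
    (hδ _ (mat_mem_genG _ _ _ (by simp))) (hδ _ (mat_mem_genG _ _ _ (by simp))) ?_ ?_ (t, 0)
  · simpa using h
  · intro a b
    simp only [Prod.fst_add, Prod.snd_add]
    rw [← vecG_add, ← Pi.single_add, Pi.single_add i, Pi.single_add k]
    congr 2
    abel
  · simp [vecG_zero]
  · intro a
    simp only [shA_apply]
    rw [matG_mul_vecG, smul_pi_single, el_smul_pair]
  · intro a
    simp only [shA_apply]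
    rw [matG_mul_vecG, smul_pi_single, el_smul_pair]
  · intro a
    simp only [shB_apply]
    rw [matG_mul_vecG, smul_pi_single, el_smul_pair']
  · intro a
    simp only [shB_apply]
    rw [matG_mul_vecG, smul_pi_single, el_smul_pair']
  · simp only [Pi.single_zero, add_zero]
    exact hδ _ (vec_mem_genG _ _ _)
  · simp only [Pi.single_zero, zero_add]
    exact hδ _ (vec_mem_genG _ _ _)

omit [Fintype K] [DecidableEq K] in
lemma sum_move {ι : Type*} (s : Finset ι) (w : ι → (Fin J → Fin 3 → K)) (v : H) (M : ℝ)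
    (hM : ∀ i ∈ s, ‖π (vecG J (w i)) v - v‖ ≤ M) :
    ‖π (vecG J (∑ i ∈ s, w i)) v - v‖ ≤ s.card * M := by
  classical
  induction s using Finset.induction_on with
  | empty => simp [vecG_zero]
  | insert a s ha ih =>
    rw [Finset.sum_insert ha, vecG_add, pi_mul_apply, Finset.card_insert_of_notMem ha]
    have h1 := ih fun i hi => hM i (by simp [hi])
    have h2 := hM a (by simp)
    calc ‖π (vecG J (w a)) (π (vecG J (∑ i ∈ s, w i)) v) - v‖
        = ‖π (vecG J (w a)) (π (vecG J (∑ i ∈ s, w i)) v - v) + (π (vecG J (w a)) v - v)‖ := by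
          rw [map_sub]; congr 1; abel
      _ ≤ ‖π (vecG J (w a)) (π (vecG J (∑ i ∈ s, w i)) v - v)‖ + ‖π (vecG J (w a)) v - v‖ :=
          norm_add_le _ _
      _ = ‖π (vecG J (∑ i ∈ s, w i)) v - v‖ + ‖π (vecG J (w a)) v - v‖ := by rw [norm_pi]
      _ ≤ _ := by push_cast; linarith

lemma all_move (q : ℕ) [Fact q.Prime] [Algebra (ZMod q) K] (x : K)
    (hx : Algebra.adjoin (ZMod q) {x} = ⊤) (v : H) (δ : ℝ)
    (hδ : ∀ s ∈ genG J x, ‖π s v - v‖ ≤ δ) (g : Sdp (SL3 K) (Fin J → Fin 3 → K)) :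
    ‖π g v - v‖ ≤ (3 * J + 10) * (40 * q * δ) := by
  have hδ0 : 0 ≤ δ := by
    refine (norm_nonneg _).trans (hδ 1 ?_)
    unfold genG
    exact Finset.mem_insert_self _ _
  -- the vector part
  have h1 : ‖π (vecG J g.v) v - v‖ ≤ (3 * J) * (40 * q * δ) := by
    have e1 : g.v = ∑ p : Fin J × Fin 3, (Pi.single p.1 (Pi.single p.2 (g.v p.1 p.2)) :
        Fin J → Fin 3 → K) := by
      ext l i
      rw [Fintype.sum_prod_type, Finset.sum_apply, Finset.sum_apply]
      simp only [Finset.sum_apply, Pi.single_apply]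
      rw [Finset.sum_eq_single l]
      · simp [Pi.single_apply]
      · intro b _ hb
        simp [Ne.symm hb]
      · simp
    have e2 := sum_move π Finset.univ (fun p : Fin J × Fin 3 =>
      (Pi.single p.1 (Pi.single p.2 (g.v p.1 p.2)) : Fin J → Fin 3 → K)) v (40 * q * δ)
      (fun p _ => vec_move π q x hx v δ hδ p.1 p.2 _)
    rw [← e1] at e2
    refine e2.trans (le_of_eq ?_)
    simp [mul_comm]
  -- the matrix part
  have h2 : ‖π (matG J g.a) v - v‖ ≤ 10 * (40 * q * δ) := by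
    obtain ⟨l, hl1, hl2, hl3⟩ := elProd_ten g.a
    set σ : SL3 K →* (H ≃ₗᵢ[ℂ] H) := π.comp ⟨⟨fun a => matG J a, matG_one⟩, matG_mul⟩ with hσ
    have h4 := move_prod_le σ v (40 * q * δ) l (by
      intro y hy
      obtain ⟨i, j, h, t, rfl⟩ := hl3 y hy
      exact mat_move π q x hx v δ hδ h t)
    rw [hl2] at h4
    refine le_trans (le_of_eq rfl) (h4.trans ?_)
    have : (l.length : ℝ) ≤ 10 := by exact_mod_cast hl1
    gcongr
  rw [eq_vec_mul_mat g, pi_mul_apply]
  calc ‖π (vecG J g.v) (π (matG J g.a) v) - v‖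
      = ‖π (vecG J g.v) (π (matG J g.a) v - v) + (π (vecG J g.v) v - v)‖ := by
        rw [map_sub]; congr 1; abel
    _ ≤ ‖π (vecG J g.v) (π (matG J g.a) v - v)‖ + ‖π (vecG J g.v) v - v‖ := norm_add_le _ _
    _ = ‖π (matG J g.a) v - v‖ + ‖π (vecG J g.v) v - v‖ := by rw [norm_pi]
    _ ≤ _ := by linarith

end moves

/-- **Uniform expansion** of `(K³)^J ⋊ SL₃(K)` with respect to `genG J x`. -/
theorem expander (q : ℕ) [Fact q.Prime] (J : ℕ) : ∃ c : ℝ, 0 < c ∧
    ∀ (K : Type) [Field K] [Fintype K] [DecidableEq K] [Algebra (ZMod q) K] (x : K),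
    Algebra.adjoin (ZMod q) {x} = ⊤ → ∀ A : Finset (Sdp (SL3 K) (Fin J → Fin 3 → K)),
    2 * A.card ≤ Fintype.card (Sdp (SL3 K) (Fin J → Fin 3 → K)) →
    c * (A.card : ℝ) ≤ (((A * genG J x) \ A).card : ℝ) := by
  have hq0 : (0 : ℝ) < q := by exact_mod_cast (Fact.out : q.Prime).pos
  set κ : ℝ := 1 / ((3 * J + 10) * (40 * q)) with hκ
  have hκ0 : 0 < κ := by positivity
  refine ⟨κ ^ 2 / 4, by positivity, ?_⟩
  intro K _ _ _ _ x hx A hA
  refine expansion_of_kazhdan (genG J x) (genG_symm x) κ hκ0.le ?_ A hA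
  intro f hf
  have hne : (genG J x).Nonempty := ⟨1, by unfold genG; exact Finset.mem_insert_self _ _⟩
  obtain ⟨s, hs, hmax⟩ := Finset.exists_max_image (genG J x)
    (fun s => ‖regR (Sdp (SL3 K) (Fin J → Fin 3 → K)) s f - f‖) hne
  refine ⟨s, hs, ?_⟩
  have h1 := norm_le_of_move f hf _ (all_move (regR (Sdp (SL3 K) (Fin J → Fin 3 → K))) q x hx f
    _ hmax)
  rw [hκ, div_mul_eq_mul_div, one_mul, div_le_iff₀ (by positivity)]
  refine h1.trans (le_of_eq ?_)
  ring

end H98CO
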