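import Pool.Agent.Lib_helper64.Cut.Deg

/-!
# Finite fields with a generator
-/

set_option autoImplicit false

namespace H98CO

open Pool.Agent.Lib_helper64.Cut Polynomial

/-- **K2** -/
theorem exists_field (q : ℕ) [Fact q.Prime] (n : ℕ) (hn : 1 ≤ n) :
    ∃ (K : Type) (_ : Field K) (_ : Fintype K) (_ : DecidableEq K) (_ : Algebra (ZMod q) K)
      (x : K), Fintype.card K = q ^ n ∧ Algebra.adjoin (ZMod q) {x} = ⊤ ∧ Gen (ZMod q) x n := by
  classical
  have hn0 : n ≠ 0 := by omega
  have : Fintype (GaloisField q n) := Fintype.ofFinite _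
  obtain ⟨x, hx⟩ := Field.exists_primitive_element (ZMod q) (GaloisField q n)
  have hint : IsIntegral (ZMod q) x := Algebra.IsIntegral.isIntegral x
  have hfin : Module.finrank (ZMod q) (GaloisField q n) = n := GaloisField.finrank q hn0
  have hdeg : (minpoly (ZMod q) x).natDegree = n :=
    ((Field.primitive_element_iff_minpoly_natDegree_eq (ZMod q) x).mp hx).trans hfin
  refine ⟨GaloisField q n, inferInstance, inferInstance, Classical.decEq _, inferInstance, x,
    ?_, ?_, ?_⟩
  · have := GaloisField.card q n hn0
    rwa [Nat.card_eq_fintype_card] at this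
  · have h1 := IntermediateField.adjoin_simple_toSubalgebra_of_isAlgebraic hint.isAlgebraic
    rw [hx] at h1
    rw [← h1]
    rfl
  · intro p hp h0
    by_contra hne
    have h1 := minpoly.degree_le_of_ne_zero (ZMod q) x hne h0
    have h2 := Polynomial.natDegree_le_natDegree h1
    omega

end H98CO
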