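import Pool.Agent.Lib_helper64.Cut.Est
import Pool.Agent.Lib_helper64.Cut.Conv

/-!
# The noise family and the growth of the subspaces
-/

set_option autoImplicit false
set_option linter.unusedSectionVars false

namespace H98CO

open Finset Matrix Matrix.SpecialLinearGroup Pool.Agent.Lib_helper64.Cut Module Polynomial

/-- index set of the noise -/
abbrev NI := Option ({p : Fin 3 × Fin 3 // p.1 ≠ p.2} × Fin 4)

section

variable {k : Type*} [Field k]

/-- the noise steps -/
noncomputable def nz (k : Type*) [Field k] : NI → SL3 k[X]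
  | none => 1
  | some t => El t.1.2 ((![1, -1, X, -X] : Fin 4 → k[X]) t.2)

lemma el_entry {R : Type*} [CommRing R] {i j : Fin 3} (h : i ≠ j) (t : R) (a b : Fin 3) :
    (El h t).1 a b = (1 : Matrix (Fin 3) (Fin 3) R) a b + (Matrix.single i j t) a b := rfl

lemma natDegree_El_le {i j : Fin 3} (h : i ≠ j) (t : k[X]) (ht : t.natDegree ≤ 1)
    (a b : Fin 3) : ((El h t).1 a b).natDegree ≤ 1 := by
  rw [el_entry]
  refine (natDegree_add_le _ _).trans (max_le ?_ ?_)
  · rw [Matrix.one_apply]
    split_ifs <;> simp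
  · rw [Matrix.single_apply]
    split_ifs
    · exact ht
    · simp

lemma natDegree_coef_le (c : Fin 4) : (((![1, -1, X, -X] : Fin 4 → k[X]) c)).natDegree ≤ 1 := by
  fin_cases c <;> simp

lemma el_inv {R : Type*} [CommRing R] {i j : Fin 3} (h : i ≠ j) (t : R) :
    (El h t)⁻¹ = El h (-t) := transvection_inv h t

lemma nz_degOne (i : NI) : DegOne (nz k i) := by
  rcases i with _ | t
  · constructor
    · intro i j
      change ((1 : Matrix (Fin 3) (Fin 3) k[X]) i j).natDegree ≤ 1
      rw [Matrix.one_apply]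
      split_ifs <;> simp
    · intro i j
      change (((1 : SL3 k[X])⁻¹).1 i j).natDegree ≤ 1
      rw [inv_one]
      change ((1 : Matrix (Fin 3) (Fin 3) k[X]) i j).natDegree ≤ 1
      rw [Matrix.one_apply]
      split_ifs <;> simp
  · constructor
    · exact fun i j => natDegree_El_le t.1.2 _ (natDegree_coef_le _) i j
    · intro i j
      change (((El t.1.2 ((![1, -1, X, -X] : Fin 4 → k[X]) t.2))⁻¹).1 i j).natDegree ≤ 1
      rw [el_inv]
      refine natDegree_El_le t.1.2 _ ?_ _ _
      rw [natDegree_neg]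
      exact natDegree_coef_le _

variable {K : Type*} [Field K] [Algebra k K]

lemma mapS_El (x : K) {i j : Fin 3} (h : i ≠ j) (t : k[X]) :
    mapS x (El h t) = El h (aeval x t) := by
  apply Subtype.ext
  apply Matrix.ext
  intro a b
  rw [mapS_apply, el_entry, el_entry, map_add]
  congr 1
  · rw [Matrix.one_apply, Matrix.one_apply]
    split_ifs <;> simp
  · rw [Matrix.single_apply, Matrix.single_apply]
    split_ifs <;> simp

lemma mapS_mainEl (x : K) (u φ : Fin 3 → k) (h : φ ⬝ᵥ u = 0) :
    mapS x (mainEl (X : k[X]) u φ h) = mainEl x u φ h := by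
  apply Subtype.ext
  apply Matrix.ext
  intro a b
  rw [mapS_apply]
  change aeval x (mainM (X : k[X]) u φ a b) = mainM x u φ a b
  simp only [mainM, Matrix.add_apply, vecMulVec_apply, Pi.smul_apply, smul_eq_mul, lift, map_add,
    map_mul, aeval_X]
  congr 1
  · rw [Matrix.one_apply, Matrix.one_apply]
    split_ifs <;> simp
  · have h1 : ∀ c : k, (aeval x) (algebraMap k k[X] c) = algebraMap k K c := fun c => aeval_C x c
    rw [h1, h1]

lemma mapS_nz_none (x : K) : mapS x (nz k none) = 1 := by
  change mapS x (1 : SL3 k[X]) = 1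
  exact map_one _

lemma exists_nz [DecidableEq K] (x : K) (s : SL3 K) (hs : s ∈ genP x) :
    ∃ i : NI, mapS x (nz k i) = s := by
  unfold genP at hs
  obtain ⟨p, -, hs⟩ := Finset.mem_biUnion.mp hs
  obtain ⟨t, ht, rfl⟩ := Finset.mem_image.mp hs
  simp only [Finset.mem_insert, Finset.mem_singleton] at ht
  rcases ht with ht | ht | ht | ht
  · refine ⟨some (p, 0), ?_⟩
    rw [ht]
    change mapS x (El p.2 (1 : k[X])) = _
    rw [mapS_El, map_one]
  · refine ⟨some (p, 1), ?_⟩
    rw [ht]
    change mapS x (El p.2 (-1 : k[X])) = _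
    rw [mapS_El, map_neg, map_one]
  · refine ⟨some (p, 2), ?_⟩
    rw [ht]
    change mapS x (El p.2 (X : k[X])) = _
    rw [mapS_El, aeval_X]
  · refine ⟨some (p, 3), ?_⟩
    rw [ht]
    change mapS x (El p.2 (-X : k[X])) = _
    rw [mapS_El, map_neg, aeval_X]

/-! ### growth -/

/-- vectors with polynomial entries of degree at most `j` -/
def WW (k : Type*) {K : Type*} [Field k] [Field K] [Algebra k K] (x : K) (j : ℕ) :
    Submodule k (Fin 3 → K) :=
  Submodule.span k (Set.range fun t : Fin (j + 1) × Fin 3 => (Pi.single t.2 (x ^ t.1.1) : Fin 3 → K))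

lemma single_mem_WW (x : K) (j i : ℕ) (hi : i ≤ j) (l : Fin 3) :
    (Pi.single l (x ^ i) : Fin 3 → K) ∈ WW k x j :=
  Submodule.subset_span ⟨(⟨i, by omega⟩, l), rfl⟩

lemma lift_mem_WW (x : K) (j i : ℕ) (hi : i ≤ j) (u : Fin 3 → k) :
    (x ^ i) • lift K u ∈ WW k x j := by
  have : (x ^ i) • lift K u = ∑ l, u l • (Pi.single l (x ^ i) : Fin 3 → K) := by
    ext m
    rw [Finset.sum_apply]
    simp only [Pi.smul_apply, lift, smul_eq_mul]
    rw [Finset.sum_eq_single m]
    · rw [Pi.single_eq_same, Algebra.smul_def, mul_comm]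
    · intro b _ hb
      rw [Pi.single_eq_of_ne (Ne.symm hb), smul_zero]
    · simp
  rw [this]
  exact Submodule.sum_mem _ fun l _ => Submodule.smul_mem _ _ (single_mem_WW x j i hi l)

/-- a step of the first type -/
def Ty1 (k : Type*) {K : Type*} [Field k] [Field K] [Algebra k K] (x : K) (a : SL3 K) : Prop :=
  ∃ u φ : Fin 3 → k, ∀ y : Fin 3 → K, a • y = y + (x * (lift K φ ⬝ᵥ y)) • lift K u

/-- a step of the second type -/
def Ty2 (k : Type*) {K : Type*} [Field k] [Field K] [Algebra k K] (a : SL3 K) : Prop :=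
  ∃ M : Matrix (Fin 3) (Fin 3) k, a.1 = M.map (algebraMap k K)

lemma grow_step (x : K) (j : ℕ) (a : SL3 K) (ha : Ty1 k x a ∨ Ty2 k a) :
    ∃ z : Fin 3 → K, smulS a (WW k x j) ≤ WW k x j ⊔ Submodule.span k {z} := by
  rcases ha with ⟨u, φ, h⟩ | ⟨M, h⟩
  · refine ⟨(x ^ (j + 1)) • lift K u, ?_⟩
    unfold smulS WW
    rw [Submodule.map_span_le]
    rintro v ⟨⟨i, l⟩, rfl⟩
    change a • (Pi.single l (x ^ i.1) : Fin 3 → K) ∈ _
    rw [h]
    refine Submodule.add_mem _ (Submodule.mem_sup_left (Submodule.subset_span ⟨(i, l), rfl⟩)) ?_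
    have e1 : (x * (lift K φ ⬝ᵥ (Pi.single l (x ^ i.1) : Fin 3 → K))) • lift K u =
        φ l • ((x ^ (i.1 + 1)) • lift K u) := by
      rw [dotProduct_single, lift]
      ext m
      simp only [Pi.smul_apply, smul_eq_mul]
      rw [Algebra.smul_def]
      ring
    rw [e1]
    refine Submodule.smul_mem _ _ ?_
    by_cases hi : i.1 + 1 ≤ j
    · exact Submodule.mem_sup_left (lift_mem_WW x j _ hi u)
    · have : i.1 + 1 = j + 1 := by have := i.2; omega
      rw [this]
      exact Submodule.mem_sup_right (Submodule.mem_span_singleton_self _)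
  · refine ⟨0, ?_⟩
    refine le_trans ?_ le_sup_left
    unfold smulS WW
    rw [Submodule.map_span_le]
    rintro v ⟨⟨i, l⟩, rfl⟩
    change a.1 *ᵥ (Pi.single l (x ^ i.1) : Fin 3 → K) ∈ _
    have e1 : a.1 *ᵥ (Pi.single l (x ^ i.1) : Fin 3 → K) =
        ∑ m, M m l • (Pi.single m (x ^ i.1) : Fin 3 → K) := by
      ext m
      rw [Finset.sum_apply, Finset.sum_eq_single m]
      · rw [h, mulVec_single]
        simp only [Pi.smul_apply, Pi.single_eq_same, MulOpposite.smul_eq_mul_unop,
          MulOpposite.unop_op]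
        rw [Algebra.smul_def]
        rfl
      · intro b _ hb
        rw [Pi.smul_apply, Pi.single_eq_of_ne (Ne.symm hb), smul_zero]
      · simp
    rw [e1]
    exact Submodule.sum_mem _ fun m _ => Submodule.smul_mem _ _ (Submodule.subset_span ⟨(i, m), rfl⟩)

variable [Fintype k] [Fintype K]

lemma card_WW_le (x : K) (j : ℕ) :
    Nat.card (WW k x j) ≤ Fintype.card k ^ (3 * (j + 1)) := by
  rw [Module.natCard_eq_pow_finrank (K := k), Nat.card_eq_fintype_card]
  refine Nat.pow_le_pow_right Fintype.card_pos ?_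
  have := finrank_range_le_card (R := k)
    (fun t : Fin (j + 1) × Fin 3 => (Pi.single t.2 (x ^ t.1.1) : Fin 3 → K))
  rw [Set.finrank] at this
  refine le_trans this (le_of_eq ?_)
  simp [mul_comm]

lemma card_sup_span_le (F : Submodule k (Fin 3 → K)) (z : Fin 3 → K) :
    Nat.card (F ⊔ Submodule.span k {z} : Submodule k (Fin 3 → K)) ≤
      Nat.card F * Fintype.card k := by
  classical
  have h1 := card_sup_inf F (Submodule.span k {z})
  have h2 : Nat.card (Submodule.span k {z} : Submodule k (Fin 3 → K)) ≤ Fintype.card k := by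
    rw [Module.natCard_eq_pow_finrank (K := k), Nat.card_eq_fintype_card]
    calc Fintype.card k ^ finrank k (Submodule.span k {z} : Submodule k (Fin 3 → K))
        ≤ Fintype.card k ^ 1 := by
          refine Nat.pow_le_pow_right Fintype.card_pos ?_
          have := finrank_span_le_card (R := k) ({z} : Set (Fin 3 → K))
          simpa using this
      _ = _ := pow_one _
  have h3 : 1 ≤ Nat.card (F ⊓ Submodule.span k {z} : Submodule k (Fin 3 → K)) := Nat.card_pos
  calc Nat.card (F ⊔ Submodule.span k {z} : Submodule k (Fin 3 → K))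
      ≤ Nat.card (F ⊔ Submodule.span k {z} : Submodule k (Fin 3 → K)) *
        Nat.card (F ⊓ Submodule.span k {z} : Submodule k (Fin 3 → K)) :=
        Nat.le_mul_of_pos_right _ h3
    _ = Nat.card F * Nat.card (Submodule.span k {z} : Submodule k (Fin 3 → K)) := h1
    _ ≤ _ := Nat.mul_le_mul_left _ h2

lemma card_le_of_le {F F' : Submodule k (Fin 3 → K)} (h : F ≤ F') : Nat.card F ≤ Nat.card F' :=
  Nat.card_mono (Set.toFinite _) h

/-- **growth bound** -/
theorem card_Fw_le_of {ι : Type*} (x : K) (κ h : ℕ) (b : ι → SL3 K)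
    (hb : ∀ i, Ty1 k x (b i)⁻¹ ∨ Ty2 k (b i)⁻¹) (w : List ι) :
    Nat.card (Fw (V00 k x κ h) b w) ≤
      Fintype.card k ^ (3 * ((κ - 1) * h + 1) + w.length) := by
  classical
  set j := (κ - 1) * h with hj
  have hV : V00 k x κ h ≤ WW k x j := by
    unfold V00
    rw [Submodule.span_le]
    rintro v ⟨⟨r, l⟩, rfl⟩
    refine single_mem_WW x j _ ?_ l
    rw [hj]
    exact Nat.mul_le_mul_right h (by have := r.2; omega)
  have key : Nat.card (WW k x j ⊔ Fw (V00 k x κ h) b w : Submodule k (Fin 3 → K)) ≤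
      Fintype.card k ^ (3 * (j + 1) + w.length) := by
    induction w with
    | nil =>
      rw [Fw, sup_bot_eq, List.length_nil, add_zero]
      exact card_WW_le x j
    | cons i w ih =>
      obtain ⟨z, hz⟩ := grow_step (k := k) x j (b i)⁻¹ (hb i)
      have h1 : WW k x j ⊔ Fw (V00 k x κ h) b (i :: w) ≤
          smulS (b i) ((WW k x j ⊔ Fw (V00 k x κ h) b w) ⊔ Submodule.span k {z}) := by
        rw [Fw]
        refine sup_le ?_ (sup_le ?_ ?_)
        · intro v hv
          rw [mem_smulS]
          have h2 : (b i)⁻¹ • v ∈ smulS (b i)⁻¹ (WW k x j) := by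
            rw [mem_smulS, inv_inv, smul_inv_smul]
            exact hv
          have h3 := hz h2
          exact (sup_le_sup_right (le_sup_left : WW k x j ≤ WW k x j ⊔ Fw (V00 k x κ h) b w)
            (Submodule.span k {z})) h3
        · intro v hv
          rw [mem_smulS]
          have h2 : (b i)⁻¹ • v ∈ smulS (b i)⁻¹ (WW k x j) := by
            rw [mem_smulS, inv_inv, smul_inv_smul]
            exact hV hv
          have h3 := hz h2
          exact (sup_le_sup_right (le_sup_left : WW k x j ≤ WW k x j ⊔ Fw (V00 k x κ h) b w)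
            (Submodule.span k {z})) h3
        · exact smulS_mono _ (le_sup_of_le_left le_sup_right)
      calc Nat.card (WW k x j ⊔ Fw (V00 k x κ h) b (i :: w) : Submodule k (Fin 3 → K))
          ≤ Nat.card (smulS (b i) ((WW k x j ⊔ Fw (V00 k x κ h) b w) ⊔ Submodule.span k {z})) :=
            card_le_of_le h1
        _ = Nat.card ((WW k x j ⊔ Fw (V00 k x κ h) b w) ⊔ Submodule.span k {z} :
            Submodule k (Fin 3 → K)) := by
            classical
            exact card_smulS _ _
        _ ≤ Nat.card (WW k x j ⊔ Fw (V00 k x κ h) b w : Submodule k (Fin 3 → K)) *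
            Fintype.card k := card_sup_span_le _ _
        _ ≤ Fintype.card k ^ (3 * (j + 1) + w.length) * Fintype.card k :=
            Nat.mul_le_mul_right _ ih
        _ = _ := by rw [List.length_cons, ← pow_succ]; rfl
  exact (card_le_of_le le_sup_right).trans key

lemma step_ty [DecidableEq k] (x : K) (a : {p // p ∈ pairs k} ⊕ NI) :
    Ty1 k x (mapS x (stepM (nz k) a))⁻¹ ∨ Ty2 k (mapS x (stepM (nz k) a))⁻¹ := by
  rcases a with p | i
  · left
    refine ⟨-p.1.1, p.1.2, fun y => ?_⟩
    have h1 : (mapS x (stepM (nz k) (Sum.inl p)))⁻¹ =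
        mainEl x (-p.1.1) p.1.2 (by
          rw [dotProduct_neg, (mem_filter.mp p.2).2, neg_zero]) := by
      change (mapS x (mainEl (X : k[X]) p.1.1 p.1.2 (mem_filter.mp p.2).2))⁻¹ = _
      rw [mapS_mainEl, mainEl_inv]
    rw [h1]
    exact mainM_mulVec _ _ _ _
  · rcases i with _ | ⟨⟨⟨i, j⟩, hij⟩, c⟩
    · right
      refine ⟨1, ?_⟩
      have h1 : (mapS x (stepM (nz k) (Sum.inr none)))⁻¹ = 1 := by
        change (mapS x (nz k none))⁻¹ = 1
        rw [mapS_nz_none, inv_one]
      rw [h1]
      change (1 : Matrix (Fin 3) (Fin 3) K) = _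
      rw [Matrix.map_one _ (map_zero _) (map_one _)]
    · have h1 : (mapS x (stepM (nz k) (Sum.inr (some (⟨(i, j), hij⟩, c)))))⁻¹ =
          El hij (-(aeval x ((![1, -1, X, -X] : Fin 4 → k[X]) c))) := by
        change (mapS x (El hij _))⁻¹ = _
        rw [mapS_El, el_inv]
      rw [h1]
      have hconst : ∀ t : k, Ty2 k (El hij (algebraMap k K t)) := by
        intro t
        refine ⟨(El hij t).1, ?_⟩
        ext a b
        rw [Matrix.map_apply, el_entry, el_entry, map_add]
        congr 1
        · rw [Matrix.one_apply, Matrix.one_apply]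
          split_ifs <;> simp
        · rw [Matrix.single_apply, Matrix.single_apply]
          split_ifs <;> simp
      have hlin : ∀ t : k, Ty1 k x (El hij (algebraMap k K t * x)) := by
        intro t
        refine ⟨Pi.single i t, Pi.single j 1, fun y => ?_⟩
        change (El hij (algebraMap k K t * x)).1 *ᵥ y = _
        have e1 : lift K (Pi.single j 1 : Fin 3 → k) = Pi.single j 1 := by
          ext m
          simp only [lift, Pi.single_apply]
          split_ifs <;> simp
        have e2 : lift K (Pi.single i t : Fin 3 → k) = Pi.single i (algebraMap k K t) := by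
          ext m
          simp only [lift, Pi.single_apply]
          split_ifs <;> simp
        rw [e1, e2, single_one_dotProduct]
        have e3 : (El hij (algebraMap k K t * x)).1 = 1 + Matrix.single i j (algebraMap k K t * x) :=
          rfl
        rw [e3, Matrix.add_mulVec, Matrix.one_mulVec, Matrix.single_mulVec_eq]
        congr 1
        ext m
        simp only [Pi.smul_apply, Pi.single_apply, smul_eq_mul]
        split_ifs
        · ring
        · simp
      fin_cases c
      · right
        have := hconst (-1)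
        simpa using this
      · right
        have := hconst 1
        simpa using this
      · left
        have := hlin (-1)
        simpa using this
      · left
        have := hlin 1
        simpa using this

/-- **K1** -/
theorem card_Fw_le [DecidableEq k] (x : K) (κ h : ℕ) (w : List ({p // p ∈ pairs k} ⊕ NI)) :
    Nat.card (Fw (V00 k x κ h) (fun i => mapS x (stepM (nz k) i)) w) ≤
      Fintype.card k ^ (3 * ((κ - 1) * h + 1) + w.length) :=
  card_Fw_le_of x κ h _ (step_ty x) w

end

/-- **K3** -/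
theorem card_SL3_le (K : Type*) [Field K] [Fintype K] [DecidableEq K] :
    Fintype.card (SL3 K) ≤ 2 * Fintype.card K ^ 8 := by
  classical
  set Q := Fintype.card K with hQ
  have hQ2 : 2 ≤ Q := Fintype.one_lt_card
  have h1 : Fintype.card (SL3 K × {t : K // t ≠ 0}) ≤ Fintype.card (Fin 3 → Fin 3 → K) := by
    refine Fintype.card_le_of_injective
      (fun p => fun i j => if i = 0 then p.2.1 * p.1.1 0 j else p.1.1 i j) ?_
    rintro ⟨A, t⟩ ⟨B, s⟩ h
    have h0 : ∀ j, t.1 * A.1 0 j = s.1 * B.1 0 j := fun j => by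
      simpa using congrFun (congrFun h 0) j
    have h1 : ∀ j, A.1 1 j = B.1 1 j := fun j => by
      simpa using congrFun (congrFun h 1) j
    have h2 : ∀ j, A.1 2 j = B.1 2 j := fun j => by
      simpa using congrFun (congrFun h 2) j
    have dA := A.2
    have dB := B.2
    rw [Matrix.det_fin_three] at dA dB
    have hts : t.1 = s.1 := by
      have e1 : t.1 = t.1 * (A.1 0 0 * A.1 1 1 * A.1 2 2 - A.1 0 0 * A.1 1 2 * A.1 2 1 -
        A.1 0 1 * A.1 1 0 * A.1 2 2 + A.1 0 1 * A.1 1 2 * A.1 2 0 + A.1 0 2 * A.1 1 0 * A.1 2 1 -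
        A.1 0 2 * A.1 1 1 * A.1 2 0) := by rw [dA, mul_one]
      have e2 : s.1 = s.1 * (B.1 0 0 * B.1 1 1 * B.1 2 2 - B.1 0 0 * B.1 1 2 * B.1 2 1 -
        B.1 0 1 * B.1 1 0 * B.1 2 2 + B.1 0 1 * B.1 1 2 * B.1 2 0 + B.1 0 2 * B.1 1 0 * B.1 2 1 -
        B.1 0 2 * B.1 1 1 * B.1 2 0) := by rw [dB, mul_one]
      rw [e1, e2]
      simp only [h1, h2]
      linear_combination (B.1 1 1 * B.1 2 2 - B.1 1 2 * B.1 2 1) * h0 0 -
        (B.1 1 0 * B.1 2 2 - B.1 1 2 * B.1 2 0) * h0 1 +
        (B.1 1 0 * B.1 2 1 - B.1 1 1 * B.1 2 0) * h0 2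
    have hA0 : ∀ j, A.1 0 j = B.1 0 j := by
      intro j
      have := h0 j
      rw [hts] at this
      exact mul_left_cancel₀ s.2 this
    refine Prod.ext ?_ (Subtype.ext hts)
    apply Subtype.ext
    apply Matrix.ext
    intro i j
    fin_cases i
    · exact hA0 j
    · exact h1 j
    · exact h2 j
  have h2 : Fintype.card {t : K // t ≠ 0} = Q - 1 := by
    rw [Fintype.card_subtype_compl, Fintype.card_subtype_eq]
  rw [Fintype.card_prod, h2] at h1
  simp only [Fintype.card_fun, Fintype.card_fin] at h1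
  rw [← pow_mul] at h1
  have h3 : Fintype.card (SL3 K) * (Q - 1) * 2 ≤ (2 * Q ^ 8) * (Q - 1) * 2 := by
    calc Fintype.card (SL3 K) * (Q - 1) * 2 ≤ Q ^ (3 * 3) * 2 := Nat.mul_le_mul_right _ h1
      _ = Q ^ 8 * (2 * Q) := by ring
      _ ≤ Q ^ 8 * (2 * (2 * (Q - 1))) := by
          refine Nat.mul_le_mul_left _ ?_
          omega
      _ = _ := by ring
  have h4 : 0 < (Q - 1) * 2 := by omega
  refine Nat.le_of_mul_le_mul_right ?_ h4
  calc Fintype.card (SL3 K) * ((Q - 1) * 2) = Fintype.card (SL3 K) * (Q - 1) * 2 := by ring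
    _ ≤ _ := h3
    _ = _ := by ring

end H98CO
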