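import Pool.Agent.Lib_helper98.CO.Supp
import Pool.Agent.Lib_helper98.CO.Noise

/-!
# Masses of the generators
-/

set_option autoImplicit false
set_option linter.unusedSectionVars false

namespace H98CO

open Finset Matrix Pool.Agent.Lib_helper64.Cut Module Polynomial

variable {k K : Type*} [Field k] [Fintype k] [DecidableEq k] [Field K] [Algebra k K] [Fintype K]
  [DecidableEq K]

lemma card_V00_le (x : K) (κ h : ℕ) : Nat.card (V00 k x κ h) ≤ Fintype.card k ^ (3 * κ) := by
  rw [Module.natCard_eq_pow_finrank (K := k), Nat.card_eq_fintype_card]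
  refine Nat.pow_le_pow_right Fintype.card_pos ?_
  have := finrank_range_le_card (R := k)
    (fun t : Fin κ × Fin 3 => (Pi.single t.2 (x ^ (t.1.1 * h)) : Fin 3 → K))
  rw [Set.finrank] at this
  refine le_trans this (le_of_eq ?_)
  simp [mul_comm]

lemma single_mem_V00 (x : K) (κ h : ℕ) (hκ : 0 < κ) (l : Fin 3) :
    (Pi.single l 1 : Fin 3 → K) ∈ V00 k x κ h := by
  refine Submodule.subset_span ⟨(⟨0, hκ⟩, l), ?_⟩
  simp

/-- **masses** -/
theorem le_pw (J : ℕ) (x : K) (κ h : ℕ) (hκ : 0 < κ) (ρ : ℝ) (hρ : 0 ≤ ρ) (gs : List (SL3 K))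
    (hgs : (gs.length : ℝ) * ρ ≤ 1) (s : Sdp (SL3 K) (Fin J → Fin 3 → K)) (hs : s ∈ genG J x) :
    (1 - gs.length * ρ) * (((Fintype.card k : ℝ) ^ 4)⁻¹ / Fintype.card NI *
      (((Fintype.card k : ℝ) ^ (3 * κ)) ^ J)⁻¹) ≤
      pw J (V00 k x κ h) (stepC k NI) (fun i => mapS x (stepM (nz k) i)) ρ gs s := by
  have hq : (0 : ℝ) < Fintype.card k := card_pos'
  -- it is enough to bound the main part
  have key : ∀ (i : NI) (v : Fin J → Fin 3 → K), (∀ j, v j ∈ V00 k x κ h) →
      (1 - gs.length * ρ) * (((Fintype.card k : ℝ) ^ 4)⁻¹ / Fintype.card NI *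
      (((Fintype.card k : ℝ) ^ (3 * κ)) ^ J)⁻¹) ≤
      pw J (V00 k x κ h) (stepC k NI) (fun i => mapS x (stepM (nz k) i)) ρ gs
        ⟨v, mapS x (nz k i)⟩ := by
    intro i v hv
    have h1 := le_p0 J (V00 k x κ h) (stepC k NI) stepC_nonneg
      (fun i => mapS x (stepM (nz k) i)) (Sum.inr i) v hv
    have h2 : (0 : ℝ) ≤ (gs.map fun g => dl (⟨0, g⟩ : Sdp (SL3 K) (Fin J → Fin 3 → K))
        (⟨v, mapS x (nz k i)⟩ : Sdp (SL3 K) (Fin J → Fin 3 → K))).sum := by
      refine List.sum_nonneg fun y hy => ?_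
      obtain ⟨g', -, rfl⟩ := List.mem_map.mp hy
      unfold dl
      split_ifs <;> norm_num
    have h3 : ((Fintype.card k : ℝ) ^ 4)⁻¹ / Fintype.card NI *
        (((Fintype.card k : ℝ) ^ (3 * κ)) ^ J)⁻¹ ≤
        stepC k NI (Sum.inr i) * ((Nat.card (V00 k x κ h) : ℝ) ^ J)⁻¹ := by
      have e1 : stepC k NI (Sum.inr i) = ((Fintype.card k : ℝ) ^ 4)⁻¹ / Fintype.card NI := rfl
      rw [e1]
      have h4 : (Nat.card (V00 k x κ h) : ℝ) ≤ (Fintype.card k : ℝ) ^ (3 * κ) := by
        exact_mod_cast card_V00_le x κ h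
      have h5 : (0 : ℝ) < Nat.card (V00 k x κ h) := card_sub_pos _
      gcongr
    have h6 : 0 ≤ 1 - gs.length * ρ := by linarith
    unfold pw
    have h7 := mul_le_mul_of_nonneg_left (h3.trans h1) h6
    have h8 := mul_nonneg hρ h2
    have h9 : stepM (nz k) (Sum.inr i : {p // p ∈ pairs k} ⊕ NI) = nz k i := rfl
    simp only [h9] at h7
    linarith
  unfold genG at hs
  rcases Finset.mem_insert.mp hs with rfl | hs
  · have := key none 0 (fun j => Submodule.zero_mem _)
    rw [mapS_nz_none] at this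
    exact this
  rcases Finset.mem_union.mp hs with hs | hs
  · obtain ⟨a, ha, rfl⟩ := Finset.mem_image.mp hs
    obtain ⟨i, hi⟩ := exists_nz (k := k) x a ha
    have := key i 0 (fun j => Submodule.zero_mem _)
    rw [hi] at this
    exact this
  · obtain ⟨⟨l, i⟩, -, hs⟩ := Finset.mem_biUnion.mp hs
    simp only [Finset.mem_insert, Finset.mem_singleton] at hs
    have hmem : ∀ j, (Pi.single l (Pi.single i 1) : Fin J → Fin 3 → K) j ∈ V00 k x κ h := by
      intro j
      by_cases hj : j = l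
      · subst hj
        rw [Pi.single_eq_same]
        exact single_mem_V00 x κ h hκ i
      · rw [Pi.single_eq_of_ne hj]
        exact Submodule.zero_mem _
    rcases hs with rfl | rfl
    · have := key none _ hmem
      rw [mapS_nz_none] at this
      exact this
    · have := key none (-Pi.single l (Pi.single i 1)) (fun j => Submodule.neg_mem _ (hmem j))
      rw [mapS_nz_none] at this
      exact this

lemma pw_nonneg {ι : Type*} [Fintype ι] (J : ℕ) (V0 : Submodule k (Fin 3 → K)) (c : ι → ℝ)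
    (hc : ∀ i, 0 ≤ c i) (b : ι → SL3 K) (ρ : ℝ) (hρ : 0 ≤ ρ) (gs : List (SL3 K))
    (hgs : (gs.length : ℝ) * ρ ≤ 1) (x : Sdp (SL3 K) (Fin J → Fin 3 → K)) :
    0 ≤ pw J V0 c b ρ gs x := by
  unfold pw
  refine add_nonneg (mul_nonneg (by linarith) (p0_nonneg J V0 c hc b x)) (mul_nonneg hρ ?_)
  refine List.sum_nonneg fun y hy => ?_
  obtain ⟨g', -, rfl⟩ := List.mem_map.mp hy
  unfold dl
  split_ifs <;> norm_num

lemma pw_sum {ι : Type*} [Fintype ι] (J : ℕ) (V0 : Submodule k (Fin 3 → K)) (c : ι → ℝ)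
    (hc : ∑ i, c i = 1) (b : ι → SL3 K) (ρ : ℝ) (gs : List (SL3 K)) :
    ∑ x : Sdp (SL3 K) (Fin J → Fin 3 → K), pw J V0 c b ρ gs x = 1 := by
  unfold pw
  rw [Finset.sum_add_distrib, ← Finset.mul_sum, ← Finset.mul_sum, p0_sum J V0 c hc b]
  have h1 : ∀ l : List (SL3 K), ∑ x : Sdp (SL3 K) (Fin J → Fin 3 → K),
      (l.map fun g => dl (⟨0, g⟩ : Sdp (SL3 K) (Fin J → Fin 3 → K)) x).sum = l.length := by
    intro l
    induction l with
    | nil => simp
    | cons g l ih =>
      simp only [List.map_cons, List.sum_cons, List.length_cons]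
      rw [Finset.sum_add_distrib, ih]
      simp only [dl, Finset.sum_ite_eq', Finset.mem_univ, if_true]
      push_cast
      ring
  rw [h1]
  ring

end H98CO
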