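import Mathlib

/-!
# No cut-off from two times
-/

set_option autoImplicit false

namespace H98CO

open Filter Topology
open scoped Pointwise

/-- one step of the walk with law `p` (exactly as in the frozen statement) -/
def stp {G : Type} [Group G] [Fintype G] (p : G → ℝ) : (G → ℝ) → (G → ℝ) :=
  fun q : G → ℝ => fun x : G => ∑ h : G, q h * p (h⁻¹ * x)

/-- total variation distance to uniform after `j` steps -/
noncomputable def tv {G : Type} [Group G] [Fintype G] [DecidableEq G] (p : G → ℝ) (j : ℕ) : ℝ :=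
  (1 / 2 : ℝ) * ∑ g : G, |(stp p)^[j] (fun x : G => if x = 1 then (1 : ℝ) else 0) g
            - 1 / (Fintype.card G : ℝ)|

section

variable {G : Type} [Group G] [Fintype G]

lemma sum_shift (p : G → ℝ) (h : G) : ∑ x : G, p (h⁻¹ * x) = ∑ x : G, p x :=
  Fintype.sum_equiv (Equiv.mulLeft h⁻¹) _ _ fun _ => rfl

lemma sum_shift' (p : G → ℝ) (x : G) : ∑ h : G, p (h⁻¹ * x) = ∑ h : G, p h :=
  Fintype.sum_equiv ((Equiv.inv G).trans (Equiv.mulRight x)) _ _ fun _ => rfl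

lemma l1_contract (p : G → ℝ) (hp0 : ∀ g, 0 ≤ p g) (hp1 : ∑ g, p g = 1) (q : G → ℝ) (c : ℝ) :
    ∑ g, |stp p q g - c| ≤ ∑ g, |q g - c| := by
  have h1 : ∀ g, |stp p q g - c| ≤ ∑ h, |q h - c| * p (h⁻¹ * g) := by
    intro g
    have e1 : stp p q g - c = ∑ h, (q h - c) * p (h⁻¹ * g) := by
      unfold stp
      simp only [sub_mul]
      rw [Finset.sum_sub_distrib, ← Finset.mul_sum, sum_shift', hp1, mul_one]
    rw [e1]
    refine (Finset.abs_sum_le_sum_abs _ _).trans (le_of_eq ?_)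
    refine Finset.sum_congr rfl fun h _ => ?_
    rw [abs_mul, abs_of_nonneg (hp0 _)]
  refine (Finset.sum_le_sum fun g _ => h1 g).trans (le_of_eq ?_)
  rw [Finset.sum_comm]
  refine Finset.sum_congr rfl fun h _ => ?_
  rw [← Finset.mul_sum, sum_shift, hp1, mul_one]

variable [DecidableEq G]

lemma tv_succ_le (p : G → ℝ) (hp0 : ∀ g, 0 ≤ p g) (hp1 : ∑ g, p g = 1) (j : ℕ) :
    tv p (j + 1) ≤ tv p j := by
  unfold tv
  rw [Function.iterate_succ_apply']
  have := l1_contract p hp0 hp1 ((stp p)^[j] (fun x : G => if x = 1 then (1 : ℝ) else 0))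
    (1 / (Fintype.card G : ℝ))
  linarith

lemma tv_anti (p : G → ℝ) (hp0 : ∀ g, 0 ≤ p g) (hp1 : ∑ g, p g = 1) {i j : ℕ} (h : i ≤ j) :
    tv p j ≤ tv p i := by
  induction j, h using Nat.le_induction with
  | base => exact le_rfl
  | succ j _ ih => exact (tv_succ_le p hp0 hp1 j).trans ih

end

/-- If at time `T1` the walk is not far from uniform (distance `≤ 1 - c`) and at time
`T2 ≥ (29/24) T1` it is still at distance `≥ c`, there is no cut-off. -/
theorem no_cutoff (G : ℕ → Type) [∀ n, Group (G n)] [∀ n, Fintype (G n)]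
    [∀ n, DecidableEq (G n)] (p : ∀ n, G n → ℝ) (hp0 : ∀ n, ∀ g : G n, 0 ≤ p n g)
    (hp1 : ∀ n, ∑ g : G n, p n g = 1) (c : ℝ) (hc : 0 < c) (T1 T2 : ℕ → ℕ)
    (h1 : ∃ᶠ n in atTop, tv (p n) (T1 n) ≤ 1 - c ∧ c ≤ tv (p n) (T2 n) ∧
      29 * T1 n ≤ 24 * T2 n) :
    ¬ ∃ t : ℕ → ℝ, Tendsto t atTop atTop ∧
      ∀ ε : ℝ, 0 < ε → ε < 1 →
        Tendsto (fun n => (1 / 2 : ℝ) * ∑ g : G n,
          |(fun q : G n → ℝ => fun x : G n => ∑ h : G n, q h * p n (h⁻¹ * x))^[⌈(1 + ε) * t n⌉₊]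
              (fun x : G n => if x = 1 then (1 : ℝ) else 0) g
            - 1 / (Fintype.card (G n) : ℝ)|) atTop (𝓝 0) ∧
        Tendsto (fun n => (1 / 2 : ℝ) * ∑ g : G n,
          |(fun q : G n → ℝ => fun x : G n => ∑ h : G n, q h * p n (h⁻¹ * x))^[⌊(1 - ε) * t n⌋₊]
              (fun x : G n => if x = 1 then (1 : ℝ) else 0) g
            - 1 / (Fintype.card (G n) : ℝ)|) atTop (𝓝 1) := by
  rintro ⟨t, ht, hcut⟩
  obtain ⟨hup, hlow⟩ := hcut (1 / 20) (by norm_num) (by norm_num)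
  have hup' : ∀ᶠ n in atTop, tv (p n) ⌈(1 + 1 / 20) * t n⌉₊ < c :=
    hup.eventually (gt_mem_nhds hc)
  have hlow' : ∀ᶠ n in atTop, 1 - c < tv (p n) ⌊(1 - 1 / 20) * t n⌋₊ :=
    hlow.eventually (lt_mem_nhds (by linarith))
  have ht' : ∀ᶠ n in atTop, 0 < t n := ht.eventually_gt_atTop 0
  obtain ⟨n, ⟨ha, hb, hT⟩, hu, hl, ht0⟩ := (h1.and_eventually (hup'.and (hlow'.and ht'))).exists
  have e1 : T2 n < ⌈(1 + 1 / 20) * t n⌉₊ := by
    by_contra hcon
    push Not at hcon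
    have := tv_anti (p n) (hp0 n) (hp1 n) hcon
    linarith
  have e2 : ⌊(1 - 1 / 20) * t n⌋₊ < T1 n := by
    by_contra hcon
    push Not at hcon
    have := tv_anti (p n) (hp0 n) (hp1 n) hcon
    linarith
  have e3 : (T2 n : ℝ) < (1 + 1 / 20) * t n := Nat.lt_ceil.mp e1
  have e4 : (1 - 1 / 20) * t n < T1 n := (Nat.floor_lt (by positivity)).mp e2
  have e5 : (29 : ℝ) * T1 n ≤ 24 * T2 n := by exact_mod_cast hT
  linarith

end H98CO
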