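import Pool.Agent.Lib_helper64.Cut.Conv
import Pool.Agent.Lib_helper98.CO.NoCutoff

/-!
# Pattern expansion of the walk with rare steps
-/

set_option autoImplicit false
set_option linter.unusedSectionVars false

namespace H98CO

open Finset Pool.Agent.Lib_helper64.Cut

section cv

variable {G : Type} [Group G] [Fintype G]

lemma cv_apply (f g : G → ℝ) (x : G) : cv f g x = ∑ h, f h * g (h⁻¹ * x) := rfl

lemma cv_nonneg {f g : G → ℝ} (hf : ∀ x, 0 ≤ f x) (hg : ∀ x, 0 ≤ g x) (x : G) : 0 ≤ cv f g x :=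
  Finset.sum_nonneg fun _ _ => mul_nonneg (hf _) (hg _)

lemma cv_mono_right {f g g' : G → ℝ} (hf : ∀ x, 0 ≤ f x) (hg : ∀ x, g x ≤ g' x) (x : G) :
    cv f g x ≤ cv f g' x :=
  Finset.sum_le_sum fun _ _ => mul_le_mul_of_nonneg_left (hg _) (hf _)

lemma cv_mono_left {f f' g : G → ℝ} (hg : ∀ x, 0 ≤ g x) (hf : ∀ x, f x ≤ f' x) (x : G) :
    cv f g x ≤ cv f' g x :=
  Finset.sum_le_sum fun _ _ => mul_le_mul_of_nonneg_right (hf _) (hg _)

lemma cv_lin_right (f g g' : G → ℝ) (a b : ℝ) (x : G) :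
    cv f (fun y => a * g y + b * g' y) x = a * cv f g x + b * cv f g' x := by
  simp only [cv_apply, mul_add, Finset.sum_add_distrib, Finset.mul_sum]
  congr 1 <;> exact Finset.sum_congr rfl fun _ _ => by ring

lemma cv_lin_left (f f' g : G → ℝ) (a b : ℝ) (x : G) :
    cv (fun y => a * f y + b * f' y) g x = a * cv f g x + b * cv f' g x := by
  simp only [cv_apply, add_mul, Finset.sum_add_distrib, Finset.mul_sum]
  congr 1 <;> exact Finset.sum_congr rfl fun _ _ => by ring

lemma cv_smul_right (f g : G → ℝ) (a : ℝ) (x : G) :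
    cv f (fun y => a * g y) x = a * cv f g x := by
  simp only [cv_apply, Finset.mul_sum]
  exact Finset.sum_congr rfl fun _ _ => by ring

lemma cv_Ew {ι : Type*} [Fintype ι] (c : ι → ℝ) (n : ℕ) (f : G → ℝ) (F : List ι → G → ℝ) (x : G) :
    cv f (fun y => Ew c n (fun w => F w y)) x = Ew c n (fun w => cv f (F w) x) := by
  simp only [cv_apply]
  rw [Ew_finset_sum]
  exact Finset.sum_congr rfl fun h _ => by rw [Ew_mul_left]

variable [DecidableEq G]

lemma dl_one_cv (f : G → ℝ) : cv (dl 1) f = f := by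
  ext x
  simp [cv_apply, dl]

lemma cv_dl_one (f : G → ℝ) : cv f (dl 1) = f := by
  ext x
  rw [cv_apply, Finset.sum_eq_single x]
  · simp [dl]
  · intro b _ hb
    have : ¬ (b⁻¹ * x = 1) := fun h => hb (by rw [inv_mul_eq_one] at h; exact h)
    simp [dl, this]
  · simp

lemma dl_nonneg (a x : G) : 0 ≤ dl a x := by
  unfold dl; split_ifs <;> norm_num

/-- powers of a measure -/
abbrev po (p : G → ℝ) (l : ℕ) : G → ℝ := pwr p l

lemma po_eq (p : G → ℝ) (l : ℕ) : (stp p)^[l] (dl 1) = po p l := rfl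

lemma po_zero (p : G → ℝ) : po p 0 = dl 1 := rfl

lemma po_succ (p : G → ℝ) (l : ℕ) : po p (l + 1) = cv (po p l) p := pwr_succ p l

lemma po_succ' (p : G → ℝ) (l : ℕ) : po p (l + 1) = cv p (po p l) := by
  induction l with
  | zero => rw [po_succ, po_zero, dl_one_cv, cv_dl_one]
  | succ l ih =>
    calc po p (l + 1 + 1) = cv (po p (l + 1)) p := po_succ p (l + 1)
      _ = cv (cv p (po p l)) p := by rw [ih]
      _ = cv p (cv (po p l) p) := cv_assoc _ _ _
      _ = cv p (po p (l + 1)) := by rw [← po_succ]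

lemma po_nonneg {p : G → ℝ} (hp : ∀ x, 0 ≤ p x) (l : ℕ) (x : G) : 0 ≤ po p l x := by
  induction l generalizing x with
  | zero => exact dl_nonneg _ _
  | succ l ih => rw [po_succ]; exact cv_nonneg ih hp x

lemma po_sum {p : G → ℝ} (hp : ∑ x, p x = 1) (l : ℕ) : ∑ x, po p l x = 1 := by
  induction l with
  | zero => simp [po_zero, dl]
  | succ l ih =>
    rw [po_succ]
    simp only [cv_apply]
    rw [Finset.sum_comm]
    simp only [← Finset.mul_sum]
    simp only [sum_shift, hp, mul_one, ih]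

/-! ### overlap -/

lemma ov_mono {f g : G → ℝ} (h : ∀ x, f x ≤ g x) : ov f ≤ ov g :=
  Finset.sum_le_sum fun x _ => min_le_min (h x) le_rfl

lemma ov_sum_ge {α : Type*} (s : Finset α) (c : α → ℝ) (hc : ∀ i ∈ s, 0 ≤ c i)
    (hc1 : ∑ i ∈ s, c i ≤ 1) (F : α → G → ℝ) :
    ∑ i ∈ s, c i * ov (F i) ≤ ov (fun x => ∑ i ∈ s, c i * F i x) := by
  unfold ov
  simp only [Finset.mul_sum]
  rw [Finset.sum_comm]
  refine Finset.sum_le_sum fun x _ => le_min ?_ ?_
  · exact Finset.sum_le_sum fun i hi => mul_le_mul_of_nonneg_left (min_le_left _ _) (hc i hi)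
  · calc ∑ i ∈ s, c i * min (F i x) (Fintype.card G : ℝ)⁻¹
        ≤ ∑ i ∈ s, c i * (Fintype.card G : ℝ)⁻¹ :=
          Finset.sum_le_sum fun i hi => mul_le_mul_of_nonneg_left (min_le_right _ _) (hc i hi)
      _ = (∑ i ∈ s, c i) * (Fintype.card G : ℝ)⁻¹ := by rw [Finset.sum_mul]
      _ ≤ 1 * (Fintype.card G : ℝ)⁻¹ := by gcongr
      _ = _ := one_mul _

lemma ov_smul_ge (a : ℝ) (ha : 0 ≤ a) (ha1 : a ≤ 1) (f : G → ℝ) :
    a * ov f ≤ ov (fun x => a * f x) := by
  have := ov_sum_ge (Finset.univ : Finset Unit) (fun _ => a) (fun _ _ => ha) (by simpa using ha1)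
    (fun _ => f)
  simpa using this

lemma ov_Ew_ge {ι : Type*} [Fintype ι] {c : ι → ℝ} (hc : ∀ i, 0 ≤ c i) (hc1 : ∑ i, c i ≤ 1)
    (n : ℕ) (F : List ι → G → ℝ) :
    Ew c n (fun w => ov (F w)) ≤ ov (fun x => Ew c n (fun w => F w x)) := by
  induction n generalizing F with
  | zero => exact le_rfl
  | succ n ih =>
    simp only [Ew_succ]
    refine le_trans (Finset.sum_le_sum fun i _ =>
      mul_le_mul_of_nonneg_left (ih (fun w => F (i :: w))) (hc i)) ?_
    exact ov_sum_ge Finset.univ c (fun i _ => hc i) hc1 _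

lemma ov_cv_ge {f ν : G → ℝ} (hν : ∀ x, 0 ≤ ν x) (hν1 : ∑ x, ν x = 1) :
    ov f ≤ ov (cv f ν) := by
  unfold ov
  have h1 : ∑ x, min (f x) (Fintype.card G : ℝ)⁻¹ =
      ∑ x, ∑ h, min (f h) (Fintype.card G : ℝ)⁻¹ * ν (h⁻¹ * x) := by
    rw [Finset.sum_comm]
    refine Finset.sum_congr rfl fun h _ => ?_
    rw [← Finset.mul_sum, sum_shift, hν1, mul_one]
  rw [h1]
  refine Finset.sum_le_sum fun x _ => le_min ?_ ?_
  · exact Finset.sum_le_sum fun h _ => mul_le_mul_of_nonneg_right (min_le_left _ _) (hν _)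
  · calc ∑ h, min (f h) (Fintype.card G : ℝ)⁻¹ * ν (h⁻¹ * x)
        ≤ ∑ h, (Fintype.card G : ℝ)⁻¹ * ν (h⁻¹ * x) :=
          Finset.sum_le_sum fun h _ => mul_le_mul_of_nonneg_right (min_le_right _ _) (hν _)
      _ = _ := by rw [← Finset.mul_sum, sum_shift', hν1, mul_one]

/-- total variation and overlap -/
theorem tv_eq_one_sub_ov (p : G → ℝ) (hp1 : ∑ x, p x = 1) (T : ℕ) :
    tv p T = 1 - ov ((stp p)^[T] (dl 1)) := by
  have hG : (0 : ℝ) < Fintype.card G := by exact_mod_cast Fintype.card_pos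
  have h1 : ∑ x, po p T x = 1 := po_sum hp1 T
  change (1 / 2 : ℝ) * ∑ g : G, |po p T g - 1 / (Fintype.card G : ℝ)| = 1 - ov (po p T)
  have h2 : ∀ g, |po p T g - 1 / (Fintype.card G : ℝ)| =
      po p T g + (Fintype.card G : ℝ)⁻¹ - 2 * min (po p T g) (Fintype.card G : ℝ)⁻¹ := by
    intro g
    rw [one_div]
    rcases le_total (po p T g) (Fintype.card G : ℝ)⁻¹ with h | h
    · rw [min_eq_left h, abs_of_nonpos (by linarith)]; ring
    · rw [min_eq_right h, abs_of_nonneg (by linarith)]; ring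
  simp only [h2]
  rw [Finset.sum_sub_distrib, Finset.sum_add_distrib, h1, ← Finset.mul_sum, Finset.sum_const,
    Finset.card_univ, nsmul_eq_mul, mul_inv_cancel₀ hG.ne']
  unfold ov
  ring

/-- **Lower bound** by the size of the support. -/
theorem tv_lower (p p0 : G → ℝ) (lam : ℝ) (hlam : 0 ≤ lam) (hp0 : ∀ x, 0 ≤ p0 x)
    (hp01 : ∑ x, p0 x = 1) (hp : ∀ x, 0 ≤ p x) (hp1 : ∑ x, p x = 1)
    (hle : ∀ x, lam * p0 x ≤ p x) (T : ℕ) (S : Finset G)
    (hS : ∀ x, x ∉ S → (stp p0)^[T] (dl 1) x = 0) :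
    lam ^ T - S.card / Fintype.card G ≤ tv p T := by
  have hG : (0 : ℝ) < Fintype.card G := by exact_mod_cast Fintype.card_pos
  have hpow : ∀ T x, lam ^ T * po p0 T x ≤ po p T x := by
    intro T
    induction T with
    | zero => intro x; simp [po_zero]
    | succ T ih =>
      intro x
      rw [po_succ, po_succ]
      calc lam ^ (T + 1) * cv (po p0 T) p0 x
          = cv (fun y => lam ^ T * po p0 T y) (fun y => lam * p0 y) x := by
            rw [cv_smul_right]
            have : cv (fun y => lam ^ T * po p0 T y) p0 x = lam ^ T * cv (po p0 T) p0 x := by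
              simp only [cv_apply, Finset.mul_sum]
              exact Finset.sum_congr rfl fun _ _ => by ring
            rw [this]; ring
        _ ≤ cv (po p T) (fun y => lam * p0 y) x :=
            cv_mono_left (fun y => mul_nonneg hlam (hp0 y)) ih x
        _ ≤ cv (po p T) p x := cv_mono_right (po_nonneg hp T) hle x
  rw [tv_eq_one_sub_ov p hp1]
  change _ ≤ 1 - ov (po p T)
  have h1 : ∑ x, po p T x = 1 := po_sum hp1 T
  have h2 : ∑ x ∈ S, po p0 T x = 1 := by
    rw [← po_sum hp01 T]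
    refine Finset.sum_subset (Finset.subset_univ _) fun x _ hx => hS x hx
  have h3 : lam ^ T ≤ ∑ x ∈ S, po p T x := by
    calc lam ^ T = ∑ x ∈ S, lam ^ T * po p0 T x := by rw [← Finset.mul_sum, h2, mul_one]
      _ ≤ _ := Finset.sum_le_sum fun x _ => hpow T x
  have h4 : ov (po p T) ≤ (1 - ∑ x ∈ S, po p T x) + S.card / Fintype.card G := by
    unfold ov
    rw [← Finset.sum_add_sum_compl S]
    have e1 : ∑ x ∈ S, min (po p T x) (Fintype.card G : ℝ)⁻¹ ≤ S.card / Fintype.card G := by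
      calc _ ≤ ∑ _x ∈ S, (Fintype.card G : ℝ)⁻¹ := Finset.sum_le_sum fun x _ => min_le_right _ _
        _ = _ := by rw [Finset.sum_const, nsmul_eq_mul]; rfl
    have e2 : ∑ x ∈ Sᶜ, min (po p T x) (Fintype.card G : ℝ)⁻¹ ≤ 1 - ∑ x ∈ S, po p T x := by
      rw [← h1, ← Finset.sum_add_sum_compl S (po p T), add_sub_cancel_left]
      exact Finset.sum_le_sum fun x _ => min_le_left _ _
    linarith
  linarith

/-! ### patterns -/

/-- window expansion -/
lemma window (p p0 : G → ℝ) (lam ρ : ℝ) (hlam : 0 ≤ lam) (hp0 : ∀ x, 0 ≤ p0 x)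
    (hp : ∀ x, 0 ≤ p x) (g : G) (hg : ∀ x, lam * p0 x + ρ * dl g x ≤ p x) (T n j : ℕ)
    (hnj : n + j ≤ T) (x : G) :
    (∑ i ∈ Finset.range j, lam ^ (n + i) * ρ *
      cv (cv (po p0 (n + i)) (dl g)) (po p (T - (n + i) - 1)) x) +
      lam ^ (n + j) * cv (po p0 (n + j)) (po p (T - (n + j))) x ≤
      lam ^ n * cv (po p0 n) (po p (T - n)) x := by
  induction j with
  | zero => simp
  | succ j ih =>
    rw [Finset.sum_range_succ]
    have ih' := ih (by omega)
    refine le_trans ?_ ih'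
    have hT : T - (n + j) = (T - (n + j) - 1) + 1 := by omega
    have h1 : lam ^ (n + j) * cv (po p0 (n + j)) (po p (T - (n + j))) x ≥
        lam ^ (n + j) * cv (po p0 (n + j))
          (cv (fun y => lam * p0 y + ρ * dl g y) (po p (T - (n + j) - 1))) x := by
      refine mul_le_mul_of_nonneg_left ?_ (pow_nonneg hlam _)
      conv_rhs => rw [hT, po_succ']
      exact cv_mono_right (po_nonneg hp0 _) (cv_mono_left (po_nonneg hp _) hg) x
    have h2 : cv (po p0 (n + j))
          (cv (fun y => lam * p0 y + ρ * dl g y) (po p (T - (n + j) - 1))) x =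
        lam * cv (po p0 (n + (j + 1))) (po p (T - (n + (j + 1)))) x +
        ρ * cv (cv (po p0 (n + j)) (dl g)) (po p (T - (n + j) - 1)) x := by
      have e1 : cv (fun y => lam * p0 y + ρ * dl g y) (po p (T - (n + j) - 1)) =
          fun y => lam * cv p0 (po p (T - (n + j) - 1)) y +
            ρ * cv (dl g) (po p (T - (n + j) - 1)) y := by
        ext y
        exact cv_lin_left _ _ _ _ _ _
      rw [e1, cv_lin_right, ← cv_assoc, ← cv_assoc, ← po_succ]
      have e2 : T - (n + j) - 1 = T - (n + (j + 1)) := by omega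
      rw [e2]
      rfl
    rw [h2] at h1
    have e3 : lam ^ (n + (j + 1)) = lam ^ (n + j) * lam := by rw [← add_assoc, pow_succ]
    rw [e3]
    nlinarith [h1]

/-- total length used by a pattern -/
def tot (m : ℕ) (is : List (Fin m)) : ℕ := (is.map fun i : Fin m => 9 * m + (i : ℕ) + 1).sum

lemma pattern_ptwise (p p0 : G → ℝ) (lam ρ : ℝ) (hlam : 0 ≤ lam) (hlam1 : lam ≤ 1) (hρ : 0 ≤ ρ)
    (m : ℕ) (hm : 0 < m) (hp0 : ∀ x, 0 ≤ p0 x) (hp : ∀ x, 0 ≤ p x)
    (hbase : ∀ x, lam * p0 x ≤ p x) (gs : List G)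
    (hgs : ∀ g ∈ gs, ∀ x, lam * p0 x + ρ * dl g x ≤ p x) (T : ℕ) (hT : 10 * m * gs.length ≤ T)
    (x : G) :
    lam ^ T * ((m * ρ) ^ gs.length * Ew (fun _ : Fin m => (m : ℝ)⁻¹) gs.length (fun is =>
      cv (PMG p0 (is.map fun i : Fin m => 9 * m + (i : ℕ)) gs) (po p0 (T - tot m is)) x)) ≤
      po p T x := by
  have hmR : (0 : ℝ) < m := by exact_mod_cast hm
  induction gs generalizing T x with
  | nil =>
    simp only [List.length_nil, pow_zero, one_mul, Ew_zero, List.map_nil, PMG, dl_one_cv, tot,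
      List.sum_nil, Nat.sub_zero]
    clear hT
    induction T generalizing x with
    | zero => simp [po_zero]
    | succ T ih =>
      rw [po_succ, po_succ]
      calc lam ^ (T + 1) * cv (po p0 T) p0 x
          = cv (fun y => lam ^ T * po p0 T y) (fun y => lam * p0 y) x := by
            rw [cv_smul_right]
            have : cv (fun y => lam ^ T * po p0 T y) p0 x = lam ^ T * cv (po p0 T) p0 x := by
              simp only [cv_apply, Finset.mul_sum]
              exact Finset.sum_congr rfl fun _ _ => by ring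
            rw [this]; ring
        _ ≤ cv (po p T) (fun y => lam * p0 y) x :=
            cv_mono_left (fun y => mul_nonneg hlam (hp0 y)) ih x
        _ ≤ cv (po p T) p x := cv_mono_right (po_nonneg hp T) hbase x
  | cons g gs ih =>
    have hT' : 10 * m * gs.length + 10 * m ≤ T := by
      rw [List.length_cons] at hT
      linarith [hT]
    -- window expansion at `g`
    have w1 := window p p0 lam ρ hlam hp0 hp g (hgs g (by simp)) T 0 (9 * m)
      (by omega) x
    have w2 := window p p0 lam ρ hlam hp0 hp g (hgs g (by simp)) T (9 * m) m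
      (by omega) x
    have n1 : 0 ≤ ∑ i ∈ Finset.range (9 * m), lam ^ (0 + i) * ρ *
        cv (cv (po p0 (0 + i)) (dl g)) (po p (T - (0 + i) - 1)) x := by
      refine Finset.sum_nonneg fun i _ => mul_nonneg (mul_nonneg (pow_nonneg hlam _) hρ) ?_
      exact cv_nonneg (cv_nonneg (po_nonneg hp0 _) (dl_nonneg g)) (po_nonneg hp _) x
    have n2 : 0 ≤ lam ^ (9 * m + m) * cv (po p0 (9 * m + m)) (po p (T - (9 * m + m))) x :=
      mul_nonneg (pow_nonneg hlam _) (cv_nonneg (po_nonneg hp0 _) (po_nonneg hp _) x)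
    have w3 : ∑ i ∈ Finset.range m, lam ^ (9 * m + i) * ρ *
        cv (cv (po p0 (9 * m + i)) (dl g)) (po p (T - (9 * m + i) - 1)) x ≤ po p T x := by
      have e0 : lam ^ 0 * cv (po p0 0) (po p (T - 0)) x = po p T x := by
        rw [po_zero, dl_one_cv, pow_zero, one_mul, Nat.sub_zero]
      rw [e0] at w1
      rw [zero_add] at w1
      linarith
    refine le_trans ?_ w3
    -- bound each window term from below by induction
    have key : ∀ i : Fin m, lam ^ T * ρ * ((m * ρ) ^ gs.length *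
        Ew (fun _ : Fin m => (m : ℝ)⁻¹) gs.length (fun is =>
          cv (PMG p0 ((i :: is).map fun i : Fin m => 9 * m + (i : ℕ)) (g :: gs))
            (po p0 (T - tot m (i :: is))) x)) ≤
        lam ^ (9 * m + (i : ℕ)) * ρ *
          cv (cv (po p0 (9 * m + (i : ℕ))) (dl g)) (po p (T - (9 * m + (i : ℕ)) - 1)) x := by
      intro i
      have hi := i.2
      set l := 9 * m + (i : ℕ) with hl
      have ih' := ih (fun g' hg' => hgs g' (List.mem_cons_of_mem _ hg')) (T - l - 1) (by omega)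
      have e1 : cv (cv (po p0 l) (dl g)) (fun y => lam ^ (T - l - 1) * ((m * ρ) ^ gs.length *
          Ew (fun _ : Fin m => (m : ℝ)⁻¹) gs.length (fun is =>
          cv (PMG p0 (is.map fun i : Fin m => 9 * m + (i : ℕ)) gs)
            (po p0 (T - l - 1 - tot m is)) y))) x ≤
          cv (cv (po p0 l) (dl g)) (po p (T - l - 1)) x :=
        cv_mono_right (cv_nonneg (po_nonneg hp0 _) (dl_nonneg g)) ih' x
      rw [cv_smul_right, cv_smul_right, cv_Ew] at e1
      have e2 : ∀ is : List (Fin m), cv (cv (po p0 l) (dl g))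
          (cv (PMG p0 (is.map fun i : Fin m => 9 * m + (i : ℕ)) gs)
            (po p0 (T - l - 1 - tot m is))) =
          cv (PMG p0 ((i :: is).map fun i : Fin m => 9 * m + (i : ℕ)) (g :: gs))
            (po p0 (T - tot m (i :: is))) := by
        intro is
        rw [List.map_cons, PMG, ← cv_assoc]
        congr 2
        simp only [tot, List.map_cons, List.sum_cons]
        omega
      simp only [e2] at e1
      set E := Ew (fun _ : Fin m => (m : ℝ)⁻¹) gs.length (fun is =>
          cv (PMG p0 ((i :: is).map fun i : Fin m => 9 * m + (i : ℕ)) (g :: gs))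
            (po p0 (T - tot m (i :: is))) x) with hE
      have hPMG : ∀ (L : List ℕ) (gs : List G) (y : G), 0 ≤ PMG p0 L gs y := by
        intro L
        induction L with
        | nil => intro gs y; exact dl_nonneg _ _
        | cons l L ihL =>
          intro gs y
          cases gs with
          | nil => exact dl_nonneg _ _
          | cons g' gs' =>
            exact cv_nonneg (cv_nonneg (po_nonneg hp0 _) (dl_nonneg _)) (ihL gs') y
      have hE0 : 0 ≤ E := Ew_nonneg (fun _ => by positivity) fun is _ =>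
        cv_nonneg (hPMG _ _) (po_nonneg hp0 _) x
      have hpow : lam ^ T ≤ lam ^ l * lam ^ (T - l - 1) := by
        rw [← pow_add]
        exact pow_le_pow_of_le_one hlam hlam1 (by omega)
      calc lam ^ T * ρ * ((m * ρ) ^ gs.length * E)
          ≤ (lam ^ l * lam ^ (T - l - 1)) * ρ * ((m * ρ) ^ gs.length * E) := by
            gcongr
        _ = lam ^ l * ρ * (lam ^ (T - l - 1) * ((m * ρ) ^ gs.length * E)) := by ring
        _ ≤ _ := by
            refine mul_le_mul_of_nonneg_left e1 (mul_nonneg (pow_nonneg hlam _) hρ)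
    rw [← Fin.sum_univ_eq_sum_range (fun i => lam ^ (9 * m + i) * ρ *
        cv (cv (po p0 (9 * m + i)) (dl g)) (po p (T - (9 * m + i) - 1)) x) m]
    refine le_trans (le_of_eq ?_) (Finset.sum_le_sum fun i _ => key i)
    rw [List.length_cons, Ew_succ, ← Finset.mul_sum, ← Finset.mul_sum]
    simp only [← Finset.mul_sum]
    rw [pow_succ]
    field_simp

lemma pattern_const_le_one (B m T : ℕ) (ρ : ℝ) (hρ : 0 ≤ ρ) (hB : (B : ℝ) * ρ ≤ 1)
    (hT : 10 * m * B ≤ T) : (1 - B * ρ) ^ T * (m * ρ) ^ B ≤ 1 := by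
  rcases Nat.eq_zero_or_pos B with hB0 | hBpos
  · subst hB0
    simp
  have h1 : (1 - B * ρ) ^ T ≤ Real.exp (-(B * ρ * T)) := by
    have : 1 - B * ρ ≤ Real.exp (-(B * ρ)) := by
      have := Real.add_one_le_exp (-(B * ρ : ℝ))
      linarith
    calc (1 - B * ρ) ^ T ≤ (Real.exp (-(B * ρ))) ^ T :=
          pow_le_pow_left₀ (by linarith) this T
      _ = _ := by rw [← Real.exp_nat_mul]; congr 1; ring
  have h2 : (m * ρ) ^ B ≤ Real.exp (m * ρ * B) := by
    have : (m : ℝ) * ρ ≤ Real.exp (m * ρ) := by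
      have := Real.add_one_le_exp (m * ρ : ℝ)
      linarith
    calc (m * ρ) ^ B ≤ (Real.exp (m * ρ)) ^ B := pow_le_pow_left₀ (by positivity) this B
      _ = _ := by rw [← Real.exp_nat_mul]; congr 1; ring
  have hT' : (10 : ℝ) * m * B ≤ T := by exact_mod_cast hT
  have hB1 : (1 : ℝ) ≤ B := by exact_mod_cast hBpos
  calc (1 - B * ρ) ^ T * (m * ρ) ^ B ≤ Real.exp (-(B * ρ * T)) * Real.exp (m * ρ * B) := by
        have : 0 ≤ (1 - B * ρ) ^ T := pow_nonneg (by linarith) _
        gcongr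
    _ = Real.exp (-(B * ρ * T) + m * ρ * B) := by rw [Real.exp_add]
    _ ≤ Real.exp 0 := by
        apply Real.exp_le_exp.mpr
        have h3 : (m : ℝ) * 1 ≤ T := by nlinarith
        have h4 : 0 ≤ B * ρ := by positivity
        nlinarith
    _ = 1 := Real.exp_zero

/-- **Pattern bound for the overlap.** -/
theorem pattern_ov (p p0 : G → ℝ) (ρ : ℝ) (hρ : 0 ≤ ρ) (gs : List G)
    (hB : (gs.length : ℝ) * ρ ≤ 1) (m : ℕ) (hm : 0 < m) (hp0 : ∀ x, 0 ≤ p0 x)
    (hp01 : ∑ x, p0 x = 1)
    (hp : ∀ x, p x = (1 - gs.length * ρ) * p0 x + ρ * (gs.map fun g => dl g x).sum)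
    (T : ℕ) (hT : 10 * m * gs.length ≤ T) :
    (1 - gs.length * ρ) ^ T * (m * ρ) ^ gs.length *
      Ew (fun _ : Fin m => (m : ℝ)⁻¹) gs.length (fun is =>
        ov (PMG p0 (is.map fun i : Fin m => 9 * m + (i : ℕ)) gs)) ≤
      ov ((stp p)^[T] (dl 1)) := by
  have hmR : (0 : ℝ) < m := by exact_mod_cast hm
  set lam : ℝ := 1 - gs.length * ρ with hlam
  have hlam0 : 0 ≤ lam := by rw [hlam]; linarith
  have hlam1 : lam ≤ 1 := by
    have : 0 ≤ gs.length * ρ := by positivity
    rw [hlam]; linarith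
  have hsum0 : ∀ (l : List G) (x : G), 0 ≤ (l.map fun g => dl g x).sum := by
    intro l x
    refine List.sum_nonneg fun y hy => ?_
    obtain ⟨g, -, rfl⟩ := List.mem_map.mp hy
    exact dl_nonneg g x
  have hple : ∀ x, 0 ≤ p x := by
    intro x
    rw [hp]
    exact add_nonneg (mul_nonneg hlam0 (hp0 x)) (mul_nonneg hρ (hsum0 _ _))
  have hbase : ∀ x, lam * p0 x ≤ p x := by
    intro x
    rw [hp]
    have := mul_nonneg hρ (hsum0 gs x)
    linarith
  have hgs : ∀ g ∈ gs, ∀ x, lam * p0 x + ρ * dl g x ≤ p x := by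
    intro g hg x
    rw [hp]
    have h1 : dl g x ≤ (gs.map fun g => dl g x).sum := by
      refine List.single_le_sum (fun y hy => ?_) _ (List.mem_map.mpr ⟨g, hg, rfl⟩)
      obtain ⟨g', -, rfl⟩ := List.mem_map.mp hy
      exact dl_nonneg g' x
    have := mul_le_mul_of_nonneg_left h1 hρ
    linarith
  have hpt := pattern_ptwise p p0 lam ρ hlam0 hlam1 hρ m hm hp0 hple hbase gs hgs T hT
  set a : ℝ := lam ^ T * (m * ρ) ^ gs.length with ha
  have ha0 : 0 ≤ a := mul_nonneg (pow_nonneg hlam0 _) (by positivity)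
  have ha1 : a ≤ 1 := pattern_const_le_one gs.length m T ρ hρ hB hT
  set F : List (Fin m) → G → ℝ := fun is =>
    cv (PMG p0 (is.map fun i : Fin m => 9 * m + (i : ℕ)) gs) (po p0 (T - tot m is)) with hF
  calc a * Ew (fun _ : Fin m => (m : ℝ)⁻¹) gs.length (fun is =>
        ov (PMG p0 (is.map fun i : Fin m => 9 * m + (i : ℕ)) gs))
      ≤ a * Ew (fun _ : Fin m => (m : ℝ)⁻¹) gs.length (fun is => ov (F is)) := by
        refine mul_le_mul_of_nonneg_left ?_ ha0
        exact Ew_mono (fun _ => by positivity) fun is _ =>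
          ov_cv_ge (po_nonneg hp0 _) (po_sum hp01 _)
    _ ≤ a * ov (fun x => Ew (fun _ : Fin m => (m : ℝ)⁻¹) gs.length (fun is => F is x)) := by
        refine mul_le_mul_of_nonneg_left ?_ ha0
        refine ov_Ew_ge (fun _ => by positivity) ?_ _ _
        rw [Finset.sum_const, Finset.card_univ, Fintype.card_fin, nsmul_eq_mul,
          mul_inv_cancel₀ hmR.ne']
    _ ≤ ov (fun x => a * Ew (fun _ : Fin m => (m : ℝ)⁻¹) gs.length (fun is => F is x)) :=
        ov_smul_ge a ha0 ha1 _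
    _ ≤ ov ((stp p)^[T] (dl 1)) := by
        refine ov_mono fun x => ?_
        refine le_trans (le_of_eq ?_) (hpt x)
        rw [ha, mul_assoc]

end cv

end H98CO
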