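import Pool.Agent.Lib_helper98.CO.RootGroup

/-!
# Conjugates of a noncentral element of `SL₃(K)` in the big cell
-/

namespace H98CO

open Finset Matrix Matrix.SpecialLinearGroup Pool.Agent.Lib_helper64.Cut

section

variable {K : Type*} [Field K]

lemma exists_sl3 (M : Matrix (Fin 3) (Fin 3) K) (h : M.det = 1) :
    ∃ m : SL3 K, (m : Matrix (Fin 3) (Fin 3) K) = M := ⟨⟨M, h⟩, rfl⟩

/-- moving `E13` and a conjugate of it to a pair of opposite root groups -/
lemma exists_conj (c : SL3 K) (h1 : c 2 0 ≠ 0) (h2 : c⁻¹ 2 0 ≠ 0) :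
    ∃ (m : SL3 K) (a b : K), a ≠ 0 ∧ b ≠ 0 ∧ (∀ t, m * E13 (a * t) = E13 t * m) ∧
      ∀ t, m * E31 (b * t) = c * E13 t * c⁻¹ * m := by
  set φ0 := c⁻¹ 2 0 with hφ0
  set φ1 := c⁻¹ 2 1 with hφ1
  set φ2 := c⁻¹ 2 2 with hφ2
  set y0 := c 0 0 with hy0
  set y1 := c 1 0 with hy1
  set y2 := c 2 0 with hy2
  have horth : φ0 * y0 + φ1 * y1 + φ2 * y2 = 0 := by
    have : (c⁻¹ * c) 2 0 = 0 := by
      rw [inv_mul_cancel]
      simp
    rw [Matrix.SpecialLinearGroup.coe_mul, Matrix.mul_apply, Fin.sum_univ_three] at this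
    exact this
  have hconj : ∀ t, ((c * E13 t * c⁻¹ : SL3 K) : Matrix (Fin 3) (Fin 3) K) =
      1 + t • !![y0 * φ0, y0 * φ1, y0 * φ2; y1 * φ0, y1 * φ1, y1 * φ2;
        y2 * φ0, y2 * φ1, y2 * φ2] := by
    intro t
    have e1 : ((c * E13 t * c⁻¹ : SL3 K) : Matrix (Fin 3) (Fin 3) K) =
        (c : Matrix (Fin 3) (Fin 3) K) * ((c⁻¹ : SL3 K) : Matrix (Fin 3) (Fin 3) K) +
          t • ((c : Matrix (Fin 3) (Fin 3) K) * !![0, 0, 1; 0, 0, 0; 0, 0, 0] *
            ((c⁻¹ : SL3 K) : Matrix (Fin 3) (Fin 3) K)) := by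
      rw [Matrix.SpecialLinearGroup.coe_mul, Matrix.SpecialLinearGroup.coe_mul, E13_coe]
      have e2 : (!![1, 0, t; 0, 1, 0; 0, 0, 1] : Matrix (Fin 3) (Fin 3) K) =
          1 + t • !![0, 0, 1; 0, 0, 0; 0, 0, 0] := by
        ext i j
        fin_cases i <;> fin_cases j <;> simp
      rw [e2, Matrix.mul_add, Matrix.add_mul, Matrix.mul_one, Matrix.mul_smul, Matrix.smul_mul]
    rw [e1, ← Matrix.SpecialLinearGroup.coe_mul, mul_inv_cancel, Matrix.SpecialLinearGroup.coe_one]
    congr 2
    ext i j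
    fin_cases i <;> fin_cases j <;>
      simp [Matrix.mul_apply, Fin.sum_univ_three, hy0, hy1, hy2, hφ0, hφ1, hφ2, -Matrix.SpecialLinearGroup.coe_inv]
  have hd : φ0 * y2 ≠ 0 := mul_ne_zero h2 h1
  obtain ⟨m, hm⟩ := exists_sl3
    !![1, -φ1, y0 / (φ0 * y2); 0, φ0, y1 / (φ0 * y2); 0, 0, y2 / (φ0 * y2)]
    (by rw [Matrix.det_fin_three]; simp; field_simp)
  refine ⟨m, φ0⁻¹, φ0 ^ 2 * y2, inv_ne_zero h2, mul_ne_zero (pow_ne_zero 2 h2) h1, ?_, ?_⟩
  · intro t
    apply sl3_ext
    simp only [Matrix.SpecialLinearGroup.coe_mul, E13_coe, hm]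
    ext i j
    fin_cases i <;> fin_cases j <;> simp [Matrix.mul_apply, Fin.sum_univ_three]
    field_simp
    ring
  · intro t
    apply sl3_ext
    rw [Matrix.SpecialLinearGroup.coe_mul, Matrix.SpecialLinearGroup.coe_mul, hconj, E31_coe, hm]
    ext i j
    fin_cases i <;> fin_cases j <;> simp [Matrix.mul_apply, Fin.sum_univ_three]
    all_goals try field_simp
    all_goals try (ring_nf; done)
    · linear_combination (-y0 * t) * horth
    · linear_combination (-y1 * t) * horth
    · linear_combination (-t) * horth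

/-- lower unipotent matrices -/
def Lo (p q r : K) : SL3 K :=
  ⟨!![1, 0, 0; p, 1, 0; r, q, 1], by simp [Matrix.det_fin_three]⟩

lemma Lo_coe (p q r : K) :
    ((Lo p q r : SL3 K) : Matrix (Fin 3) (Fin 3) K) = !![1, 0, 0; p, 1, 0; r, q, 1] := rfl

lemma Lo_inv_coe (p q r : K) :
    (((Lo p q r)⁻¹ : SL3 K) : Matrix (Fin 3) (Fin 3) K) =
      !![1, 0, 0; -p, 1, 0; p * q - r, -q, 1] := by
  rw [Matrix.SpecialLinearGroup.coe_inv, Lo_coe, Matrix.adjugate_fin_three_of]
  ext i j
  fin_cases i <;> fin_cases j <;> simp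

lemma conj_entry (c : SL3 K) (p q r : K) :
    (Lo p q r * c * (Lo p q r)⁻¹) 2 0 =
      (-c 0 2) * r ^ 2 + (c 0 0 - c 2 2 - p * c 0 1 + p * q * c 0 2 - q * c 1 2) * r +
      (q * c 1 0 - p * q * c 1 1 + p * q ^ 2 * c 1 2 + c 2 0 - p * c 2 1 + p * q * c 2 2) := by
  rw [Matrix.SpecialLinearGroup.coe_mul, Matrix.SpecialLinearGroup.coe_mul, Lo_inv_coe, Lo_coe]
  simp only [Matrix.mul_apply, Fin.sum_univ_three]
  simp
  ring

variable [Fintype K] [DecidableEq K]

lemma card_lin_le (a b : K) (h : ¬ (a = 0 ∧ b = 0)) :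
    (univ.filter fun r : K => a * r + b = 0).card ≤ 1 := by
  rw [Finset.card_le_one]
  intro x hx y hy
  simp only [Finset.mem_filter, Finset.mem_univ, true_and] at hx hy
  have ha : a ≠ 0 := by
    intro ha
    apply h
    rw [ha, zero_mul, zero_add] at hx
    exact ⟨ha, hx⟩
  have : a * (x - y) = 0 := by linear_combination hx - hy
  rcases mul_eq_zero.mp this with h | h
  · exact absurd h ha
  · exact sub_eq_zero.mp h

lemma card_quad_le (a b c : K) (h : ¬ (a = 0 ∧ b = 0 ∧ c = 0)) :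
    (univ.filter fun r : K => a * r ^ 2 + b * r + c = 0).card ≤ 2 := by
  by_contra hcon
  push Not at hcon
  obtain ⟨x, y, z, hx, hy, hz, hxy, hxz, hyz⟩ := Finset.two_lt_card_iff.mp hcon
  simp only [Finset.mem_filter, Finset.mem_univ, true_and] at hx hy hz
  have e1 : (x - y) * (a * (x + y) + b) = 0 := by linear_combination hx - hy
  have e2 : (x - z) * (a * (x + z) + b) = 0 := by linear_combination hx - hz
  have f1 := (mul_eq_zero.mp e1).resolve_left (sub_ne_zero.mpr hxy)
  have f2 := (mul_eq_zero.mp e2).resolve_left (sub_ne_zero.mpr hxz)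
  have e3 : (y - z) * a = 0 := by linear_combination f1 - f2
  have ha := (mul_eq_zero.mp e3).resolve_left (sub_ne_zero.mpr hyz)
  have hb : b = 0 := by rw [ha] at f1; simpa using f1
  apply h
  refine ⟨ha, hb, ?_⟩
  rw [ha, hb] at hx
  simpa using hx

lemma card_pairs_le {X Y : Type*} [Fintype X] [Fintype Y] [DecidableEq X] [DecidableEq Y]
    (P : X → Y → Prop) [∀ x y, Decidable (P x y)] (B : X → Prop) [DecidablePred B] (a b : ℕ)
    (hB : (univ.filter B).card ≤ a)
    (hP : ∀ x, ¬ B x → (univ.filter (P x)).card ≤ b) :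
    (univ.filter fun z : X × Y => P z.1 z.2).card ≤ a * Fintype.card Y + Fintype.card X * b := by
  have h1 : (univ.filter fun z : X × Y => P z.1 z.2).card =
      ∑ x : X, (univ.filter (P x)).card := by
    simp only [Finset.card_filter, Fintype.sum_prod_type]
  rw [h1]
  calc ∑ x : X, (univ.filter (P x)).card
      ≤ ∑ x : X, ((if B x then Fintype.card Y else 0) + b) := by
        refine Finset.sum_le_sum fun x _ => ?_
        by_cases hx : B x
        · simp only [hx, if_true]
          exact (Finset.card_le_univ _).trans (Nat.le_add_right _ _)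
        · simp only [hx, if_false, zero_add]
          exact hP x hx
    _ = (univ.filter B).card * Fintype.card Y + Fintype.card X * b := by
        rw [Finset.sum_add_distrib, ← Finset.sum_filter, Finset.sum_const, Finset.sum_const,
          smul_eq_mul, smul_eq_mul, Finset.card_univ]
    _ ≤ _ := by gcongr

omit [Fintype K] [DecidableEq K] in
lemma not_center (c : SL3 K) (hc : c ∉ Subgroup.center (SL3 K)) :
    ¬ (c 0 1 = 0 ∧ c 0 2 = 0 ∧ c 1 2 = 0 ∧ c 0 0 = c 2 2 ∧ c 1 1 = c 2 2 ∧ c 2 1 = 0 ∧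
      c 1 0 = 0 ∧ c 2 0 = 0) := by
  rintro ⟨h01, h02, h12, h00, h11, h21, h10, h20⟩
  apply hc
  rw [Matrix.SpecialLinearGroup.mem_center_iff]
  refine ⟨c 2 2, ?_, ?_⟩
  · have := c.det_coe
    rw [Matrix.det_fin_three, h01, h02, h12, h00, h11, h21, h10, h20] at this
    simp only [Fintype.card_fin]
    linear_combination this
  · ext i j
    fin_cases i <;> fin_cases j <;> simp [h01, h02, h12, h00, h11, h21, h10, h20]

lemma card_bad_pairs_le (c : SL3 K) (hc : c ∉ Subgroup.center (SL3 K)) :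
    (univ.filter fun z : K × K => (-c 0 2) = 0 ∧
      (c 0 0 - c 2 2 - z.2 * c 0 1 + z.2 * z.1 * c 0 2 - z.1 * c 1 2) = 0 ∧
      (z.1 * c 1 0 - z.2 * z.1 * c 1 1 + z.2 * z.1 ^ 2 * c 1 2 + c 2 0 - z.2 * c 2 1
        + z.2 * z.1 * c 2 2) = 0).card ≤ 2 * Fintype.card K := by
  have hnc := not_center c hc
  have key : ∀ B : K → Prop, [DecidablePred B] → (univ.filter B).card ≤ 1 →
      (∀ q, ¬ B q → (univ.filter fun p : K => (-c 0 2) = 0 ∧
      (c 0 0 - c 2 2 - p * c 0 1 + p * q * c 0 2 - q * c 1 2) = 0 ∧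
      (q * c 1 0 - p * q * c 1 1 + p * q ^ 2 * c 1 2 + c 2 0 - p * c 2 1
        + p * q * c 2 2) = 0).card ≤ 1) →
      (univ.filter fun z : K × K => (-c 0 2) = 0 ∧
      (c 0 0 - c 2 2 - z.2 * c 0 1 + z.2 * z.1 * c 0 2 - z.1 * c 1 2) = 0 ∧
      (z.1 * c 1 0 - z.2 * z.1 * c 1 1 + z.2 * z.1 ^ 2 * c 1 2 + c 2 0 - z.2 * c 2 1
        + z.2 * z.1 * c 2 2) = 0).card ≤ 2 * Fintype.card K := by
    intro B _ hB hP
    have := card_pairs_le (fun q p : K => (-c 0 2) = 0 ∧
      (c 0 0 - c 2 2 - p * c 0 1 + p * q * c 0 2 - q * c 1 2) = 0 ∧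
      (q * c 1 0 - p * q * c 1 1 + p * q ^ 2 * c 1 2 + c 2 0 - p * c 2 1
        + p * q * c 2 2) = 0) B 1 1 hB hP
    refine this.trans (le_of_eq (by ring))
  by_cases h02 : c 0 2 = 0
  · by_cases h01 : c 0 1 = 0
    · by_cases h12 : c 0 0 - c 2 2 = 0 ∧ c 1 2 = 0
      · by_cases h21 : c 2 2 - c 1 1 = 0 ∧ c 2 1 = 0
        · -- only the bottom left entries are left
          refine key (fun q => c 1 0 * q + c 2 0 = 0) (card_lin_le _ _ ?_) ?_
          · rintro ⟨h10, h20⟩
            exact hnc ⟨h01, h02, h12.2, sub_eq_zero.mp h12.1, (sub_eq_zero.mp h21.1).symm, h21.2,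
              h10, h20⟩
          · intro q hq
            rw [Finset.card_eq_zero.mpr]
            · norm_num
            · rw [Finset.filter_eq_empty_iff]
              rintro p _ ⟨-, -, h3⟩
              apply hq
              linear_combination h3 - p * q * h21.1 - p * q ^ 2 * h12.2 + p * h21.2
        · refine key (fun q => (c 2 2 - c 1 1) * q + (- c 2 1) = 0) (card_lin_le _ _ ?_) ?_
          · rintro ⟨h1, h2⟩
            exact h21 ⟨h1, neg_eq_zero.mp h2⟩
          · intro q hq
            refine (Finset.card_le_card ?_).trans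
              (card_lin_le ((c 2 2 - c 1 1) * q + (- c 2 1)) (c 1 0 * q + c 2 0) ?_)
            · intro p hp
              simp only [Finset.mem_filter, Finset.mem_univ, true_and] at hp ⊢
              linear_combination hp.2.2 - p * q ^ 2 * h12.2
            · rintro ⟨h1, -⟩
              exact hq h1
      · refine key (fun q => (- c 1 2) * q + (c 0 0 - c 2 2) = 0) (card_lin_le _ _ ?_) ?_
        · rintro ⟨h1, h2⟩
          exact h12 ⟨h2, neg_eq_zero.mp h1⟩
        · intro q hq
          rw [Finset.card_eq_zero.mpr]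
          · norm_num
          · rw [Finset.filter_eq_empty_iff]
            rintro p _ ⟨-, h2, -⟩
            apply hq
            linear_combination h2 + p * h01 - p * q * h02
    · refine key (fun q => False) (by simp) ?_
      intro q _
      refine (Finset.card_le_card ?_).trans
        (card_lin_le (- c 0 1) (c 0 0 - c 2 2 - q * c 1 2) ?_)
      · intro p hp
        simp only [Finset.mem_filter, Finset.mem_univ, true_and] at hp ⊢
        linear_combination hp.2.1 - p * q * h02
      · rintro ⟨h1, -⟩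
        exact h01 (neg_eq_zero.mp h1)
  · refine key (fun q => False) (by simp) ?_
    intro q _
    rw [Finset.card_eq_zero.mpr]
    · norm_num
    · rw [Finset.filter_eq_empty_iff]
      rintro p _ ⟨h1, -⟩
      exact h02 (neg_eq_zero.mp h1)

/-- the number of lower unipotent matrices conjugating a noncentral `c` out of the big cell -/
lemma card_bad_unip_le (c : SL3 K) (hc : c ∉ Subgroup.center (SL3 K)) :
    (univ.filter fun z : (K × K) × K =>
      (Lo z.1.2 z.1.1 z.2 * c * (Lo z.1.2 z.1.1 z.2)⁻¹) 2 0 = 0).card ≤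
      4 * Fintype.card K ^ 2 := by
  have := card_pairs_le (fun (z : K × K) (r : K) =>
    (Lo z.2 z.1 r * c * (Lo z.2 z.1 r)⁻¹) 2 0 = 0) _ (2 * Fintype.card K) 2
    (card_bad_pairs_le c hc) ?_
  · refine this.trans (le_of_eq ?_)
    rw [Fintype.card_prod]
    ring
  · intro z hz
    simp only [conj_entry]
    exact card_quad_le _ _ _ hz

/-- the number of conjugates of a noncentral `D` out of the big cell -/
lemma card_bad_conj_le (D : SL3 K) (hD : D ∉ Subgroup.center (SL3 K)) :
    (univ.filter fun h : SL3 K => (h * D * h⁻¹) 2 0 = 0).card * Fintype.card K ≤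
      4 * Fintype.card (SL3 K) := by
  classical
  set F : (K × K) × K → SL3 K := fun z => Lo z.1.2 z.1.1 z.2 with hF
  have h1 : (univ.filter fun h : SL3 K => (h * D * h⁻¹) 2 0 = 0).card * Fintype.card ((K × K) × K) =
      ∑ z : (K × K) × K, ∑ h : SL3 K, if (F z * (h * D * h⁻¹) * (F z)⁻¹) 2 0 = 0 then 1 else 0 := by
    have : ∀ z : (K × K) × K, (∑ h : SL3 K,
        if (F z * (h * D * h⁻¹) * (F z)⁻¹) 2 0 = 0 then 1 else 0) =
        (univ.filter fun h : SL3 K => (h * D * h⁻¹) 2 0 = 0).card := by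
      intro z
      rw [Finset.card_filter]
      refine Fintype.sum_equiv (Equiv.mulLeft (F z)) _ _ fun h => ?_
      simp only [Equiv.coe_mulLeft, _root_.mul_inv_rev, mul_assoc]
    simp only [this, Finset.sum_const, Finset.card_univ, smul_eq_mul]
    ring
  rw [Finset.sum_comm] at h1
  have h2 : ∀ h : SL3 K, (∑ z : (K × K) × K,
      if (F z * (h * D * h⁻¹) * (F z)⁻¹) 2 0 = 0 then 1 else 0) ≤ 4 * Fintype.card K ^ 2 := by
    intro h
    have hcon : h * D * h⁻¹ ∉ Subgroup.center (SL3 K) := by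
      intro hmem
      apply hD
      have := (inferInstance : (Subgroup.center (SL3 K)).Normal).conj_mem _ hmem h⁻¹
      simpa [mul_assoc] using this
    have := card_bad_unip_le _ hcon
    rwa [Finset.card_filter] at this
  have h3 := Finset.sum_le_sum fun h (_ : h ∈ (univ : Finset (SL3 K))) => h2 h
  rw [← h1, Finset.sum_const, Finset.card_univ, Fintype.card_prod, Fintype.card_prod,
    smul_eq_mul] at h3
  have hK : 0 < Fintype.card K ^ 2 := by
    have : 0 < Fintype.card K := Fintype.card_pos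
    positivity
  refine Nat.le_of_mul_le_mul_right ?_ hK
  calc _ = (univ.filter fun h : SL3 K => (h * D * h⁻¹) 2 0 = 0).card *
        (Fintype.card K * Fintype.card K * Fintype.card K) := by ring
    _ ≤ _ := h3
    _ = _ := by ring

end

end H98CO
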