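import Pool.Agent.Lib_helper98.CO.BadCount

/-!
# Bounded generation of `SL₃(K)` by elementary matrices
-/

namespace H98CO

open Finset Matrix Matrix.SpecialLinearGroup Pool.Agent.Lib_helper64.Cut

variable {K : Type*} [Field K]

/-- `g` is a product of at most `n` elementary matrices. -/
def ElProd (n : ℕ) (g : SL3 K) : Prop :=
  ∃ l : List (SL3 K), l.length ≤ n ∧ l.prod = g ∧
    ∀ x ∈ l, ∃ (i j : Fin 3) (h : i ≠ j) (t : K), x = El h t

lemma ElProd.one (n : ℕ) : ElProd n (1 : SL3 K) := ⟨[], by simp, by simp, by simp⟩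

lemma ElProd.mono {n m : ℕ} (h : n ≤ m) {g : SL3 K} (hg : ElProd n g) : ElProd m g := by
  obtain ⟨l, h1, h2, h3⟩ := hg
  exact ⟨l, h1.trans h, h2, h3⟩

lemma ElProd.mul {n m : ℕ} {g h : SL3 K} (hg : ElProd n g) (hh : ElProd m h) :
    ElProd (n + m) (g * h) := by
  obtain ⟨l, h1, h2, h3⟩ := hg
  obtain ⟨l', h1', h2', h3'⟩ := hh
  refine ⟨l ++ l', by simp; omega, by simp [h2, h2'], ?_⟩
  intro x hx
  rcases List.mem_append.mp hx with h | h
  · exact h3 x h
  · exact h3' x h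

lemma ElProd.el {i j : Fin 3} (h : i ≠ j) (t : K) : ElProd 1 (El h t) :=
  ⟨[El h t], by simp, by simp, by
    intro x hx
    rw [List.mem_singleton] at hx
    exact ⟨i, j, h, t, hx⟩⟩

lemma ElProd.of_el_mul {n : ℕ} {i j : Fin 3} (h : i ≠ j) (t : K) {g : SL3 K}
    (hg : ElProd n (El h t * g)) : ElProd (n + 1) g := by
  have h1 := (ElProd.el h (-t)).mul hg
  have h2 : El h (-t) * (El h t * g) = g := by
    rw [← mul_assoc, ← transvection_add, neg_add_cancel, transvection_coeff_zero, one_mul]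
  rw [h2] at h1
  exact h1.mono (by omega)

lemma ElProd.of_mul_el {n : ℕ} {i j : Fin 3} (h : i ≠ j) (t : K) {g : SL3 K}
    (hg : ElProd n (g * El h t)) : ElProd (n + 1) g := by
  have h1 := hg.mul (ElProd.el h (-t))
  have h2 : g * El h t * El h (-t) = g := by
    rw [mul_assoc, ← transvection_add, add_neg_cancel, transvection_coeff_zero, mul_one]
  rw [h2] at h1
  exact h1.mono (by omega)

/-- row operation: add `t` times row `j` to row `i` -/
lemma el_mul_apply {i j : Fin 3} (h : i ≠ j) (t : K) (g : SL3 K) (a b : Fin 3) :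
    (El h t * g) a b = g a b + if a = i then t * g j b else 0 := by
  rw [Matrix.SpecialLinearGroup.coe_mul]
  rw [transvection_coe, add_mul, one_mul, Matrix.add_apply]
  congr 1
  rw [Matrix.mul_apply]
  by_cases hai : a = i
  · subst hai
    simp [Matrix.single]
  · simp [Matrix.single, hai, Ne.symm hai]

/-- column operation: add `t` times column `i` to column `j` -/
lemma mul_el_apply {i j : Fin 3} (h : i ≠ j) (t : K) (g : SL3 K) (a b : Fin 3) :
    (g * El h t) a b = g a b + if b = j then t * g a i else 0 := by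
  rw [Matrix.SpecialLinearGroup.coe_mul]
  rw [transvection_coe, mul_add, mul_one, Matrix.add_apply]
  congr 1
  rw [Matrix.mul_apply]
  by_cases hbj : b = j
  · subst hbj
    simp [Matrix.single, mul_comm]
  · simp [Matrix.single, hbj, Ne.symm hbj]

lemma det_eq (g : SL3 K) : g 0 0 * g 1 1 * g 2 2 - g 0 0 * g 1 2 * g 2 1 - g 0 1 * g 1 0 * g 2 2
    + g 0 1 * g 1 2 * g 2 0 + g 0 2 * g 1 0 * g 2 1 - g 0 2 * g 1 1 * g 2 0 = 1 := by
  rw [← Matrix.det_fin_three]
  exact g.det_coe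

lemma bg0 (g : SL3 K) (h00 : g 0 0 = 1) (h10 : g 1 0 = 0) (h20 : g 2 0 = 0) (h01 : g 0 1 = 0)
    (h02 : g 0 2 = 0) (h11 : g 1 1 = 1) (h21 : g 2 1 = 0) (h12 : g 1 2 = 0) : ElProd 0 g := by
  have h22 : g 2 2 = 1 := by
    have := det_eq g
    rw [h00, h10, h20, h01, h02, h11, h21, h12] at this
    linear_combination this
  have : g = 1 := by
    apply sl3_ext
    ext i j
    fin_cases i <;> fin_cases j <;> simp [h00, h10, h20, h01, h02, h11, h21, h12, h22]
  rw [this]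
  exact ElProd.one 0

lemma bg1 (g : SL3 K) (h00 : g 0 0 = 1) (h10 : g 1 0 = 0) (h20 : g 2 0 = 0) (h01 : g 0 1 = 0)
    (h02 : g 0 2 = 0) (h11 : g 1 1 = 1) (h21 : g 2 1 = 0) : ElProd 1 g := by
  refine ElProd.of_mul_el (i := 1) (j := 2) (by decide) (-g 1 2) (bg0 _ ?_ ?_ ?_ ?_ ?_ ?_ ?_ ?_) <;>
  simp [mul_el_apply, h00, h10, h20, h01, h02, h11, h21]

lemma bg2 (g : SL3 K) (h00 : g 0 0 = 1) (h10 : g 1 0 = 0) (h20 : g 2 0 = 0) (h01 : g 0 1 = 0)
    (h02 : g 0 2 = 0) (h11 : g 1 1 = 1) : ElProd 2 g := by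
  refine ElProd.of_el_mul (i := 2) (j := 1) (by decide) (-g 2 1) (bg1 _ ?_ ?_ ?_ ?_ ?_ ?_ ?_) <;>
  simp [el_mul_apply, h00, h10, h20, h01, h02, h11]

lemma bg3 (g : SL3 K) (h00 : g 0 0 = 1) (h10 : g 1 0 = 0) (h20 : g 2 0 = 0) (h01 : g 0 1 = 0)
    (h02 : g 0 2 = 0) (h21 : g 2 1 ≠ 0) : ElProd 3 g := by
  refine ElProd.of_el_mul (i := 1) (j := 2) (by decide) ((1 - g 1 1) / g 2 1)
    (bg2 _ ?_ ?_ ?_ ?_ ?_ ?_) <;>
  simp [el_mul_apply, h00, h10, h20, h01, h02, h21]

lemma bg4 (g : SL3 K) (h00 : g 0 0 = 1) (h10 : g 1 0 = 0) (h20 : g 2 0 = 0) (h01 : g 0 1 = 0)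
    (h02 : g 0 2 = 0) : ElProd 4 g := by
  by_cases h21 : g 2 1 = 0
  · have h11 : g 1 1 ≠ 0 := by
      intro h11
      have := det_eq g
      rw [h00, h10, h20, h01, h02, h11, h21] at this
      simp at this
    refine ElProd.of_el_mul (i := 2) (j := 1) (by decide) 1 (bg3 _ ?_ ?_ ?_ ?_ ?_ ?_) <;>
    simp [el_mul_apply, h00, h10, h20, h01, h02, h21, h11]
  · exact (bg3 g h00 h10 h20 h01 h02 h21).mono (by norm_num)

lemma bg5 (g : SL3 K) (h00 : g 0 0 = 1) (h10 : g 1 0 = 0) (h20 : g 2 0 = 0) (h01 : g 0 1 = 0) :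
    ElProd 5 g := by
  refine ElProd.of_mul_el (i := 0) (j := 2) (by decide) (-g 0 2) (bg4 _ ?_ ?_ ?_ ?_ ?_) <;>
  simp [mul_el_apply, h00, h10, h20, h01]

lemma bg6 (g : SL3 K) (h00 : g 0 0 = 1) (h10 : g 1 0 = 0) (h20 : g 2 0 = 0) : ElProd 6 g := by
  refine ElProd.of_mul_el (i := 0) (j := 1) (by decide) (-g 0 1) (bg5 _ ?_ ?_ ?_ ?_) <;>
  simp [mul_el_apply, h00, h10, h20]

lemma bg7 (g : SL3 K) (h00 : g 0 0 = 1) (h10 : g 1 0 = 0) : ElProd 7 g := by
  refine ElProd.of_el_mul (i := 2) (j := 0) (by decide) (-g 2 0) (bg6 _ ?_ ?_ ?_) <;>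
  simp [el_mul_apply, h00, h10]

lemma bg8 (g : SL3 K) (h00 : g 0 0 = 1) : ElProd 8 g := by
  refine ElProd.of_el_mul (i := 1) (j := 0) (by decide) (-g 1 0) (bg7 _ ?_ ?_) <;>
  simp [el_mul_apply, h00]

lemma bg9 (g : SL3 K) (h10 : g 1 0 ≠ 0) : ElProd 9 g := by
  refine ElProd.of_el_mul (i := 0) (j := 1) (by decide) ((1 - g 0 0) / g 1 0) (bg8 _ ?_)
  simp [el_mul_apply, h10]

/-- Bounded generation: every element of `SL₃(K)` is a product of at most ten elementary
matrices. -/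
theorem elProd_ten (g : SL3 K) : ElProd 10 g := by
  by_cases h10 : g 1 0 = 0
  · by_cases h20 : g 2 0 = 0
    · have h00 : g 0 0 ≠ 0 := by
        intro h00
        have := det_eq g
        rw [h00, h10, h20] at this
        simp at this
      refine ElProd.of_el_mul (i := 1) (j := 0) (by decide) 1 (bg9 _ ?_)
      simp [el_mul_apply, h10, h00]
    · refine ElProd.of_el_mul (i := 1) (j := 2) (by decide) 1 (bg9 _ ?_)
      simp [el_mul_apply, h10, h20]
  · exact (bg9 g h10).mono (by norm_num)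

/-- every root group is conjugate to the highest root group -/
lemma exists_conj_E13 {i j : Fin 3} (h : i ≠ j) :
    ∃ g : SL3 K, ∀ t, g * E13 t = El h t * g := by
  fin_cases i <;> fin_cases j
  · exact absurd rfl h
  · obtain ⟨g, hg⟩ := exists_sl3 (!![1, 0, 0; 0, 0, 1; 0, -1, 0] : Matrix (Fin 3) (Fin 3) K)
      (by rw [Matrix.det_fin_three]; simp)
    refine ⟨g, fun t => ?_⟩
    apply sl3_ext
    rw [Matrix.SpecialLinearGroup.coe_mul, Matrix.SpecialLinearGroup.coe_mul, E13_coe, hg,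
      transvection_coe]
    ext i j
    fin_cases i <;> fin_cases j <;> simp [Matrix.mul_apply, Fin.sum_univ_three, Matrix.single]
  · refine ⟨1, fun t => ?_⟩
    rw [one_mul, mul_one]
    rfl
  · obtain ⟨g, hg⟩ := exists_sl3 (!![0, 0, 1; 1, 0, 0; 0, 1, 0] : Matrix (Fin 3) (Fin 3) K)
      (by rw [Matrix.det_fin_three]; simp)
    refine ⟨g, fun t => ?_⟩
    apply sl3_ext
    rw [Matrix.SpecialLinearGroup.coe_mul, Matrix.SpecialLinearGroup.coe_mul, E13_coe, hg,
      transvection_coe]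
    ext i j
    fin_cases i <;> fin_cases j <;> simp [Matrix.mul_apply, Fin.sum_univ_three, Matrix.single]
  · exact absurd rfl h
  · obtain ⟨g, hg⟩ := exists_sl3 (!![0, -1, 0; 1, 0, 0; 0, 0, 1] : Matrix (Fin 3) (Fin 3) K)
      (by rw [Matrix.det_fin_three]; simp)
    refine ⟨g, fun t => ?_⟩
    apply sl3_ext
    rw [Matrix.SpecialLinearGroup.coe_mul, Matrix.SpecialLinearGroup.coe_mul, E13_coe, hg,
      transvection_coe]
    ext i j
    fin_cases i <;> fin_cases j <;> simp [Matrix.mul_apply, Fin.sum_univ_three, Matrix.single]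
  · obtain ⟨g, hg⟩ := exists_sl3 (!![0, 0, 1; 0, -1, 0; 1, 0, 0] : Matrix (Fin 3) (Fin 3) K)
      (by rw [Matrix.det_fin_three]; simp)
    refine ⟨g, fun t => ?_⟩
    apply sl3_ext
    rw [Matrix.SpecialLinearGroup.coe_mul, Matrix.SpecialLinearGroup.coe_mul, E13_coe, hg,
      transvection_coe]
    ext i j
    fin_cases i <;> fin_cases j <;> simp [Matrix.mul_apply, Fin.sum_univ_three, Matrix.single]
  · obtain ⟨g, hg⟩ := exists_sl3 (!![0, 1, 0; 0, 0, 1; 1, 0, 0] : Matrix (Fin 3) (Fin 3) K)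
      (by rw [Matrix.det_fin_three]; simp)
    refine ⟨g, fun t => ?_⟩
    apply sl3_ext
    rw [Matrix.SpecialLinearGroup.coe_mul, Matrix.SpecialLinearGroup.coe_mul, E13_coe, hg,
      transvection_coe]
    ext i j
    fin_cases i <;> fin_cases j <;> simp [Matrix.mul_apply, Fin.sum_univ_three, Matrix.single]
  · exact absurd rfl h

end H98CO
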