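import Mathlib

/-!
# Numerics
-/

set_option autoImplicit false

namespace H98CO

lemma num1_aux (Q C : ℝ) (hQ4 : 4 ≤ Q) (hQC : C ≤ Q) (A B N A' : ℕ)
    (hA : A = A' * 2) (hB : B * 2 + 1 ≤ A') (hN : A * 8 + N + 1 ≤ B * N) :
    2 * (Q ^ A) ^ 8 / 4 * (3 * (Q ^ B)⁻¹ + √(C / √(Q ^ A))) ^ N ≤ 1 / 8 := by
  have hQ1 : (1 : ℝ) ≤ Q := by linarith
  have hQ0 : (0 : ℝ) < Q := by linarith
  have e3 : √(Q ^ A) = Q ^ A' := by
    rw [hA, pow_mul]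
    exact Real.sqrt_sq (by positivity)
  rw [e3]
  obtain ⟨D, hD⟩ := Nat.exists_eq_add_of_le hB
  have e4 : √(C / Q ^ A') ≤ (Q ^ B)⁻¹ := by
    rw [Real.sqrt_le_left (by positivity), div_le_iff₀ (by positivity)]
    rw [inv_pow, ← pow_mul]
    calc C ≤ Q := hQC
      _ = Q ^ 1 := (pow_one Q).symm
      _ ≤ Q ^ (1 + D) := pow_le_pow_right₀ hQ1 (by omega)
      _ = (Q ^ (B * 2))⁻¹ * Q ^ A' := by
        rw [hD, add_assoc, pow_add Q (B * 2), ← mul_assoc,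
          inv_mul_cancel₀ (pow_pos hQ0 _).ne', one_mul]
  have e5 : (3 * (Q ^ B)⁻¹ + √(C / Q ^ A')) ≤ 4 * (Q ^ B)⁻¹ := by linarith
  have e6 : (3 * (Q ^ B)⁻¹ + √(C / Q ^ A')) ^ N ≤ (4 * (Q ^ B)⁻¹) ^ N := by
    refine pow_le_pow_left₀ ?_ e5 _
    have := Real.sqrt_nonneg (C / Q ^ A')
    positivity
  have e7 : (4 * (Q ^ B)⁻¹) ^ N ≤ (Q ^ N) * (Q ^ (B * N))⁻¹ := by
    rw [mul_pow, inv_pow, ← pow_mul]
    exact mul_le_mul_of_nonneg_right (pow_le_pow_left₀ (by norm_num) hQ4 _) (by positivity)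
  have e9 : (Q ^ A) ^ 8 = Q ^ (A * 8) := by rw [← pow_mul]
  obtain ⟨E, hE⟩ := Nat.exists_eq_add_of_le hN
  calc 2 * (Q ^ A) ^ 8 / 4 * (3 * (Q ^ B)⁻¹ + √(C / Q ^ A')) ^ N
      ≤ 2 * (Q ^ A) ^ 8 / 4 * ((Q ^ N) * (Q ^ (B * N))⁻¹) :=
        mul_le_mul_of_nonneg_left (e6.trans e7) (by positivity)
    _ = 1 / 2 * (Q ^ (A * 8) * (Q ^ N) * (Q ^ (B * N))⁻¹) := by
        rw [e9]
        have : ∀ a b c : ℝ, 2 * a / 4 * (b * c) = 1 / 2 * (a * b * c) := by intros; ring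
        exact this _ _ _
    _ ≤ 1 / 2 * (Q ^ 1)⁻¹ := by
        refine mul_le_mul_of_nonneg_left ?_ (by norm_num)
        rw [← pow_add, mul_inv_le_iff₀ (by positivity)]
        rw [hE, show A * 8 + N + 1 + E = 1 + (A * 8 + N + E) by ring, pow_add Q 1, ← mul_assoc,
          inv_mul_cancel₀ (pow_pos hQ0 1).ne', one_mul]
        exact pow_le_pow_right₀ hQ1 (by omega)
    _ ≤ 1 / 8 := by
        rw [pow_one]
        have : Q⁻¹ ≤ (4 : ℝ)⁻¹ := inv_anti₀ (by norm_num) hQ4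
        linarith

/-- first numeric estimate -/
theorem num1 (q : ℝ) (hq : (324 : ℝ) ^ 9 ≤ q) (C : ℝ) (_hC : 0 < C) :
    ∃ m0 : ℕ, ∀ m : ℕ, m0 ≤ m →
      2 * (q ^ (10000 * m)) ^ 8 / 4 *
        (3 * (q ^ (35 * m))⁻¹ + √(C / √(q ^ (10000 * m)))) ^ 2399 ≤ 1 / 8 := by
  have h4 : (4 : ℝ) ≤ q := le_trans (by norm_num) hq
  clear hq
  have h1 : (1 : ℝ) < q := by linarith
  obtain ⟨m1, hm1⟩ := pow_unbounded_of_one_lt C h1
  refine ⟨m1 + 1, fun m hm => ?_⟩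
  have hQ4 : (4 : ℝ) ≤ q ^ m := by
    calc (4 : ℝ) ≤ q := h4
      _ = q ^ 1 := (pow_one q).symm
      _ ≤ q ^ m := pow_le_pow_right₀ h1.le (by omega)
  have hQC : C ≤ q ^ m := hm1.le.trans (pow_le_pow_right₀ h1.le (by omega))
  have e : ∀ a : ℕ, q ^ (a * m) = (q ^ m) ^ a := fun a => by rw [← pow_mul, mul_comm]
  have := num1_aux (q ^ m) C hQ4 hQC 10000 35 2399 5000 (by norm_num) (by norm_num) (by norm_num)
  rw [e 10000, e 35]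
  exact this

lemma num3_aux (q : ℝ) (h1 : 1 < q) (ε : ℝ) (hε : 0 < ε) (m a b c : ℕ) (h3 : ε⁻¹ ≤ q ^ m)
    (hab : m + (a * m + b) ≤ c * m) : q ^ (a * m + b) ≤ ε * q ^ (c * m) := by
  have e4 : 1 ≤ ε * q ^ m := by
    have := mul_le_mul_of_nonneg_left h3 hε.le
    rwa [mul_inv_cancel₀ hε.ne'] at this
  have hq0 : 0 < q := by linarith
  calc q ^ (a * m + b) = 1 * q ^ (a * m + b) := (one_mul _).symm
    _ ≤ ε * q ^ m * q ^ (a * m + b) :=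
        mul_le_mul_of_nonneg_right e4 (by positivity)
    _ = ε * q ^ (m + (a * m + b)) := by rw [mul_assoc, ← pow_add]
    _ ≤ ε * q ^ (c * m) :=
        mul_le_mul_of_nonneg_left (pow_le_pow_right₀ h1.le hab) hε.le

/-- third numeric estimate -/
theorem num3 (q : ℝ) (hq : (324 : ℝ) ^ 9 ≤ q) (ε : ℝ) (hε : 0 < ε) :
    ∃ m0 : ℕ, ∀ m : ℕ, m0 ≤ m →
      (q ^ 6) ^ (29000 * m) * (q ^ (3 * (15 * (10 * m) + 1) + 29000 * m)) ^ 400 ≤
        ε * ((q ^ (10000 * m)) ^ 3) ^ 400 := by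
  have h4 : (4 : ℝ) ≤ q := le_trans (by norm_num) hq
  clear hq
  have h1 : (1 : ℝ) < q := by linarith
  obtain ⟨m1, hm1⟩ := pow_unbounded_of_one_lt ε⁻¹ h1
  refine ⟨m1 + 1, fun m hm => ?_⟩
  have e1 : (q ^ 6) ^ (29000 * m) * (q ^ (3 * (15 * (10 * m) + 1) + 29000 * m)) ^ 400 =
      q ^ (11954000 * m + 1200) := by
    rw [← pow_mul, ← pow_mul, ← pow_add]
    have : 6 * (29000 * m) + (3 * (15 * (10 * m) + 1) + 29000 * m) * 400 =
      11954000 * m + 1200 := by omega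
    rw [this]
  have e2 : ((q ^ (10000 * m)) ^ 3) ^ 400 = q ^ (12000000 * m) := by
    rw [← pow_mul, ← pow_mul]
    have : 10000 * m * (3 * 400) = 12000000 * m := by omega
    rw [this]
  rw [e1, e2]
  exact num3_aux q h1 ε hε m _ _ _
    (hm1.le.trans (pow_le_pow_right₀ h1.le (by omega))) (by omega)

end H98CO
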