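import Pool.Agent.Lib_helper64.Cut.Fourier

/-!
# Relative property (T) for `K ⊕ K` and two root subgroups of `SL₂`, quantitative version
-/

namespace H98CO

open Finset ComplexConjugate Pool.Agent.Lib_helper64.Cut

section spectral

variable {H : Type*} [NormedAddCommGroup H] [InnerProductSpace ℂ H]
variable {G : Type*} [Group G] (π : G →* (H ≃ₗᵢ[ℂ] H))
variable {A : Type*} [AddCommGroup A] [Fintype A]

/-- The spectral measure of a set of characters. -/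
noncomputable def mu (u : A → G) (v : H) (X : Finset (AddChar A ℂ)) : ℝ :=
  ∑ χ ∈ X, ‖Pr π u χ v‖ ^ 2

/-- The spectral projection for a set of characters. -/
noncomputable def PX (u : A → G) (X : Finset (AddChar A ℂ)) : H →ₗ[ℂ] H :=
  ∑ χ ∈ X, Pr π u χ

variable {π} {u : A → G}

lemma norm_PX (hu : ∀ a b, u (a + b) = u a * u b) (X : Finset (AddChar A ℂ)) (v : H) :
    ‖PX π u X v‖ ^ 2 = mu π u v X := by
  unfold PX mu
  rw [LinearMap.sum_apply]
  exact norm_sq_sum_of_orthogonal _ _ fun ψ _ ψ' _ hne => inner_Pr_Pr π hu hne v v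

lemma mu_nonneg (v : H) (X : Finset (AddChar A ℂ)) : 0 ≤ mu π u v X :=
  Finset.sum_nonneg fun _ _ => by positivity

lemma mu_mono (v : H) {X Y : Finset (AddChar A ℂ)} (h : X ⊆ Y) : mu π u v X ≤ mu π u v Y :=
  Finset.sum_le_sum_of_subset_of_nonneg h fun _ _ _ => by positivity

lemma mu_univ (hu : ∀ a b, u (a + b) = u a * u b) (hu0 : u 0 = 1) (v : H) :
    mu π u v Finset.univ = ‖v‖ ^ 2 := (norm_sq_eq_sum_Pr π hu hu0 v).symm

lemma norm_PX_le (hu : ∀ a b, u (a + b) = u a * u b) (hu0 : u 0 = 1)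
    (X : Finset (AddChar A ℂ)) (v : H) : ‖PX π u X v‖ ≤ ‖v‖ := by
  refine (pow_le_pow_iff_left₀ (norm_nonneg _) (norm_nonneg _) two_ne_zero).mp ?_
  rw [norm_PX hu, ← mu_univ hu hu0]
  exact mu_mono _ (Finset.subset_univ _)

/-- Transport of spectral mass by a normalising element. -/
lemma mu_transport (hu : ∀ a b, u (a + b) = u a * u b) (hu0 : u 0 = 1) (g : G) (τ : A ≃+ A)
    (hτ : ∀ a, g * u a = u (τ a) * g) (X Y : Finset (AddChar A ℂ))
    (hXY : ∀ χ ∈ X, χ.compAddMonoidHom τ.symm.toAddMonoidHom ∈ Y) (v : H) (δ : ℝ)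
    (hδ : ‖π g v - v‖ ≤ δ) :
    mu π u v X ≤ mu π u v Y + (2 * δ * ‖v‖ + δ ^ 2) := by
  classical
  have hδ0 : 0 ≤ δ := (norm_nonneg _).trans hδ
  have h1 : mu π u v X ≤ mu π u (π g v) Y := by
    unfold mu
    have e1 : ∀ χ ∈ X, ‖Pr π u χ v‖ ^ 2 =
        ‖Pr π u (χ.compAddMonoidHom τ.symm.toAddMonoidHom) (π g v)‖ ^ 2 := by
      intro χ _
      rw [← pi_Pr_conj π χ g τ hτ v, norm_pi]
    rw [Finset.sum_congr rfl e1]
    have hinj : Function.Injective
        (fun χ : AddChar A ℂ => χ.compAddMonoidHom τ.symm.toAddMonoidHom) := by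
      intro χ χ' h
      ext a
      have := DFunLike.congr_fun h (τ a)
      simpa using this
    rw [← Finset.sum_image (f := fun χ => ‖Pr π u χ (π g v)‖ ^ 2)
      (g := fun χ : AddChar A ℂ => χ.compAddMonoidHom τ.symm.toAddMonoidHom)
      (fun a _ b _ h => hinj h)]
    refine Finset.sum_le_sum_of_subset_of_nonneg ?_ fun _ _ _ => by positivity
    intro χ hχ
    obtain ⟨χ', h1, rfl⟩ := Finset.mem_image.mp hχ
    exact hXY χ' h1
  have h2 : ‖PX π u Y (π g v)‖ ≤ ‖PX π u Y v‖ + δ := by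
    have : PX π u Y (π g v) = PX π u Y v + PX π u Y (π g v - v) := by
      rw [map_sub]; abel
    rw [this]
    refine (norm_add_le _ _).trans ?_
    gcongr
    exact (norm_PX_le hu hu0 _ _).trans hδ
  have h3 : mu π u (π g v) Y ≤ (‖PX π u Y v‖ + δ) ^ 2 := by
    rw [← norm_PX hu]
    exact pow_le_pow_left₀ (norm_nonneg _) h2 2
  have h4 : ‖PX π u Y v‖ ^ 2 = mu π u v Y := norm_PX hu Y v
  have h5 : ‖PX π u Y v‖ ≤ ‖v‖ := norm_PX_le hu hu0 _ _
  nlinarith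

/-- Mass of the characters not trivial at `a`. -/
lemma mu_at (hu : ∀ a b, u (a + b) = u a * u b) (hu0 : u 0 = 1) (a : A) (v : H) (δ c : ℝ)
    (hc : 0 ≤ c) (X : Finset (AddChar A ℂ)) (hX : ∀ χ ∈ X, c ≤ ‖χ a - 1‖)
    (hδ : ‖π (u a) v - v‖ ≤ δ) : c ^ 2 * mu π u v X ≤ δ ^ 2 := by
  have hδ0 : 0 ≤ δ := (norm_nonneg _).trans hδ
  have h1 : ∀ χ, Pr π u χ (π (u a) v - v) = (χ a - 1) • Pr π u χ v := by
    intro χ
    rw [map_sub, sub_smul, one_smul]
    congr 1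
    have hcomm : ∀ (b : A) (w : H), π (u a) (π (u b) w) = π (u b) (π (u a) w) := by
      intro b w
      rw [← pi_mul_apply, ← pi_mul_apply, ← hu, ← hu, add_comm]
    have := Pr_comm π (u := u) χ ((π (u a)).toLinearEquiv : H →ₗ[ℂ] H)
      (fun b w => by simpa using hcomm b w) v
    rw [← pi_Pr π hu χ a v]
    simpa using this.symm
  calc c ^ 2 * mu π u v X = ∑ χ ∈ X, c ^ 2 * ‖Pr π u χ v‖ ^ 2 := by
        unfold mu; rw [Finset.mul_sum]
    _ ≤ ∑ χ ∈ X, ‖Pr π u χ (π (u a) v - v)‖ ^ 2 := by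
        refine Finset.sum_le_sum fun χ hχ => ?_
        rw [h1, norm_smul, mul_pow]
        have := hX χ hχ
        gcongr
    _ = mu π u (π (u a) v - v) X := rfl
    _ ≤ mu π u (π (u a) v - v) Finset.univ := mu_mono _ (Finset.subset_univ _)
    _ = ‖π (u a) v - v‖ ^ 2 := mu_univ hu hu0 _
    _ ≤ δ ^ 2 := by gcongr

end spectral

/-- A nontrivial `q`-th root of unity is not close to one. -/
lemma root_far (q : ℕ) (hq : 0 < q) (ζ : ℂ) (h1 : ζ ^ q = 1) (h2 : ζ ≠ 1) :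
    1 / (q : ℝ) ≤ ‖ζ - 1‖ := by
  have hnorm : ‖ζ‖ = 1 := by
    have : ‖ζ‖ ^ q = 1 := by rw [← norm_pow, h1, norm_one]
    exact (pow_eq_one_iff_of_nonneg (norm_nonneg _) hq.ne').mp this
  have hpow : ∀ i : ℕ, ‖ζ ^ i - 1‖ ≤ i * ‖ζ - 1‖ := by
    intro i
    induction i with
    | zero => simp
    | succ i ih =>
      have : ζ ^ (i + 1) - 1 = ζ * (ζ ^ i - 1) + (ζ - 1) := by ring
      rw [this]
      refine (norm_add_le _ _).trans ?_
      rw [norm_mul, hnorm, one_mul]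
      push_cast
      linarith
  have hsum : ∑ i ∈ Finset.range q, ζ ^ i = 0 := by
    have := mul_geom_sum ζ q
    rw [h1, sub_self] at this
    exact (mul_eq_zero.mp this).resolve_left (sub_ne_zero.mpr h2)
  have h3 : (q : ℝ) ≤ ∑ i ∈ Finset.range q, ((i : ℝ) * ‖ζ - 1‖) := by
    have e1 : (q : ℂ) = - ∑ i ∈ Finset.range q, (ζ ^ i - 1) := by
      rw [Finset.sum_sub_distrib, hsum]
      simp
    calc (q : ℝ) = ‖(q : ℂ)‖ := by simp
      _ = ‖∑ i ∈ Finset.range q, (ζ ^ i - 1)‖ := by rw [e1, norm_neg]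
      _ ≤ ∑ i ∈ Finset.range q, ‖ζ ^ i - 1‖ := norm_sum_le _ _
      _ ≤ _ := Finset.sum_le_sum fun i _ => hpow i
  have h4 : ∑ i ∈ Finset.range q, ((i : ℝ) * ‖ζ - 1‖) ≤ ∑ _i ∈ Finset.range q, ((q : ℝ) * ‖ζ - 1‖) := by
    refine Finset.sum_le_sum fun i hi => ?_
    have : (i : ℝ) ≤ q := by exact_mod_cast (Finset.mem_range.mp hi).le
    gcongr
  rw [Finset.sum_const, Finset.card_range, nsmul_eq_mul] at h4
  have hq' : (0 : ℝ) < q := by exact_mod_cast hq
  rw [div_le_iff₀ hq']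
  have h5 : (q : ℝ) * 1 ≤ q * (q * ‖ζ - 1‖) := by linarith
  have := le_of_mul_le_mul_left h5 hq'
  linarith

end H98CO
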