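import Pool.Agent.Lib_helper98.CO.RelT

/-!
# Relative property (T) for `K ⊕ K`, `K = 𝔽_q[x]`
-/

namespace H98CO

open Finset ComplexConjugate Pool.Agent.Lib_helper64.Cut

section shear

variable {K : Type*} [CommRing K]

/-- `(a, b) ↦ (a + r b, b)` -/
def shA (r : K) : K × K ≃+ K × K where
  toFun z := (z.1 + r * z.2, z.2)
  invFun z := (z.1 - r * z.2, z.2)
  left_inv z := by simp
  right_inv z := by simp
  map_add' z w := by
    ext <;> simp
    ring

/-- `(a, b) ↦ (a, b + r a)` -/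
def shB (r : K) : K × K ≃+ K × K where
  toFun z := (z.1, z.2 + r * z.1)
  invFun z := (z.1, z.2 - r * z.1)
  left_inv z := by simp
  right_inv z := by simp
  map_add' z w := by
    ext <;> simp
    ring

lemma shA_symm (r : K) (z : K × K) : (shA r).symm z = (z.1 - r * z.2, z.2) := rfl
lemma shB_symm (r : K) (z : K × K) : (shB r).symm z = (z.1, z.2 - r * z.1) := rfl
lemma shA_apply (r : K) (z : K × K) : shA r z = (z.1 + r * z.2, z.2) := rfl
lemma shB_apply (r : K) (z : K × K) : shB r z = (z.1, z.2 + r * z.1) := rfl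

variable (x : K) (χ : AddChar (K × K) ℂ)

/-- first index where the character is nontrivial: type A -/
def tyA : Prop := ∃ k : ℕ, (∀ i < k, χ (x ^ i, 0) = 1) ∧ χ (x ^ k, 0) ≠ 1 ∧
  ∀ i ≤ k, χ (0, x ^ i) = 1

/-- type B -/
def tyB : Prop := ∃ k : ℕ, (∀ i < k, χ (0, x ^ i) = 1) ∧ χ (0, x ^ k) ≠ 1 ∧
  ∀ i ≤ k, χ (x ^ i, 0) = 1

/-- type C -/
def tyC : Prop := ∃ k : ℕ, (∀ i < k, χ (x ^ i, 0) = 1) ∧ χ (x ^ k, 0) ≠ 1 ∧
  (∀ i < k, χ (0, x ^ i) = 1) ∧ χ (0, x ^ k) ≠ 1

@[simp] lemma char_zz : χ (0, 0) = 1 := AddChar.map_zero_eq_one χ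

lemma char_split (a b : K) : χ (a, b) = χ (a, 0) * χ (0, b) := by
  rw [← AddChar.map_add_eq_mul]
  simp

lemma char_neg_left (a : K) : χ (-a, 0) = (χ (a, 0))⁻¹ := by
  have : χ (-a, 0) * χ (a, 0) = 1 := by
    rw [← AddChar.map_add_eq_mul]
    simp
  exact eq_inv_of_mul_eq_one_left this

lemma char_neg_right (a : K) : χ (0, -a) = (χ (0, a))⁻¹ := by
  have : χ (0, -a) * χ (0, a) = 1 := by
    rw [← AddChar.map_add_eq_mul]
    simp
  exact eq_inv_of_mul_eq_one_left this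

lemma shA_char (r a b : K) : (χ.compAddMonoidHom (shA r).symm.toAddMonoidHom) (a, b) =
    χ (a, 0) * ((χ (r * b, 0))⁻¹ * χ (0, b)) := by
  have : (χ.compAddMonoidHom (shA r).symm.toAddMonoidHom) (a, b) = χ (a - r * b, b) := rfl
  rw [this, sub_eq_add_neg, ← char_neg_left]
  rw [← AddChar.map_add_eq_mul, ← AddChar.map_add_eq_mul]
  simp

lemma shB_char (r a b : K) : (χ.compAddMonoidHom (shB r).symm.toAddMonoidHom) (a, b) =
    χ (0, b) * ((χ (0, r * a))⁻¹ * χ (a, 0)) := by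
  have : (χ.compAddMonoidHom (shB r).symm.toAddMonoidHom) (a, b) = χ (a, b - r * a) := rfl
  rw [this, sub_eq_add_neg, ← char_neg_right]
  rw [← AddChar.map_add_eq_mul, ← AddChar.map_add_eq_mul]
  simp

lemma tyA_to_tyC (h : tyA x χ) : tyC x (χ.compAddMonoidHom (shA 1).symm.toAddMonoidHom) := by
  obtain ⟨k, h1, h2, h3⟩ := h
  refine ⟨k, ?_, ?_, ?_, ?_⟩
  · intro i hi
    rw [shA_char]
    simp [h1 i hi]
  · rw [shA_char]
    simpa using h2
  · intro i hi
    rw [shA_char]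
    simp [h1 i hi, h3 i hi.le]
  · rw [shA_char]
    simpa [h3 k le_rfl] using h2

lemma tyB_to_tyC (h : tyB x χ) : tyC x (χ.compAddMonoidHom (shB 1).symm.toAddMonoidHom) := by
  obtain ⟨k, h1, h2, h3⟩ := h
  refine ⟨k, ?_, ?_, ?_, ?_⟩
  · intro i hi
    rw [shB_char]
    simp [h1 i hi, h3 i hi.le]
  · rw [shB_char]
    simpa [h3 k le_rfl] using h2
  · intro i hi
    rw [shB_char]
    simp [h1 i hi]
  · rw [shB_char]
    simpa using h2

lemma tyAC_to_tyB (h : tyA x χ ∨ tyC x χ) (h0 : χ (1, 0) = 1) :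
    tyB x (χ.compAddMonoidHom (shA x).symm.toAddMonoidHom) := by
  obtain ⟨k, h1, h2, h3⟩ : ∃ k : ℕ, (∀ i < k, χ (x ^ i, 0) = 1) ∧ χ (x ^ k, 0) ≠ 1 ∧
      ∀ i < k, χ (0, x ^ i) = 1 := by
    rcases h with ⟨k, h1, h2, h3⟩ | ⟨k, h1, h2, h3, h4⟩
    · exact ⟨k, h1, h2, fun i hi => h3 i hi.le⟩
    · exact ⟨k, h1, h2, h3⟩
  obtain ⟨m, rfl⟩ : ∃ m, k = m + 1 := by
    rcases k with _ | m
    · exfalso
      apply h2
      simpa using h0
    · exact ⟨m, rfl⟩
  refine ⟨m, ?_, ?_, ?_⟩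
  · intro i hi
    rw [shA_char, ← pow_succ']
    simp [h1 (i + 1) (by omega), h3 i (by omega)]
  · rw [shA_char, ← pow_succ']
    simpa [h3 m (by omega)] using h2
  · intro i hi
    rw [shA_char]
    simp [h1 i (by omega)]

lemma tyBC_to_tyA (h : tyB x χ ∨ tyC x χ) (h0 : χ (0, 1) = 1) :
    tyA x (χ.compAddMonoidHom (shB x).symm.toAddMonoidHom) := by
  obtain ⟨k, h1, h2, h3⟩ : ∃ k : ℕ, (∀ i < k, χ (0, x ^ i) = 1) ∧ χ (0, x ^ k) ≠ 1 ∧
      ∀ i < k, χ (x ^ i, 0) = 1 := by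
    rcases h with ⟨k, h1, h2, h3⟩ | ⟨k, h1, h2, h3, h4⟩
    · exact ⟨k, h1, h2, fun i hi => h3 i hi.le⟩
    · exact ⟨k, h3, h4, h1⟩
  obtain ⟨m, rfl⟩ : ∃ m, k = m + 1 := by
    rcases k with _ | m
    · exfalso
      apply h2
      simpa using h0
    · exact ⟨m, rfl⟩
  refine ⟨m, ?_, ?_, ?_⟩
  · intro i hi
    rw [shB_char, ← pow_succ']
    simp [h1 (i + 1) (by omega), h3 i (by omega)]
  · rw [shB_char, ← pow_succ']
    simpa [h3 m (by omega)] using h2
  · intro i hi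
    rw [shB_char]
    simp [h1 i (by omega)]

lemma not_tyA_tyC (h : tyA x χ) (h' : tyC x χ) : False := by
  obtain ⟨k, h1, h2, h3⟩ := h
  obtain ⟨m, h4, h5, h6, h7⟩ := h'
  rcases lt_trichotomy k m with hkm | hkm | hkm
  · exact h2 (h4 k hkm)
  · exact h7 (h3 m hkm.ge)
  · exact h5 (h1 m hkm)

lemma not_tyB_tyC (h : tyB x χ) (h' : tyC x χ) : False := by
  obtain ⟨k, h1, h2, h3⟩ := h
  obtain ⟨m, h4, h5, h6, h7⟩ := h'
  rcases lt_trichotomy k m with hkm | hkm | hkm
  · exact h2 (h6 k hkm)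
  · exact h5 (h3 m hkm.ge)
  · exact h7 (h1 m hkm)

lemma exhaust (q : ℕ) [Fact q.Prime] [Algebra (ZMod q) K] (hx : Algebra.adjoin (ZMod q) {x} = ⊤)
    (hχ : χ ≠ 1) : tyA x χ ∨ tyB x χ ∨ tyC x χ := by
  classical
  have hex : ∃ k : ℕ, χ (x ^ k, 0) ≠ 1 ∨ χ (0, x ^ k) ≠ 1 := by
    by_contra hcon
    push Not at hcon
    apply hχ
    have hgen : ∀ (φ : K → ℂ), φ 0 = 1 → (∀ a b, φ (a + b) = φ a * φ b) →
        (∀ k : ℕ, φ (x ^ k) = 1) → ∀ a, φ a = 1 := by
      intro φ h0 hadd hpow a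
      have hnsmul : ∀ (n : ℕ) (b : K), φ b = 1 → φ (n • b) = 1 := by
        intro n b hb
        induction n with
        | zero => simpa using h0
        | succ n ih => rw [succ_nsmul, hadd, ih, hb, one_mul]
      have hmem : a ∈ Algebra.adjoin (ZMod q) {x} := by rw [hx]; trivial
      rw [Algebra.adjoin_singleton_eq_range_aeval] at hmem
      obtain ⟨p, rfl⟩ := hmem
      induction p using Polynomial.induction_on' with
      | add p p' hp hp' =>
        rw [map_add, hadd, hp, hp', one_mul]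
      | monomial n c =>
        have : (Polynomial.aeval x) (Polynomial.monomial n c) = c.val • x ^ n := by
          rw [Polynomial.aeval_monomial, Algebra.algebraMap_eq_smul_one, smul_mul_assoc, one_mul]
          conv_lhs => rw [← ZMod.natCast_zmod_val c]
          rw [Nat.cast_smul_eq_nsmul]
        change φ ((Polynomial.aeval x) (Polynomial.monomial n c)) = 1
        rw [this]
        exact hnsmul _ _ (hpow n)
    ext z
    rcases z with ⟨a, b⟩
    rw [char_split, hgen (fun a => χ (a, 0)) (by exact AddChar.map_zero_eq_one χ)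
      (fun a b => by simp [← AddChar.map_add_eq_mul]) (fun k => (hcon k).1) a,
      hgen (fun a => χ (0, a)) (by exact AddChar.map_zero_eq_one χ)
      (fun a b => by simp [← AddChar.map_add_eq_mul]) (fun k => (hcon k).2) b]
    simp
  set k := Nat.find hex with hk
  have h1 := Nat.find_spec hex
  have h2 : ∀ i < k, χ (x ^ i, 0) = 1 ∧ χ (0, x ^ i) = 1 := by
    intro i hi
    have := Nat.find_min hex hi
    push Not at this
    exact this
  by_cases ha : χ (x ^ k, 0) = 1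
  · right; left
    refine ⟨k, fun i hi => (h2 i hi).2, ?_, ?_⟩
    · rcases h1 with h | h
      · exact absurd ha h
      · exact h
    · intro i hi
      rcases lt_or_eq_of_le hi with h | h
      · exact (h2 i h).1
      · rw [h]; exact ha
  · by_cases hb : χ (0, x ^ k) = 1
    · left
      refine ⟨k, fun i hi => (h2 i hi).1, ha, ?_⟩
      intro i hi
      rcases lt_or_eq_of_le hi with h | h
      · exact (h2 i h).2
      · rw [h]; exact hb
    · right; right
      exact ⟨k, fun i hi => (h2 i hi).1, ha, fun i hi => (h2 i hi).2, hb⟩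

end shear

end H98CO
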