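import Pool.Agent.Lib_helper64.Cut.Defs
import Pool.Agent.Lib_helper64.Cut.Fourier

/-!
# Opposite root groups in a unitary representation of `SL₃` over a finite field
-/

namespace H98CO

open Finset ComplexConjugate Matrix Matrix.SpecialLinearGroup Pool.Agent.Lib_helper64.Cut
open scoped InnerProductSpace

section

variable {K : Type*} [Field K]

/-- The highest root group. -/
def E13 (t : K) : SL3 K := transvection (i := (0 : Fin 3)) (j := 2) (by decide) t

/-- The lowest root group. -/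
def E31 (t : K) : SL3 K := transvection (i := (2 : Fin 3)) (j := 0) (by decide) t

/-- The torus of the highest root. -/
def dg (s : K) (hs : s ≠ 0) : SL3 K :=
  ⟨!![s, 0, 0; 0, 1, 0; 0, 0, s⁻¹], by simp [Matrix.det_fin_three, hs]⟩

/-- A Weyl element. -/
def wl : SL3 K := ⟨!![0, 0, -1; 0, 1, 0; 1, 0, 0], by simp [Matrix.det_fin_three]⟩

lemma sl3_ext {A B : SL3 K} (h : (A : Matrix (Fin 3) (Fin 3) K) = B) : A = B := Subtype.ext h

lemma dg_coe (s : K) (hs : s ≠ 0) :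
    (dg s hs : Matrix (Fin 3) (Fin 3) K) = !![s, 0, 0; 0, 1, 0; 0, 0, s⁻¹] := rfl

lemma wl_coe : ((wl : SL3 K) : Matrix (Fin 3) (Fin 3) K) = !![0, 0, -1; 0, 1, 0; 1, 0, 0] := rfl

lemma E13_coe (t : K) : (E13 t : Matrix (Fin 3) (Fin 3) K) = !![1, 0, t; 0, 1, 0; 0, 0, 1] := by
  ext i j
  fin_cases i <;> fin_cases j <;> simp [E13, transvection_coe, Matrix.single]

lemma E31_coe (t : K) : (E31 t : Matrix (Fin 3) (Fin 3) K) = !![1, 0, 0; 0, 1, 0; t, 0, 1] := by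
  ext i j
  fin_cases i <;> fin_cases j <;> simp [E31, transvection_coe, Matrix.single]

lemma E13_add (s t : K) : E13 (s + t) = E13 s * E13 t := transvection_add _ _ _
lemma E31_add (s t : K) : E31 (s + t) = E31 s * E31 t := transvection_add _ _ _
lemma E13_zero : E13 (0 : K) = 1 := transvection_coeff_zero _
lemma E31_zero : E31 (0 : K) = 1 := transvection_coeff_zero _
lemma E13_inv (t : K) : (E13 t)⁻¹ = E13 (-t) := transvection_inv _ _
lemma E31_inv (t : K) : (E31 t)⁻¹ = E31 (-t) := transvection_inv _ _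

lemma E31_eq (s : K) (hs : s ≠ 0) :
    E31 s = E13 s⁻¹ * ((dg s hs)⁻¹ * (wl * E13 s⁻¹)) := by
  have h : (dg s hs) * ((E13 s⁻¹)⁻¹ * E31 s) = wl * E13 s⁻¹ := by
    rw [E13_inv]
    apply sl3_ext
    simp only [Matrix.SpecialLinearGroup.coe_mul, E13_coe, E31_coe, dg_coe, wl_coe]
    ext i j
    fin_cases i <;> fin_cases j <;> simp [Matrix.mul_apply, Fin.sum_univ_three, hs]
  rw [← h]
  group

lemma E13_mul_dg (s : K) (hs : s ≠ 0) (t : K) :
    E13 t * dg s hs = dg s hs * E13 ((s ^ 2)⁻¹ * t) := by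
  apply sl3_ext
  simp only [Matrix.SpecialLinearGroup.coe_mul, E13_coe, dg_coe]
  ext i j
  fin_cases i <;> fin_cases j <;> simp [Matrix.mul_apply, Fin.sum_univ_three]
  field_simp

end

section

variable {K : Type*} [Field K] [Fintype K]
variable {H : Type*} [NormedAddCommGroup H] [InnerProductSpace ℂ H]

/-- Bessel for a family which is orthogonal up to multiplicity two. -/
lemma bessel_two {ι : Type*} [Fintype ι] [DecidableEq ι] (x : ι → H) (y : H) (M : ℝ)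
    (hx : ∀ i, ‖x i‖ ≤ M) (σ : ι → ι) (hσ : ∀ i, σ (σ i) = i)
    (h : ∀ i j, j ≠ i → j ≠ σ i → ⟪x i, x j⟫_ℂ = 0) :
    ∑ i, ‖⟪x i, y⟫_ℂ‖ ^ 2 ≤ 2 * M ^ 2 * ‖y‖ ^ 2 := by
  set c : ι → ℂ := fun i => ⟪x i, y⟫_ℂ with hc
  set S : ℝ := ∑ i, ‖c i‖ ^ 2 with hS
  have hS0 : 0 ≤ S := by positivity
  set z : H := ∑ i, c i • x i with hz
  have h1 : ⟪z, y⟫_ℂ = (S : ℂ) := by
    rw [hz, sum_inner, hS]
    push_cast
    refine Finset.sum_congr rfl fun i _ => ?_
    rw [inner_smul_left]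
    change conj (c i) * c i = _
    rw [mul_comm, Complex.mul_conj, Complex.normSq_eq_norm_sq]
    push_cast
    rfl
  have h2 : S ≤ ‖z‖ * ‖y‖ := by
    have := norm_inner_le_norm (𝕜 := ℂ) z y
    rw [h1, Complex.norm_real, Real.norm_eq_abs, abs_of_nonneg hS0] at this
    exact this
  have h3 : ‖z‖ ^ 2 ≤ 2 * M ^ 2 * S := by
    have e1 : (‖z‖ ^ 2 : ℝ) = ‖⟪z, z⟫_ℂ‖ := by
      rw [inner_self_eq_norm_sq_to_K]
      simp
    rw [e1, hz, sum_inner]
    have e2 : ∀ i, ‖⟪c i • x i, ∑ j, c j • x j⟫_ℂ‖ ≤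
        M ^ 2 * (‖c i‖ ^ 2 + (‖c i‖ ^ 2 + ‖c (σ i)‖ ^ 2) / 2) := by
      intro i
      rw [inner_sum]
      have e3 : ∑ j, ⟪c i • x i, c j • x j⟫_ℂ =
          ∑ j ∈ ({i, σ i} : Finset ι), ⟪c i • x i, c j • x j⟫_ℂ := by
        symm
        apply Finset.sum_subset (Finset.subset_univ _)
        intro j _ hj
        simp only [Finset.mem_insert, Finset.mem_singleton, not_or] at hj
        rw [inner_smul_left, inner_smul_right, h i j hj.1 hj.2]
        simp
      rw [e3]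
      have hM : 0 ≤ M := le_trans (norm_nonneg _) (hx i)
      have e4 : ∀ j, ‖⟪c i • x i, c j • x j⟫_ℂ‖ ≤ M ^ 2 * (‖c i‖ * ‖c j‖) := by
        intro j
        calc ‖⟪c i • x i, c j • x j⟫_ℂ‖ ≤ ‖c i • x i‖ * ‖c j • x j‖ := norm_inner_le_norm _ _
          _ = (‖c i‖ * ‖x i‖) * (‖c j‖ * ‖x j‖) := by rw [norm_smul, norm_smul]
          _ ≤ (‖c i‖ * M) * (‖c j‖ * M) := by
              gcongr
              · exact hx i
              · exact hx j
          _ = _ := by ring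
      by_cases hi : σ i = i
      · rw [hi]
        simp only [Finset.mem_singleton, Finset.insert_eq_of_mem, Finset.sum_singleton]
        refine (e4 i).trans ?_
        nlinarith [sq_nonneg ‖c i‖, sq_nonneg M, mul_nonneg (sq_nonneg M) (sq_nonneg ‖c i‖)]
      · rw [Finset.sum_pair (Ne.symm hi)]
        refine (norm_add_le _ _).trans ((add_le_add (e4 i) (e4 (σ i))).trans ?_)
        rw [← mul_add]
        refine mul_le_mul_of_nonneg_left ?_ (sq_nonneg M)
        nlinarith [sq_nonneg (‖c i‖ - ‖c (σ i)‖)]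
    refine (norm_sum_le _ _).trans ((Finset.sum_le_sum fun i _ => e2 i).trans (le_of_eq ?_))
    rw [← Finset.mul_sum, Finset.sum_add_distrib, ← Finset.sum_div, Finset.sum_add_distrib]
    have e5 : ∑ i, ‖c (σ i)‖ ^ 2 = S := by
      rw [hS]
      exact Equiv.sum_comp (⟨σ, σ, hσ, hσ⟩ : ι ≃ ι) (fun i => ‖c i‖ ^ 2)
    rw [e5, ← hS]
    ring
  have h4 : S ^ 2 ≤ 2 * M ^ 2 * S * ‖y‖ ^ 2 := by
    calc S ^ 2 ≤ (‖z‖ * ‖y‖) ^ 2 := by gcongr
      _ = ‖z‖ ^ 2 * ‖y‖ ^ 2 := by ring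
      _ ≤ _ := by gcongr
  by_cases hS' : S = 0
  · rw [hS']; positivity
  · have : 0 < S := lt_of_le_of_ne hS0 (Ne.symm hS')
    nlinarith

lemma conj_mul_char {A : Type*} [AddCommGroup A] [Finite A] (ψ : AddChar A ℂ) (a : A) :
    conj (ψ a) * ψ a = 1 := by
  rw [mul_comm, Complex.mul_conj, Complex.normSq_eq_norm_sq, AddChar.norm_apply]
  simp

variable (π : SL3 K →* (H ≃ₗᵢ[ℂ] H))

/-- Sum of the matrix coefficients of the opposite root group. -/
lemma sum_coeff_le (ψ : AddChar K ℂ) (hψ : ψ ≠ 1) (v : H)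
    (hv : ∀ t, π (E13 t) v = ψ t • v) :
    ∑ s : K, ‖inner ℂ v (π (E31 s) v)‖ ≤ (1 + √(2 * Fintype.card K)) * ‖v‖ ^ 2 := by
  classical
  rw [← Finset.add_sum_erase _ _ (Finset.mem_univ (0 : K))]
  have h0 : ‖inner ℂ v (π (E31 (0 : K)) v)‖ = ‖v‖ ^ 2 := by
    rw [E31_zero, pi_one_apply, inner_self_eq_norm_sq_to_K]
    simp
  rw [h0, add_mul, one_mul]
  refine add_le_add le_rfl ?_
  -- the vectors of the torus orbit
  set x : {s : K // s ≠ 0} → H := fun s => π (dg s.1 s.2) v with hx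
  have hcoef : ∀ s : {s : K // s ≠ 0}, ‖inner ℂ v (π (E31 s.1) v)‖ = ‖inner ℂ (x s) (π wl v)‖ := by
    intro s
    rw [E31_eq s.1 s.2, pi_mul_apply, pi_mul_apply, pi_mul_apply, hv]
    have e1 : inner ℂ v (π (E13 (s.1)⁻¹) (π (dg s.1 s.2)⁻¹ (π wl (ψ (s.1)⁻¹ • v)))) =
        inner ℂ (π (E13 (s.1)⁻¹)⁻¹ v) (π (dg s.1 s.2)⁻¹ (π wl (ψ (s.1)⁻¹ • v))) := by
      rw [← inner_pi_pi π (E13 (s.1)⁻¹)⁻¹ v, pi_inv_apply_self]
    rw [e1, E13_inv, hv, map_smul, map_smul, inner_smul_left, inner_smul_right, norm_mul,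
      norm_mul, RCLike.norm_conj, AddChar.norm_apply, AddChar.norm_apply, one_mul, one_mul,
      ← inner_pi_pi π (dg s.1 s.2), pi_apply_inv_self]
  have heig : ∀ s : {s : K // s ≠ 0}, ∀ t, π (E13 t) (x s) = ψ ((s.1 ^ 2)⁻¹ * t) • x s := by
    intro s t
    rw [hx]
    simp only
    rw [← pi_mul_apply, E13_mul_dg, pi_mul_apply, hv, map_smul]
  have hinj : ∀ a b : K, (∀ t, ψ (a * t) = ψ (b * t)) → a = b := by
    intro a b hab
    by_contra hne
    apply hψ
    have hab' : a - b ≠ 0 := sub_ne_zero.mpr hne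
    ext t
    have h1 := hab (t / (a - b))
    have h2 : ψ (a * (t / (a - b)) - b * (t / (a - b))) = 1 := by
      rw [sub_eq_add_neg, AddChar.map_add_eq_mul, h1, ← AddChar.map_add_eq_mul, add_neg_cancel,
        AddChar.map_zero_eq_one]
    rw [← sub_mul, mul_div_cancel₀ _ hab'] at h2
    rw [h2]
    simp
  have hbes := bessel_two (ι := {s : K // s ≠ 0}) x (π wl v) ‖v‖
    (fun i => le_of_eq (norm_pi π _ _)) (fun s => ⟨-s.1, neg_ne_zero.mpr s.2⟩)
    (fun i => by simp) ?_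
  · rw [norm_pi] at hbes
    have hsum : ∑ s ∈ Finset.univ.erase (0 : K), ‖inner ℂ v (π (E31 s) v)‖ =
        ∑ s : {s : K // s ≠ 0}, ‖inner ℂ (x s) (π wl v)‖ := by
      rw [← Finset.sum_congr rfl fun s _ => hcoef s]
      rw [← Finset.sum_subtype (Finset.univ.erase (0 : K)) (p := fun s => s ≠ 0) (by simp)
        (fun s => ‖inner ℂ v (π (E31 s) v)‖)]
    rw [hsum]
    have hCS := Finset.sum_mul_sq_le_sq_mul_sq (Finset.univ : Finset {s : K // s ≠ 0})
      (fun _ => (1 : ℝ)) (fun s => ‖inner ℂ (x s) (π wl v)‖)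
    simp only [one_mul, one_pow, Finset.sum_const, nsmul_eq_mul, mul_one] at hCS
    have hcard : ((Finset.univ : Finset {s : K // s ≠ 0}).card : ℝ) ≤ Fintype.card K := by
      exact_mod_cast (Fintype.card_subtype_le _)
    have hfin : (∑ s : {s : K // s ≠ 0}, ‖inner ℂ (x s) (π wl v)‖) ^ 2 ≤
        (√(2 * Fintype.card K) * ‖v‖ ^ 2) ^ 2 := by
      refine hCS.trans ?_
      rw [mul_pow, Real.sq_sqrt (by positivity)]
      calc _ ≤ (Fintype.card K : ℝ) * (2 * ‖v‖ ^ 2 * ‖v‖ ^ 2) := by gcongr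
        _ = _ := by ring
    exact (pow_le_pow_iff_left₀ (by positivity) (by positivity) two_ne_zero).mp hfin
  · intro i j hji hjs
    refine inner_eigen_eq_zero π (u := fun t : K => E13 t)
      (ψ := ψ.mulShift ((i.1 ^ 2)⁻¹)) (ψ' := ψ.mulShift ((j.1 ^ 2)⁻¹)) ?_ ?_ ?_
    · intro hcon
      have h1 := hinj ((i.1 ^ 2)⁻¹) ((j.1 ^ 2)⁻¹) (fun t => by
        simpa [AddChar.mulShift_apply] using DFunLike.congr_fun hcon t)
      have h2 : i.1 ^ 2 = j.1 ^ 2 := inv_injective h1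
      rcases sq_eq_sq_iff_eq_or_eq_neg.mp h2 with h3 | h3
      · exact hji (Subtype.ext h3.symm)
      · exact hjs (Subtype.ext (by simp [h3]))
    · intro b
      rw [heig, AddChar.mulShift_apply]
    · intro b
      rw [heig, AddChar.mulShift_apply]

/-- Two eigenvectors for opposite root groups are almost orthogonal. -/
lemma opposite_root (ψ ψ' : AddChar K ℂ) (hψ : ψ ≠ 1) (v v' : H)
    (hv : ∀ t, π (E13 t) v = ψ t • v) (hv' : ∀ t, π (E31 t) v' = ψ' t • v') :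
    ‖inner ℂ v' v‖ ^ 2 ≤ (1 + √(2 * Fintype.card K)) / Fintype.card K * (‖v‖ ^ 2 * ‖v'‖ ^ 2) := by
  classical
  have hQ : (0 : ℝ) < Fintype.card K := by exact_mod_cast Fintype.card_pos
  set θ := ‖inner ℂ v' v‖ with hθ
  have hphase : ∀ s, inner ℂ v' (π (E31 s) v) = ψ' s * inner ℂ v' v := by
    intro s
    have h1 : inner ℂ (π (E31 s) v') (π (E31 s) v) = inner ℂ v' v := inner_pi_pi π _ _ _
    rw [hv', inner_smul_left] at h1
    rw [← h1, ← mul_assoc, mul_comm (ψ' s), conj_mul_char, one_mul]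
  set w : H := ∑ s : K, conj (ψ' s) • π (E31 s) v with hw
  have h1 : inner ℂ v' w = (Fintype.card K : ℂ) * inner ℂ v' v := by
    rw [hw, inner_sum]
    simp only [inner_smul_right, hphase]
    have : ∀ s : K, conj (ψ' s) * (ψ' s * inner ℂ v' v) = inner ℂ v' v := by
      intro s
      rw [← mul_assoc, conj_mul_char, one_mul]
    simp only [this, Finset.sum_const, Finset.card_univ, nsmul_eq_mul]
  have h2 : (Fintype.card K : ℝ) * θ ≤ ‖v'‖ * ‖w‖ := by
    have := norm_inner_le_norm (𝕜 := ℂ) v' w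
    rw [h1, norm_mul] at this
    simpa [hθ] using this
  have h3 : ‖w‖ ^ 2 ≤ Fintype.card K * ((1 + √(2 * Fintype.card K)) * ‖v‖ ^ 2) := by
    have e1 : (‖w‖ ^ 2 : ℝ) = ‖inner ℂ w w‖ := by
      rw [inner_self_eq_norm_sq_to_K]
      simp
    rw [e1]
    have e2 : ∀ s : K, ‖inner ℂ (conj (ψ' s) • π (E31 s) v) w‖ ≤
        (1 + √(2 * Fintype.card K)) * ‖v‖ ^ 2 := by
      intro s
      rw [inner_smul_left, norm_mul, RCLike.norm_conj, RCLike.norm_conj, AddChar.norm_apply,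
        one_mul, hw, inner_sum]
      refine (norm_sum_le _ _).trans ?_
      refine le_trans (le_of_eq ?_) (sum_coeff_le π ψ hψ v hv)
      refine Fintype.sum_equiv (Equiv.addLeft (-s)) _ _ fun t => ?_
      simp only [Equiv.coe_addLeft]
      rw [inner_smul_right, norm_mul, RCLike.norm_conj, AddChar.norm_apply, one_mul, E31_add,
        pi_mul_apply, ← E31_inv, ← inner_pi_pi π (E31 s) v, pi_apply_inv_self]
    conv_lhs => rw [hw]
    rw [sum_inner]
    refine (norm_sum_le _ _).trans ?_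
    refine (Finset.sum_le_sum fun s _ => e2 s).trans (le_of_eq ?_)
    simp [Finset.card_univ]
  have h4 : ((Fintype.card K : ℝ) * θ) ^ 2 ≤ ‖v'‖ ^ 2 *
      (Fintype.card K * ((1 + √(2 * Fintype.card K)) * ‖v‖ ^ 2)) := by
    calc ((Fintype.card K : ℝ) * θ) ^ 2 ≤ (‖v'‖ * ‖w‖) ^ 2 := by
          gcongr
      _ = ‖v'‖ ^ 2 * ‖w‖ ^ 2 := by ring
      _ ≤ _ := by gcongr
  rw [div_mul_eq_mul_div, le_div_iff₀ hQ]
  have h5 : (Fintype.card K : ℝ) * (θ ^ 2 * Fintype.card K) ≤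
      Fintype.card K * ((1 + √(2 * Fintype.card K)) * (‖v‖ ^ 2 * ‖v'‖ ^ 2)) := by
    calc _ = ((Fintype.card K : ℝ) * θ) ^ 2 := by ring
      _ ≤ _ := h4
      _ = _ := by ring
  exact le_of_mul_le_mul_left h5 hQ

end

end H98CO
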