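import Pool.Agent.Lib_helper64.Cut.Conv

/-!
# Support of the walk without rare steps
-/

set_option autoImplicit false
set_option linter.unusedSectionVars false

namespace H98CO

open Finset Matrix Pool.Agent.Lib_helper64.Cut

variable {k K : Type*} [Field k] [Fintype k] [Field K] [Algebra k K] [Fintype K] [DecidableEq K]
variable {ι : Type*} [Fintype ι]

open Classical in
lemma card_state (J : ℕ) (F : Submodule k (Fin 3 → K)) (a : SL3 K) :
    (univ.filter fun g : Sdp (SL3 K) (Fin J → Fin 3 → K) => g.a = a ∧ ∀ j, g.v j ∈ F).card =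
      Nat.card F ^ J := by
  rw [← Fintype.card_subtype, ← Nat.card_eq_fintype_card]
  have : Nat.card (Fin J → F) = Nat.card F ^ J := by
    rw [Nat.card_fun, Nat.card_fin]
  rw [← this]
  refine Nat.card_congr ?_
  refine
    { toFun := fun g j => ⟨g.1.v j, g.2.2 j⟩
      invFun := fun f => ⟨⟨fun j => (f j).1, a⟩, rfl, fun j => (f j).2⟩
      left_inv := fun g => ?_
      right_inv := fun f => rfl }
  ext1
  ext1
  · rfl
  · exact g.2.1.symm

/-- the support of the main walk -/
theorem exists_support (J : ℕ) (V0 : Submodule k (Fin 3 → K)) (c : ι → ℝ) (b : ι → SL3 K)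
    (T M : ℕ) (hM : ∀ w : List ι, w.length = T → Nat.card (Fw V0 b w) ≤ M) :
    ∃ S : Finset (Sdp (SL3 K) (Fin J → Fin 3 → K)),
      (∀ x, x ∉ S → pwr (p0 J V0 c b) T x = 0) ∧ S.card ≤ Fintype.card ι ^ T * M ^ J := by
  classical
  refine ⟨(univ : Finset (Fin T → ι)).biUnion fun f =>
    univ.filter fun g : Sdp (SL3 K) (Fin J → Fin 3 → K) =>
      g.a = Xw b (List.ofFn f) ∧ ∀ j, g.v j ∈ Fw V0 b (List.ofFn f), ?_, ?_⟩
  · intro x hx
    rw [pwr_p0]
    simp only
    have h1 : ∀ w : List ι, w.length = T → Phi J (Fw V0 b w) (Xw b w) x = 0 := by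
      intro w hw
      unfold Phi
      rw [if_neg]
      intro h
      apply hx
      rw [Finset.mem_biUnion]
      refine ⟨fun i => w.get (Fin.cast hw.symm i), Finset.mem_univ _, ?_⟩
      have h2 : List.ofFn (fun i : Fin T => w.get (Fin.cast hw.symm i)) = w := by
        subst hw
        exact List.ofFn_get w
      rw [h2, Finset.mem_filter]
      exact ⟨Finset.mem_univ _, h⟩
    rw [Ew_congr (g := fun _ => 0) h1, Ew_fzero]
  · refine Finset.card_biUnion_le.trans ?_
    calc ∑ f : Fin T → ι, (univ.filter fun g : Sdp (SL3 K) (Fin J → Fin 3 → K) =>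
          g.a = Xw b (List.ofFn f) ∧ ∀ j, g.v j ∈ Fw V0 b (List.ofFn f)).card
        ≤ ∑ _f : Fin T → ι, M ^ J := by
          refine Finset.sum_le_sum fun f _ => ?_
          rw [card_state]
          exact Nat.pow_le_pow_left (hM _ (by simp)) J
      _ = _ := by
          rw [Finset.sum_const, Finset.card_univ, Fintype.card_fun, Fintype.card_fin, smul_eq_mul]

/-- masses of the main step -/
lemma Phi_nonneg (J : ℕ) (F : Submodule k (Fin 3 → K)) (a : SL3 K)
    (g : Sdp (SL3 K) (Fin J → Fin 3 → K)) : 0 ≤ Phi J F a g := by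
  unfold Phi
  split_ifs
  · positivity
  · exact le_rfl

lemma Phi_sum (J : ℕ) (F : Submodule k (Fin 3 → K)) (a : SL3 K) :
    ∑ g : Sdp (SL3 K) (Fin J → Fin 3 → K), Phi J F a g = 1 := by
  classical
  set S : Finset (Sdp (SL3 K) (Fin J → Fin 3 → K)) :=
    univ.filter fun g => g.a = a ∧ ∀ j, g.v j ∈ F with hS
  have h1 : S.card = Nat.card F ^ J := by
    rw [← card_state J F a, hS]
  have hmem : ∀ g, g ∈ S ↔ (g.a = a ∧ ∀ j, g.v j ∈ F) := by
    intro g
    rw [hS, Finset.mem_filter]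
    exact ⟨fun h => h.2, fun h => ⟨Finset.mem_univ _, h⟩⟩
  have h2 : (0 : ℝ) < Nat.card F := by exact_mod_cast Nat.card_pos
  have h3 : ∀ g, Phi J F a g = if g ∈ S then ((Nat.card F : ℝ) ^ J)⁻¹ else 0 := by
    intro g
    unfold Phi
    by_cases h : g.a = a ∧ ∀ j, g.v j ∈ F
    · rw [if_pos h, if_pos ((hmem g).mpr h)]
    · rw [if_neg h, if_neg (fun h' => h ((hmem g).mp h'))]
  simp only [h3]
  rw [Finset.sum_ite_mem, Finset.univ_inter, Finset.sum_const, nsmul_eq_mul, h1]
  push_cast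
  rw [mul_inv_cancel₀ (pow_pos h2 J).ne']

lemma p0_nonneg (J : ℕ) (V0 : Submodule k (Fin 3 → K)) (c : ι → ℝ) (hc : ∀ i, 0 ≤ c i)
    (b : ι → SL3 K) (x : Sdp (SL3 K) (Fin J → Fin 3 → K)) : 0 ≤ p0 J V0 c b x :=
  Finset.sum_nonneg fun i _ => mul_nonneg (hc i) (Phi_nonneg _ _ _ _)

lemma p0_sum (J : ℕ) (V0 : Submodule k (Fin 3 → K)) (c : ι → ℝ) (hc : ∑ i, c i = 1)
    (b : ι → SL3 K) : ∑ x : Sdp (SL3 K) (Fin J → Fin 3 → K), p0 J V0 c b x = 1 := by
  unfold p0
  rw [Finset.sum_comm]
  simp only [← Finset.mul_sum, Phi_sum, mul_one, hc]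

lemma le_p0 (J : ℕ) (V0 : Submodule k (Fin 3 → K)) (c : ι → ℝ) (hc : ∀ i, 0 ≤ c i)
    (b : ι → SL3 K) (i : ι) (v : Fin J → Fin 3 → K) (hv : ∀ j, v j ∈ V0) :
    c i * ((Nat.card V0 : ℝ) ^ J)⁻¹ ≤ p0 J V0 c b ⟨v, b i⟩ := by
  set g : Sdp (SL3 K) (Fin J → Fin 3 → K) := ⟨v, b i⟩ with hg
  have h1 : c i * Phi J V0 (b i) g ≤ ∑ i', c i' * Phi J V0 (b i') g :=
    Finset.single_le_sum (f := fun i' => c i' * Phi J V0 (b i') g)
      (fun i' _ => mul_nonneg (hc i') (Phi_nonneg _ _ _ _)) (Finset.mem_univ i)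
  have h2 : Phi J V0 (b i) g = ((Nat.card V0 : ℝ) ^ J)⁻¹ := by
    unfold Phi
    rw [if_pos ⟨rfl, hv⟩]
  rw [h2] at h1
  exact h1

open Classical in
/-- size of the support of one step -/
lemma card_supp_p0 (J : ℕ) (V0 : Submodule k (Fin 3 → K)) (c : ι → ℝ) (b : ι → SL3 K) :
    (univ.filter fun g : Sdp (SL3 K) (Fin J → Fin 3 → K) => p0 J V0 c b g ≠ 0).card ≤
      Fintype.card ι * Nat.card V0 ^ J := by
  calc _ ≤ ((univ : Finset ι).biUnion fun i =>
        univ.filter fun g : Sdp (SL3 K) (Fin J → Fin 3 → K) => g.a = b i ∧ ∀ j, g.v j ∈ V0).card := by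
        refine Finset.card_le_card fun g hg => ?_
        rw [Finset.mem_filter] at hg
        rw [Finset.mem_biUnion]
        by_contra hcon
        apply hg.2
        unfold p0
        refine Finset.sum_eq_zero fun i _ => ?_
        unfold Phi
        rw [if_neg, mul_zero]
        intro h
        exact hcon ⟨i, Finset.mem_univ _, Finset.mem_filter.mpr ⟨Finset.mem_univ _, h⟩⟩
    _ ≤ ∑ i : ι, Nat.card V0 ^ J := by
        refine Finset.card_biUnion_le.trans (Finset.sum_le_sum fun i _ => ?_)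
        rw [card_state]
    _ = _ := by rw [Finset.sum_const, Finset.card_univ, smul_eq_mul]

open Classical in
/-- size of the support of the walk -/
lemma card_supp_pw (J : ℕ) (V0 : Submodule k (Fin 3 → K)) (c : ι → ℝ) (b : ι → SL3 K)
    (ρ : ℝ) (gs : List (SL3 K)) :
    (univ.filter fun g : Sdp (SL3 K) (Fin J → Fin 3 → K) => pw J V0 c b ρ gs g ≠ 0).card ≤
      Fintype.card ι * Nat.card V0 ^ J + gs.length := by
  calc _ ≤ ((univ.filter fun g : Sdp (SL3 K) (Fin J → Fin 3 → K) => p0 J V0 c b g ≠ 0) ∪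
        (gs.map fun g => (⟨0, g⟩ : Sdp (SL3 K) (Fin J → Fin 3 → K))).toFinset).card := by
        refine Finset.card_le_card fun g hg => ?_
        rw [Finset.mem_filter] at hg
        rw [Finset.mem_union]
        by_contra hcon
        push Not at hcon
        apply hg.2
        have h1 : p0 J V0 c b g = 0 := by
          by_contra h
          exact hcon.1 (Finset.mem_filter.mpr ⟨Finset.mem_univ _, h⟩)
        have h2 : (gs.map fun g' => dl (⟨0, g'⟩ : Sdp (SL3 K) (Fin J → Fin 3 → K)) g).sum = 0 := by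
          refine List.sum_eq_zero fun y hy => ?_
          obtain ⟨g', hg', rfl⟩ := List.mem_map.mp hy
          unfold dl
          rw [if_neg]
          intro h
          apply hcon.2
          rw [List.mem_toFinset, h]
          exact List.mem_map.mpr ⟨g', hg', rfl⟩
        unfold pw
        rw [h1, h2]
        ring
    _ ≤ _ := by
        refine (Finset.card_union_le _ _).trans (add_le_add (card_supp_p0 J V0 c b) ?_)
        refine (List.toFinset_card_le _).trans ?_
        rw [List.length_map]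

end H98CO
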